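import Pool.Agent.N973.P21.REL

/-!
# P21: evaluation of the counts for a given inner product divisible pairs modulo `7`
-/

set_option autoImplicit false

namespace Pool.Agent.N973.P21

open Finset
open Pool.Agent.N969.P15 (V3 Ev tw tb)
open Pool.Agent.N877.P21
open Pool.Agent.N218.P21
open Pool.Agent.Z700 (hh fac)

/-! ### the pairs which are proportional modulo `7` -/

/-- the translation -/
def T7 (m : ℤ) (w v : V3) : V3 := fun i => 7 * w i + m * v i

/-- the inverse translation -/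
def U7 (m : ℤ) (w v : V3) : V3 := fun i => (w i - m * v i) / 7

theorem ip_T7 (m : ℤ) (v w : V3) : ip v (T7 m w v) = 7 * ip v w + m * ip v v := by
  unfold ip T7
  ring

theorem ip_T7' (m : ℤ) (v w : V3) : ip (T7 m w v) (T7 m w v) =
    49 * ip w w + 14 * m * ip v w + m ^ 2 * ip v v := by
  unfold ip T7
  ring

theorem prop7 {n1 b n2 b' n2' m : ℤ} (hb : b = m * n1 + 7 * b')
    (hn : n2 = 49 * n2' + 14 * m * b' + m ^ 2 * n1) (h2 : ¬ (7 : ℤ) ∣ n2) (v w : V3) :
    (∀ i, (7 : ℤ) ∣ n2 * v i - b * w i) ↔ ∀ i, (7 : ℤ) ∣ w i - m * v i := by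
  have hmn : ¬ (7 : ℤ) ∣ m * n1 := by
    intro h
    apply h2
    rw [hn]
    have e : 49 * n2' + 14 * m * b' + m ^ 2 * n1 = 7 * (7 * n2' + 2 * m * b') + m * (m * n1) := by
      ring
    rw [e]
    exact dvd_add (Dvd.intro _ rfl) (Dvd.dvd.mul_left h m)
  have e : ∀ i, n2 * v i - b * w i =
      7 * ((7 * n2' + 2 * m * b') * v i - b' * w i) - (m * n1) * (w i - m * v i) := by
    intro i
    rw [hn, hb]
    ring
  constructor
  · intro h i
    have h3 := h i
    rw [e i] at h3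
    have h4 : (7 : ℤ) ∣ (m * n1) * (w i - m * v i) := by
      have := dvd_sub (Dvd.intro _ rfl : (7 : ℤ) ∣ 7 * ((7 * n2' + 2 * m * b') * v i - b' * w i)) h3
      rwa [sub_sub_cancel] at this
    rcases Int.Prime.dvd_mul' (p := 7) (by norm_num) h4 with h5 | h5
    · exact absurd h5 hmn
    · exact h5
  · intro h i
    rw [e i]
    exact dvd_sub (Dvd.intro _ rfl) (Dvd.dvd.mul_left (h i) _)

theorem cp7_eq {n1 b n2 b' n2' m : ℤ} (hb : b = m * n1 + 7 * b')
    (hn : n2 = 49 * n2' + 14 * m * b' + m ^ 2 * n1) (h2 : ¬ (7 : ℤ) ∣ n2) :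
    cp7 n1 b n2 = cp n1 b' n2' := by
  unfold cp7 cp
  refine Finset.card_nbij' (fun q => (q.1, U7 m q.2 q.1)) (fun q => (q.1, T7 m q.2 q.1)) ?_ ?_ ?_ ?_
  · rintro ⟨v, w⟩ h
    simp only [Finset.coe_filter, Set.mem_ofPred_eq, Finset.mem_product, mem_vec] at h ⊢
    obtain ⟨⟨h1, h3⟩, h4, h5⟩ := h
    rw [prop7 hb hn h2] at h5
    have hT : T7 m (U7 m w v) v = w := by
      funext i
      show 7 * ((w i - m * v i) / 7) + m * v i = w i
      rw [Int.mul_ediv_cancel' (h5 i)]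
      ring
    have q1 := ip_T7 m v (U7 m w v)
    have q2 := ip_T7' m v (U7 m w v)
    rw [hT, h4, h1] at q1
    rw [hT, h3, h1] at q2
    refine ⟨⟨h1, ?_⟩, by linarith⟩
    have q3 : ip v (U7 m w v) = b' := by linarith
    rw [q3] at q2
    linarith
  · rintro ⟨v, w⟩ h
    simp only [Finset.coe_filter, Set.mem_ofPred_eq, Finset.mem_product, mem_vec] at h ⊢
    obtain ⟨⟨h1, h3⟩, h4⟩ := h
    rw [prop7 hb hn h2]
    refine ⟨⟨h1, ?_⟩, ?_, ?_⟩
    · rw [ip_T7', h1, h3, h4, hn]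
    · rw [ip_T7, h1, h4, hb]
      ring
    · intro i
      exact ⟨w i, by unfold T7; ring⟩
  · rintro ⟨v, w⟩ h
    simp only [Finset.coe_filter, Set.mem_ofPred_eq, Finset.mem_product, mem_vec] at h ⊢
    obtain ⟨⟨h1, h3⟩, h4, h5⟩ := h
    rw [prop7 hb hn h2] at h5
    have hT : T7 m (U7 m w v) v = w := by
      funext i
      show 7 * ((w i - m * v i) / 7) + m * v i = w i
      rw [Int.mul_ediv_cancel' (h5 i)]
      ring
    rw [hT]
  · rintro ⟨v, w⟩ h
    have hUT : U7 m (T7 m w v) v = w := by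
      funext i
      show (7 * w i + m * v i - m * v i) / 7 = w i
      have : 7 * w i + m * v i - m * v i = 7 * w i := by ring
      rw [this]
      exact Int.mul_ediv_cancel_left _ (by norm_num)
    show (v, U7 m (T7 m w v) v) = (v, w)
    rw [hUT]

theorem cp7_le (n1 b n2 : ℤ) : cp7 n1 b n2 ≤ cp n1 b n2 := by
  unfold cp7 cp
  refine Finset.card_le_card ?_
  intro q hq
  rw [Finset.mem_filter] at hq ⊢
  exact ⟨hq.1, hq.2.1⟩

theorem exists_t {n1 : ℕ} (h1 : Sp7 n1) : ∃ t : ℤ, (7 : ℤ) ∣ 1 - 4 * t * n1 := by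
  unfold Sp7 at h1
  rcases h1 with h | h | h
  · exact ⟨3, by omega⟩
  · exact ⟨6, by omega⟩
  · exact ⟨5, by omega⟩

theorem cop49 {n1 : ℕ} (h1 : Sp7 n1) : IsCoprime (49 : ℤ) n1 := by
  have h0 : IsCoprime (7 : ℤ) n1 := by
    have hp : Prime (7 : ℤ) := by
      have := Nat.prime_iff_prime_int.1 (by norm_num : Nat.Prime 7)
      exact_mod_cast this
    rw [Prime.coprime_iff_not_dvd hp]
    unfold Sp7 at h1
    omega
  have h := IsCoprime.mul_left h0 h0
  norm_num at h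
  exact h

/-- the pairs proportional modulo `7` in general -/
theorem CP_gen {n1 n2 : ℕ} {b : ℤ} {D : ℕ} (h1 : Sp7 n1) (h2 : Sp7 n2) (hD : 0 < D) (h7 : 7 ∣ D)
    (hDD : (D : ℤ) = n1 * n2 - b ^ 2) (κ G : ℤ)
    (hG : ∀ (D' N2 : ℕ) (b' m : ℤ), D = 49 * D' → 0 < D' → b = 4 * m * n1 + 7 * b' →
      (n2 : ℤ) = 49 * N2 + 14 * (4 * m) * b' + (4 * m) ^ 2 * n1 → (D' : ℤ) = n1 * N2 - b' ^ 2 →
      (cp n1 b' N2 : ℤ) = κ * (((D'.factorization 7 : ℤ) + 1) * G)) :
    (cp7 n1 b n2 : ℤ) = κ * (((D.factorization 7 : ℤ) - 1) * G) := by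
  have hn2 : ¬ (7 : ℤ) ∣ n2 := by unfold Sp7 at h2; omega
  have hn1 : ¬ (7 : ℤ) ∣ n1 := by unfold Sp7 at h1; omega
  obtain ⟨t, c, hc⟩ := exists_t h1
  by_cases h9 : 49 ∣ D
  · obtain ⟨D', rfl⟩ := h9
    have hD' : 0 < D' := by omega
    have hb' : b = 4 * (t * b) * n1 + 7 * (b * c) := by linear_combination b * hc
    have h49 : (49 : ℤ) ∣ n2 - 2 * (4 * (t * b)) * b + (4 * (t * b)) ^ 2 * n1 := by
      refine (cop49 h1).dvd_of_dvd_mul_left ?_
      have e : (n1 : ℤ) * (n2 - 2 * (4 * (t * b)) * b + (4 * (t * b)) ^ 2 * n1) =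
          49 * (D' : ℤ) + (b - 4 * (t * b) * n1) ^ 2 := by
        push_cast at hDD
        rw [hDD]
        ring
      rw [e]
      have e2 : b - 4 * (t * b) * n1 = 7 * (b * c) := by linear_combination hb'
      rw [e2]
      exact ⟨D' + (b * c) ^ 2, by ring⟩
    obtain ⟨n2', hn2'⟩ := h49
    have hpos : 0 < n2' := by
      have e : (n1 : ℤ) * (49 * n2') = 49 * (D' : ℤ) + (b - 4 * (t * b) * n1) ^ 2 := by
        rw [← hn2']
        push_cast at hDD
        rw [hDD]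
        ring
      have h3 : 0 < (n1 : ℤ) * (49 * n2') := by
        rw [e]
        have : (0 : ℤ) < D' := by exact_mod_cast hD'
        positivity
      have h4 : (0 : ℤ) < n1 := by omega
      have h5 := (mul_pos_iff_of_pos_left h4).1 h3
      omega
    obtain ⟨N2, rfl⟩ := Int.eq_ofNat_of_zero_le hpos.le
    have hn : (n2 : ℤ) = 49 * N2 + 14 * (4 * (t * b)) * (b * c) + (4 * (t * b)) ^ 2 * n1 := by
      linear_combination hn2' + 2 * (4 * (t * b)) * hb'
    have hDD' : (D' : ℤ) = n1 * N2 - (b * c) ^ 2 := by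
      have : 49 * (D' : ℤ) = 49 * (n1 * N2 - (b * c) ^ 2) := by
        push_cast at hDD
        rw [hDD, hn]
        linear_combination (-b - (4 * (t * b) * n1 + 7 * (b * c))) * hb'
      linarith
    rw [cp7_eq hb' hn hn2, hG D' N2 (b * c) (t * b) rfl hD' hb' hn hDD']
    have hf : (49 * D').factorization 7 = 2 + D'.factorization 7 := by
      rw [Nat.factorization_mul (by norm_num) hD'.ne']
      have h9 : (49 : ℕ).factorization 7 = 2 := by
        have : (49 : ℕ) = 7 ^ 2 := by norm_num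
        rw [this, Nat.Prime.factorization_pow (by norm_num)]
        simp
      simp [h9]
    rw [hf]
    push_cast
    ring
  · have hz : cp7 n1 b n2 = 0 := by
      unfold cp7
      rw [Finset.card_eq_zero, Finset.filter_eq_empty_iff]
      rintro ⟨v, w⟩ h h3
      simp only [Finset.mem_product, mem_vec] at h h3
      obtain ⟨h4, h5⟩ := h
      obtain ⟨h6, h8⟩ := h3
      apply h9
      have k1 : ∀ i, (7 : ℤ) ∣ w i - 4 * t * b * v i := by
        intro i
        have h10 := h8 i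
        have hb2 : (7 : ℤ) ∣ n1 * n2 - b ^ 2 := by
          rw [← hDD]
          exact_mod_cast h7
        obtain ⟨x, hx⟩ := h10
        obtain ⟨y, hy⟩ := hb2
        have hmul : (7 : ℤ) ∣ (n1 : ℤ) * n2 * (w i - 4 * t * b * v i) := by
          refine ⟨n1 * n2 * c * w i + 4 * t * (n1 * (y * w i)) - 4 * t * n1 * b * x, ?_⟩
          linear_combination (n1 * n2 * w i) * hc - (4 * t * n1 * b) * hx +
            (4 * t * n1 * w i) * hy
        rcases Int.Prime.dvd_mul' (p := 7) (by norm_num) hmul with h11 | h11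
        · rcases Int.Prime.dvd_mul' (p := 7) (by norm_num) h11 with h12 | h12
          · exact absurd h12 hn1
          · exact absurd h12 hn2
        · exact h11
      choose u hu using k1
      have hw : w = T7 (4 * t * b) u v := by
        funext i
        unfold T7
        linarith [hu i]
      have k2 : (D : ℤ) = 49 * (ip v v * ip u u - ip v u ^ 2) := by
        rw [hDD, ← h4, ← h5, ← h6, hw, ip_T7, ip_T7']
        ring
      have k3 : (49 : ℤ) ∣ (D : ℤ) := ⟨_, k2⟩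
      exact_mod_cast k3
    have hk : D.factorization 7 = 1 := by
      have k1 : 1 ≤ D.factorization 7 :=
        (Nat.Prime.dvd_iff_one_le_factorization (by norm_num) hD.ne').1 h7
      have k2 : ¬ 2 ≤ D.factorization 7 := by
        intro h
        have := (Nat.Prime.pow_dvd_iff_le_factorization (p := 7) (by norm_num) hD.ne').2 h
        norm_num at this
        exact h9 this
      omega
    rw [hz, hk]
    push_cast
    ring

/-! ### the local factors -/

theorem jac_n1 {n1 : ℕ} (h : Sp7 n1) : jacobiSym (-(n1 : ℤ)) 7 = 1 := by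
  rw [jacobiSym.mod_left]
  unfold Sp7 at h
  rcases h with h | h | h
  · rw [show (-(n1 : ℤ)) % ((7 : ℕ) : ℤ) = 4 by push_cast; omega]
    norm_num
  · rw [show (-(n1 : ℤ)) % ((7 : ℕ) : ℤ) = 2 by push_cast; omega]
    norm_num
  · rw [show (-(n1 : ℤ)) % ((7 : ℕ) : ℤ) = 1 by push_cast; omega]
    norm_num

theorem fac7 {n1 : ℕ} (h : Sp7 n1) (D : ℕ) : fac n1 D 7 = (D.factorization 7 : ℤ) + 1 := by
  unfold fac
  rw [if_neg (by unfold Sp7 at h; omega), jac_n1 h]
  simp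

theorem fact49 (D' l : ℕ) (hD' : 0 < D') (hl : l.Prime) (h3 : l ≠ 7) :
    (49 * D').factorization l = D'.factorization l := by
  rw [Nat.factorization_mul (by norm_num) hD'.ne']
  have h9 : (49 : ℕ).factorization l = 0 := by
    apply Nat.factorization_eq_zero_of_not_dvd
    intro h
    have h1 : l ∣ 7 ^ 2 := by norm_num; exact h
    have h2 := hl.dvd_of_dvd_pow h1
    rw [Nat.prime_dvd_prime_iff_eq hl (by norm_num)] at h2
    exact h3 h2
  simp [h9]

theorem jac49 (x : ℤ) (l : ℕ) (hl : l.Prime) (h3 : l ≠ 7) :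
    jacobiSym (49 * x) l = jacobiSym x l := by
  rw [jacobiSym.mul_left]
  have h1 : jacobiSym (49 : ℤ) l = 1 := by
    have : (49 : ℤ) = 7 ^ 2 := by norm_num
    rw [this]
    apply jacobiSym.sq_one'
    rw [Int.gcd_comm]
    have h2 : Nat.Coprime l 7 := (Nat.coprime_primes hl (by norm_num)).2 h3
    exact_mod_cast h2
  rw [h1, one_mul]

theorem hh49 (n1 D' l : ℕ) (hD' : 0 < D') (hl : l.Prime) (h3 : l ≠ 7) :
    hh n1 (49 * D') l = hh n1 D' l := by
  unfold hh
  rw [fact49 D' l hD' hl h3]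
  have h1 : 49 * D' / l ^ D'.factorization l = 49 * (D' / l ^ D'.factorization l) :=
    Nat.mul_div_assoc _ (Nat.ordProj_dvd D' l)
  rw [h1]
  have h2 : (-((49 * (D' / l ^ D'.factorization l) : ℕ) : ℤ)) =
      49 * (-((D' / l ^ D'.factorization l : ℕ) : ℤ)) := by
    push_cast
    ring
  have h4 : (-((n1 / l * (49 * (D' / l ^ D'.factorization l)) : ℕ) : ℤ)) =
      49 * (-((n1 / l * (D' / l ^ D'.factorization l) : ℕ) : ℤ)) := by
    push_cast
    ring
  rw [h2, h4, jac49 _ l hl h3, jac49 _ l hl h3]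

theorem fac49 (n1 D' l : ℕ) (hD' : 0 < D') (hl : l.Prime) (h3 : l ≠ 7) :
    fac n1 (49 * D') l = fac n1 D' l := by
  unfold fac
  rw [hh49 n1 D' l hD' hl h3, fact49 D' l hD' hl h3]

theorem pf49 (D' : ℕ) (hD' : 0 < D') :
    (((49 * D').primeFactors.erase 2).erase 3).erase 7 =
      ((D'.primeFactors.erase 2).erase 3).erase 7 := by
  rw [Nat.primeFactors_mul (by norm_num) hD'.ne']
  have h9 : (49 : ℕ).primeFactors = {7} := by
    have : (49 : ℕ) = 7 ^ 2 := by norm_num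
    rw [this]
    exact Nat.primeFactors_prime_pow (by norm_num) (by norm_num)
  rw [h9]
  ext x
  simp only [Finset.mem_erase, Finset.mem_union, Finset.mem_singleton]
  tauto

theorem prod49 (n1 D' : ℕ) (hD' : 0 < D') :
    ∏ l ∈ (((49 * D').primeFactors.erase 2).erase 3).erase 7, fac n1 (49 * D') l =
      ∏ l ∈ ((D'.primeFactors.erase 2).erase 3).erase 7, fac n1 D' l := by
  rw [pf49 D' hD']
  refine Finset.prod_congr rfl fun l hl => ?_
  have h1 := Finset.mem_erase.1 hl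
  have h2 := Finset.mem_erase.1 h1.2
  exact fac49 n1 D' l hD' (Nat.prime_of_mem_primeFactors (Finset.mem_erase.1 h2.2).2) h1.1

theorem prod_seven {n1 : ℕ} (h : Sp7 n1) (D : ℕ) (hD : 0 < D) :
    ∏ l ∈ (D.primeFactors.erase 2).erase 3, fac n1 D l =
        ((D.factorization 7 : ℤ) + 1) * ∏ l ∈ ((D.primeFactors.erase 2).erase 3).erase 7,
          fac n1 D l := by
  by_cases h3 : 7 ∈ (D.primeFactors.erase 2).erase 3
  · rw [← Finset.mul_prod_erase _ _ h3, fac7 h]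
  · rw [Finset.erase_eq_of_notMem h3]
    have h2 : D.factorization 7 = 0 := by
      apply Nat.factorization_eq_zero_of_not_dvd
      intro h4
      apply h3
      rw [Finset.mem_erase, Finset.mem_erase, Nat.mem_primeFactors]
      exact ⟨by norm_num, by norm_num, by norm_num, h4, hD.ne'⟩
    rw [h2]
    simp

/-- the even version of `lrest` -/
noncomputable def lrE (n1 : ℕ) (b : ℤ) (D : ℕ) : ℤ :=
  if Odd (D.factorization 3) then
    tb b * ∏ l ∈ ((D.primeFactors.erase 2).erase 3).erase 7, fac n1 D l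
  else 0

theorem loc7E_eq (n1 : ℕ) (b : ℤ) (D : ℕ) : loc7E n1 b D = (D.factorization 7 : ℤ) * lrE n1 b D := by
  unfold loc7E lrE
  split_ifs
  · rfl
  · rw [mul_zero]

theorem loc_eq {n1 : ℕ} (h : Sp7 n1) (D : ℕ) (hD : 0 < D) :
    loc n1 D = ((D.factorization 7 : ℤ) + 1) * lrest n1 D := by
  unfold loc lrest
  split_ifs
  · rw [prod_seven h D hD]
    ring
  · rw [mul_zero]

theorem locE_eq {n1 : ℕ} (h : Sp7 n1) (b : ℤ) (D : ℕ) (hD : 0 < D) :
    locE n1 b D = ((D.factorization 7 : ℤ) + 1) * lrE n1 b D := by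
  unfold locE lrE
  split_ifs
  · rw [prod_seven h D hD]
    ring
  · rw [mul_zero]

theorem loc3_eq {n1 : ℕ} (h : Sp7 n1) (D : ℕ) (hD : 0 < D) :
    loc3 n1 D = ((D.factorization 7 : ℤ) + 1) * lc3 n1 D := by
  unfold loc3 lc3
  split_ifs
  · rw [prod_seven h D hD]
    ring
  · rw [mul_zero]

theorem loc3E_eq {n1 : ℕ} (h : Sp7 n1) (b : ℤ) (D : ℕ) (hD : 0 < D) :
    loc3E n1 b D = ((D.factorization 7 : ℤ) + 1) * lc3E n1 b D := by
  unfold loc3E lc3E
  split_ifs
  · rw [prod_seven h D hD]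
    ring
  · rw [mul_zero]

theorem lrest49 (n1 D' : ℕ) (hD' : 0 < D') : lrest n1 (49 * D') = lrest n1 D' := by
  unfold lrest tw
  rw [prod49 n1 D' hD', fact49 D' 3 hD' (by norm_num) (by norm_num),
    fact49 D' 2 hD' (by norm_num) (by norm_num)]

theorem lrE49 (n1 : ℕ) {b b' : ℤ} (hb : tb b' = tb b) (D' : ℕ) (hD' : 0 < D') :
    lrE n1 b (49 * D') = lrE n1 b' D' := by
  unfold lrE
  rw [prod49 n1 D' hD', fact49 D' 3 hD' (by norm_num) (by norm_num), hb]

theorem lc3_49 (n1 D' : ℕ) (hD' : 0 < D') : lc3 n1 (49 * D') = lc3 n1 D' := by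
  unfold lc3 tw
  rw [prod49 n1 D' hD', hh49 n1 D' 3 hD' (by norm_num) (by norm_num),
    fact49 D' 2 hD' (by norm_num) (by norm_num)]
  have : 3 ∣ 49 * D' ↔ 3 ∣ D' := by omega
  simp only [this]

theorem lc3E_49 (n1 : ℕ) {b b' : ℤ} (hb : tb b' = tb b) (D' : ℕ) (hD' : 0 < D') :
    lc3E n1 b (49 * D') = lc3E n1 b' D' := by
  unfold lc3E
  rw [prod49 n1 D' hD', hh49 n1 D' 3 hD' (by norm_num) (by norm_num), hb]
  have : 3 ∣ 49 * D' ↔ 3 ∣ D' := by omega
  simp only [this]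

/-- **CP7** -/
theorem t_CP7 (hPC : S_PC) : S_CP7 := by
  intro n1 n2 b D hs h4 h1 h2 h3 hD h7 hDD
  have h := CP_gen h1 h2 hD h7 hDD 12 (lrest n1 D) (by
    rintro D' N2 b' m rfl hD' hb' hn hDD'
    rw [hPC n1 N2 b' D' hs h4 h3 hD' hDD', loc_eq h1 D' hD', lrest49 n1 D' hD'])
  rw [h, hPC n1 n2 b D hs h4 h3 hD hDD, loc_eq h1 D hD]
  unfold loc7
  ring

/-- **CP73** -/
theorem t_CP73 (hPC : S_PC3) : S_CP73 := by
  intro n1 n2 b D hs h4 h1 h2 h3 hD h7 hDD
  have h := CP_gen h1 h2 hD h7 hDD 6 (lc3 n1 D) (by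
    rintro D' N2 b' m rfl hD' hb' hn hDD'
    rw [hPC n1 N2 b' D' hs h4 h3 hD' hDD', loc3_eq h1 D' hD', lc3_49 n1 D' hD'])
  rw [h, hPC n1 n2 b D hs h4 h3 hD hDD, loc3_eq h1 D hD]
  ring

theorem even_data {n1 n2 N2 : ℕ} {b b' m : ℤ} (h41 : 4 ∣ n1) (h42 : 4 ∣ n2)
    (hb' : b = 4 * m * n1 + 7 * b')
    (hn : (n2 : ℤ) = 49 * N2 + 14 * (4 * m) * b' + (4 * m) ^ 2 * n1) :
    4 ∣ N2 ∧ tb b' = tb b := by
  obtain ⟨n, rfl⟩ := h41
  obtain ⟨n', rfl⟩ := h42
  constructor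
  · have : (4 : ℤ) ∣ 49 * (N2 : ℤ) := by
      refine ⟨n' - 14 * m * b' - 16 * m ^ 2 * n, ?_⟩
      push_cast at hn
      linear_combination -hn
    have : (4 : ℤ) ∣ (N2 : ℤ) := by omega
    exact_mod_cast this
  · push_cast at hb'
    have e : 4 * m * (4 * (n : ℤ)) = 4 * (4 * (m * n)) := by ring
    rw [e] at hb'
    generalize 4 * (m * (n : ℤ)) = x at hb'
    unfold tb
    have q1 : b' % 4 = 0 ↔ b % 4 = 0 := by omega
    have q2 : b' % 4 = 2 ↔ b % 4 = 2 := by omega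
    simp only [q1, q2]

/-- **CP7E** -/
theorem t_CP7E (hPC : S_PCE) : S_CP7E := by
  intro n1 n2 b D hs h3 h1 h4 h2 hD h7 hDD
  have h41 : 4 ∣ n1 := by
    obtain ⟨m, rfl, -⟩ := hs
    exact dvd_mul_right 4 m
  have h := CP_gen h1 h2 hD h7 hDD 12 (lrE n1 b D) (by
    rintro D' N2 b' m rfl hD' hb' hn hDD'
    obtain ⟨k1, k2⟩ := even_data h41 h4 hb' hn
    rw [hPC n1 N2 b' D' hs h3 k1 hD' hDD', locE_eq h1 b' D' hD', lrE49 n1 k2 D' hD'])
  rw [h, hPC n1 n2 b D hs h3 h4 hD hDD, locE_eq h1 b D hD, loc7E_eq]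
  ring

/-- **CP73E** -/
theorem t_CP73E (hPC : S_PC3E) : S_CP73E := by
  intro n1 n2 b D hs h3 h1 h4 h2 hD h7 hDD
  have h41 : 4 ∣ n1 := by
    obtain ⟨m, rfl, -⟩ := hs
    exact dvd_mul_right 4 m
  have h := CP_gen h1 h2 hD h7 hDD 6 (lc3E n1 b D) (by
    rintro D' N2 b' m rfl hD' hb' hn hDD'
    obtain ⟨k1, k2⟩ := even_data h41 h4 hb' hn
    rw [hPC n1 N2 b' D' hs h3 k1 hD' hDD', loc3E_eq h1 b' D' hD', lc3E_49 n1 k2 D' hD'])
  rw [h, hPC n1 n2 b D hs h3 h4 hD hDD, loc3E_eq h1 b D hD]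
  ring

end Pool.Agent.N973.P21
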