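import Pool.Agent.N973.P21.DG

/-!
# P21: the assembly of the diagonal identities
-/

set_option autoImplicit false

namespace Pool.Agent.N973.P21

open Finset
open Pool.Agent.N969.P15 (V3 Ev tw tb ep2 psp psp2 un chE S_C1B S_C1BE)
open Pool.Agent.N973.P15.C (jac_odd chE_odd)
open Pool.Agent.N877.P21
open Pool.Agent.N218.P21
open Pool.Agent.Z700 (hh fac)

/-! ### the sums over the cusps -/

theorem WX_odd (h1 : S_C1B) {n N : ℕ} (hs : Squarefree n) (h4 : n % 4 = 3)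
    (hN : N = n ∨ N = 2 * n) : WX (fun u => jacobiSym u n) n N =
      ∑ T ∈ (range N).filter (fun T => 3 ∣ T ∧ 7 ∣ N - T), WW n (N - T) T := by
  unfold WX WW
  refine Finset.sum_congr rfl fun T hT => ?_
  rw [mem_filter, mem_range] at hT
  refine Finset.sum_congr rfl fun a ha => ?_
  refine Finset.sum_congr rfl fun a' ha' => ?_
  have h3 : a ∣ N - T := Nat.dvd_of_mem_divisors (Finset.mem_filter.1 ha).1
  have h5 : a' ∣ T := Nat.dvd_of_mem_divisors (Finset.mem_filter.1 ha').1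
  refine h1 n hs h4 N hN a a' (T / a') ((N - T) / a) ?_
  rw [Nat.mul_div_cancel' h3, Nat.mul_div_cancel' h5]
  omega

theorem WX_even (h1 : S_C1BE) {n N : ℕ} (hs : Ev n) (hN : N = n ∨ N = 2 * n) :
    WX (chE n) n N = ∑ T ∈ (range N).filter (fun T => 3 ∣ T ∧ 7 ∣ N - T), WWe n (N - T) T := by
  unfold WX WWe
  refine Finset.sum_congr rfl fun T hT => ?_
  rw [mem_filter, mem_range] at hT
  refine Finset.sum_congr rfl fun a ha => ?_
  refine Finset.sum_congr rfl fun a' ha' => ?_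
  have hT0 : 0 < T := by
    rcases Nat.eq_zero_or_pos T with rfl | h
    · simp at ha'
    · exact h
  have h3 : a ∣ N - T := Nat.dvd_of_mem_divisors (Finset.mem_filter.1 ha).1
  have h5 : a' ∣ T := Nat.dvd_of_mem_divisors (Finset.mem_filter.1 ha').1
  have p1 : 0 < a := Nat.pos_of_dvd_of_pos h3 (by omega)
  have p2 : 0 < a' := Nat.pos_of_dvd_of_pos h5 hT0
  refine h1 n hs N hN a a' (T / a') ((N - T) / a) p1 p2 (Nat.div_pos (Nat.le_of_dvd hT0 h5) p2)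
    (Nat.div_pos (Nat.le_of_dvd (by omega) h3) p1) ?_
  rw [Nat.mul_div_cancel' h3, Nat.mul_div_cancel' h5]
  omega

theorem WXA_odd (h1 : S_C1B) {n N : ℕ} (hs : Squarefree n) (h4 : n % 4 = 3)
    (hN : N = n ∨ N = 2 * n) : WXA (fun u => jacobiSym u n) n N =
      ∑ T ∈ (range N).filter (fun T => 3 ∣ T), WWA n (N - T) T := by
  unfold WXA WWA
  refine Finset.sum_congr rfl fun T hT => ?_
  rw [mem_filter, mem_range] at hT
  refine Finset.sum_congr rfl fun a ha => ?_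
  refine Finset.sum_congr rfl fun a' ha' => ?_
  have h3 : a ∣ N - T := Nat.dvd_of_mem_divisors (Finset.mem_filter.1 ha).1
  have h5 : a' ∣ T := Nat.dvd_of_mem_divisors (Finset.mem_filter.1 ha').1
  refine h1 n hs h4 N hN a a' (T / a') ((N - T) / a) ?_
  rw [Nat.mul_div_cancel' h3, Nat.mul_div_cancel' h5]
  omega

theorem WXA_even (h1 : S_C1BE) {n N : ℕ} (hs : Ev n) (hN : N = n ∨ N = 2 * n) :
    WXA (chE n) n N = ∑ T ∈ (range N).filter (fun T => 3 ∣ T), WWAe n (N - T) T := by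
  unfold WXA WWAe
  refine Finset.sum_congr rfl fun T hT => ?_
  rw [mem_filter, mem_range] at hT
  refine Finset.sum_congr rfl fun a ha => ?_
  refine Finset.sum_congr rfl fun a' ha' => ?_
  have hT0 : 0 < T := by
    rcases Nat.eq_zero_or_pos T with rfl | h
    · simp at ha'
    · exact h
  have h3 : a ∣ N - T := Nat.dvd_of_mem_divisors (Finset.mem_filter.1 ha).1
  have h5 : a' ∣ T := Nat.dvd_of_mem_divisors (Finset.mem_filter.1 ha').1
  have p1 : 0 < a := Nat.pos_of_dvd_of_pos h3 (by omega)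
  have p2 : 0 < a' := Nat.pos_of_dvd_of_pos h5 hT0
  refine h1 n hs N hN a a' (T / a') ((N - T) / a) p1 p2 (Nat.div_pos (Nat.le_of_dvd hT0 h5) p2)
    (Nat.div_pos (Nat.le_of_dvd (by omega) h3) p1) ?_
  rw [Nat.mul_div_cancel' h3, Nat.mul_div_cancel' h5]
  omega

/-- doubling in the sum over `T` -/
theorem sum_dbl {n : ℕ} (P : ℕ → ℕ → Prop) [∀ N, DecidablePred (P N)]
    (hP : ∀ T, P (2 * n) (2 * T) ↔ P n T) (e : ℤ) (L : ℕ → ℤ) :
    ∑ T ∈ (range (2 * n)).filter (P (2 * n)),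
      (if 2 ∣ T then e * L ((2 * n - T) * T) else 0) =
    e * ∑ T ∈ (range n).filter (P n), L (4 * (n - T) * T) := by
  rw [← Finset.sum_filter, Finset.mul_sum]
  symm
  refine Finset.sum_nbij (fun T : ℕ => 2 * T) ?_ ?_ ?_ ?_
  · intro T hT
    rw [mem_filter, mem_range] at hT
    rw [mem_filter, mem_filter, mem_range, hP]
    exact ⟨⟨by omega, hT.2⟩, by omega⟩
  · intro T _ T' _ h
    have h' : 2 * T = 2 * T' := h
    omega
  · intro T hT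
    rw [mem_coe, mem_filter, mem_filter, mem_range] at hT
    obtain ⟨⟨b1, b2⟩, k, hk⟩ := hT
    refine ⟨k, ?_, hk.symm⟩
    rw [mem_coe, mem_filter, mem_range, ← hP, ← hk]
    exact ⟨by omega, b2⟩
  · intro T hT
    rw [mem_filter, mem_range] at hT
    have h6 : 4 * (n - T) * T = (2 * n - 2 * T) * (2 * T) := by
      have h7 : 2 * n - 2 * T = 2 * (n - T) := by omega
      rw [h7]
      ring
    rw [h6]

theorem cast4 (n : ℕ) : ((4 * n : ℕ) : ℤ) = 4 * (n : ℤ) := by push_cast; rfl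

/-- the Gross sum at `4 n`, `7` split -/
theorem cc4 {n : ℕ} {e : ℤ} (h7 : Sp7 n)
    (h : rr (4 * n) = (3 - e) * rr n ∧ rr0 (4 * n) = rr n - (1 + e) * rr0 n) :
    cc (4 * n) = -(1 + e) * cc n := by
  unfold cc
  unfold Sp7 at h7
  have m1 : ¬ (4 * (n : ℤ)) % 7 = 0 := by omega
  have m2 : ¬ (n : ℤ) % 7 = 0 := by omega
  rw [if_neg m1, if_neg m2, h.1, h.2]
  ring

/-- the Gross sum at `4 n`, `7 ∣ n` -/
theorem cc47 {n : ℕ} {e : ℤ} (h7 : 7 ∣ n)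
    (h : rr (4 * n) = (3 - e) * rr n ∧ 2 * rr0 (4 * n) = rr n - 2 * (1 + e) * rr0 n) :
    cc (4 * n) = -(1 + e) * cc n := by
  unfold cc
  have m1 : (4 * (n : ℤ)) % 7 = 0 := by omega
  have m2 : (n : ℤ) % 7 = 0 := by omega
  rw [if_pos m1, if_pos m2]
  linear_combination h.1 - 4 * h.2

/-- **DIAG** -/
theorem t_DIAG (h1b : S_C1B) (h2a : S_C2A) (h2b : S_C2B) (hC : S_CP7) (hHE : S_HE) : S_DIAG := by
  intro n hn
  obtain ⟨hs, h4, h3, h7⟩ := id hn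
  obtain ⟨k1, k2⟩ := bil_odd hC hn
  have h0 := hHE n h4 h7
  have k5 := cc4 h7 h0
  rw [h0.1, k5] at k2
  have hcop : Nat.Coprime n 21 := by
    have h1 : Nat.Coprime n 3 := (Nat.coprime_comm.1 ((Nat.Prime.coprime_iff_not_dvd
      (by norm_num)).2 (by omega)))
    have h2 : Nat.Coprime n 7 := (Nat.coprime_comm.1 ((Nat.Prime.coprime_iff_not_dvd
      (by norm_num)).2 (by unfold Sp7 at h7; omega)))
    exact Nat.Coprime.mul_right h1 h2
  have w1 : WX (fun u => jacobiSym u n) n n = -AA n n := by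
    rw [WX_odd h1b hs h4 (Or.inl rfl)]
    unfold AA
    rw [← Finset.sum_neg_distrib]
    refine Finset.sum_congr rfl fun T hT => ?_
    rw [mem_filter, mem_range] at hT
    have hT0 : 0 < T := Nat.pos_of_ne_zero (by
      rintro rfl
      unfold Sp7 at h7
      omega)
    exact h2a n hn T hT0 hT.1 hT.2.1 hT.2.2
  have w2 : WX (fun u => jacobiSym u n) n (2 * n) = -(AA n (2 * n) + ep2 n * AA n n) := by
    rw [WX_odd h1b hs h4 (Or.inr rfl)]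
    unfold AA
    rw [← sum_dbl (n := n) (fun N T => 3 ∣ T ∧ 7 ∣ N - T) (by intro T; constructor <;> omega)
      (ep2 n) (loc7 n), ← Finset.sum_add_distrib, ← Finset.sum_neg_distrib]
    refine Finset.sum_congr rfl fun T hT => ?_
    rw [mem_filter, mem_range] at hT
    have hT0 : 0 < T := Nat.pos_of_ne_zero (by
      rintro rfl
      unfold Sp7 at h7
      omega)
    exact h2b n hn T hT0 hT.1 hT.2.1 hT.2.2
  rw [C.t_C1A n (by omega) hcop (fun u => jacobiSym u n) (fun u => jac_odd h4 u), w1, w2]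
  generalize AA n n = S1 at k1 ⊢
  generalize AA n (2 * n) = S2 at k2 ⊢
  have k7 : 4 * (72 * (2 * (-(S2 + ep2 n * S1) - 3 * -S1))) = 4 * cc n ^ 2 := by
    linear_combination (3 - ep2 n) * k1 - k2
  linarith

/-- **DIAGE** -/
theorem t_DIAGE (h1b : S_C1BE) (h2 : S_C2E) (hC : S_CP7E) (hHE : S_HEE) : S_DIAGE := by
  intro n hn
  obtain ⟨hev, h3, h7⟩ := id hn
  obtain ⟨k1, k2⟩ := bil_even hC hn
  obtain ⟨m, rfl, hs, hm⟩ := id hev
  have hm0 := hs.ne_zero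
  obtain ⟨e1, e2⟩ := hHE m hm h7
  have k5 : cc (16 * m) = -cc (4 * m) := by
    have := cc4 (n := 4 * m) (e := 0) h7 (by
      rw [cast4, show 4 * (4 * (m : ℤ)) = 16 * m by ring, e1, e2]
      constructor <;> ring)
    rw [cast4, show 4 * (4 * (m : ℤ)) = 16 * m by ring] at this
    rw [this]
    ring
  rw [cast4, show 4 * (4 * (m : ℤ)) = 16 * m by ring, e1, k5] at k2
  rw [cast4] at k1
  have hcop : Nat.Coprime (4 * m) 21 := by
    have h1 : Nat.Coprime (4 * m) 3 := (Nat.coprime_comm.1 ((Nat.Prime.coprime_iff_not_dvd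
      (by norm_num)).2 (by omega)))
    have h2 : Nat.Coprime (4 * m) 7 := (Nat.coprime_comm.1 ((Nat.Prime.coprime_iff_not_dvd
      (by norm_num)).2 (by unfold Sp7 at h7; omega)))
    exact Nat.Coprime.mul_right h1 h2
  have w : ∀ N : ℕ, (N = 4 * m ∨ N = 2 * (4 * m)) → WX (chE (4 * m)) (4 * m) N =
      -AAe (4 * m) N := by
    intro N hN
    rw [WX_even h1b hev hN]
    unfold AAe
    rw [← Finset.sum_neg_distrib]
    refine Finset.sum_congr rfl fun T hT => ?_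
    rw [mem_filter, mem_range] at hT
    have hT0 : 0 < T := Nat.pos_of_ne_zero (by
      rintro rfl
      unfold Sp7 at h7
      omega)
    exact h2 (4 * m) hn N hN T hT0 hT.1 hT.2.1 hT.2.2
  rw [C.t_C1A (4 * m) (by omega) hcop (chE (4 * m)) (fun u => chE_odd hev u),
    w _ (Or.inl rfl), w _ (Or.inr rfl), cast4]
  generalize AAe (4 * m) (4 * m) = S1 at k1 ⊢
  generalize AAe (4 * m) (2 * (4 * m)) = S2 at k2 ⊢
  have k7 : 4 * (72 * (2 * (-S2 - 3 * -S1))) = 4 * cc (4 * m) ^ 2 := by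
    linear_combination 3 * k1 - k2
  linarith

/-! ### `7 ∣ n` -/

theorem fibs {n n2 B : ℤ} (hB : n * n2 < B ^ 2) (hB0 : 0 < B) (P : ℤ → Prop) [DecidablePred P] :
    ∑ b ∈ (Ioo (-B) B).filter P, (cp n b n2 : ℤ) =
      (((vec n ×ˢ vec n2).filter fun q => P (ip q.1 q.2)).card : ℤ) := by
  rw [Finset.card_eq_sum_card_fiberwise (f := fun q : V3 × V3 => ip q.1 q.2)
    (t := (Ioo (-B) B).filter P)]
  · push_cast
    refine Finset.sum_congr rfl fun b hb => ?_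
    congr 1
    unfold cp
    rw [Finset.filter_filter]
    congr 1
    refine Finset.filter_congr fun q _ => ?_
    constructor
    · intro h
      refine ⟨?_, h⟩
      rw [h]
      exact (Finset.mem_filter.1 hb).2
    · exact fun h => h.2
  · intro q hq
    rw [Finset.mem_coe, Finset.mem_filter, Finset.mem_product, mem_vec, mem_vec] at hq
    obtain ⟨⟨h1, h2⟩, h3⟩ := hq
    have h4 := Pool.Agent.N218.P21.cs q.1 q.2
    rw [h1, h2] at h4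
    rw [Finset.mem_coe, Finset.mem_filter, Finset.mem_Ioo]
    have h5 : ip q.1 q.2 ^ 2 < B ^ 2 := lt_of_le_of_lt h4 hB
    have h6 := abs_lt_of_sq_lt_sq h5 hB0.le
    rw [abs_lt] at h6
    exact ⟨h6, h3⟩

/-- the pairs with inner product prime to `7` -/
theorem card_n7 {n1 n2 : ℕ} (h1 : 7 ∣ n1) (h1' : ¬ 49 ∣ n1) (h2 : 7 ∣ n2) (h2' : ¬ 49 ∣ n2) :
    24 * (((vec n1 ×ˢ vec n2).filter fun q => ¬ (7 : ℤ) ∣ ip q.1 q.2).card : ℤ) =
      21 * (rr n1 * rr n2) - cc n1 * cc n2 := by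
  have h := s_REL77 n1 n2 h1 h1' h2 h2'
  have h3 := Finset.card_filter_add_card_filter_not (s := vec n1 ×ˢ vec n2)
    (fun q : V3 × V3 => (7 : ℤ) ∣ ip q.1 q.2)
  rw [Finset.card_product] at h3
  have h4 : (cp0 n1 n2 : ℤ) + (((vec n1 ×ˢ vec n2).filter fun q => ¬ (7 : ℤ) ∣ ip q.1 q.2).card : ℤ) =
      rr n1 * rr n2 := by
    unfold rr cp0
    exact_mod_cast h3
  linarith

theorem neg_vec {n : ℤ} {v : V3} (h : v ∈ vec n) : -v ∈ vec n := by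
  rw [mem_vec] at h ⊢
  rw [ip_neg_neg, h]

theorem sq3N {n1 n2 N : ℕ} (hN : n1 * n2 = N ^ 2) {v w : V3} (hv : v ∈ vec n1)
    (hw : w ∈ vec n2) : (3 : ℤ) ∣ ip v w ^ 2 - (N : ℤ) ^ 2 := by
  have h := sq3 v w
  rw [mem_vec.1 hv, mem_vec.1 hw] at h
  have e : (N : ℤ) ^ 2 = n1 * n2 := by exact_mod_cast hN.symm
  rw [e]
  exact h

/-- half of the pairs, `3` not dividing the norms -/
theorem card_half {n1 n2 N : ℕ} (hN : n1 * n2 = N ^ 2) (h3 : ¬ 3 ∣ N) :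
    (((vec n1 ×ˢ vec n2).filter fun q => ¬ (7 : ℤ) ∣ ip q.1 q.2).card : ℤ) =
      2 * (((vec n1 ×ˢ vec n2).filter fun q => ip q.1 q.2 % 3 = (N : ℤ) % 3 ∧
        ¬ (7 : ℤ) ∣ ip q.1 q.2).card : ℤ) := by
  have h1 : ((vec n1 ×ˢ vec n2).filter fun q => ip q.1 q.2 % 3 = (N : ℤ) % 3 ∧
      ¬ (7 : ℤ) ∣ ip q.1 q.2).card = ((vec n1 ×ˢ vec n2).filter fun q =>
        ip q.1 q.2 % 3 = (-(N : ℤ)) % 3 ∧ ¬ (7 : ℤ) ∣ ip q.1 q.2).card := by
    refine Finset.card_nbij' (fun q => (q.1, -q.2)) (fun q => (q.1, -q.2)) ?_ ?_ ?_ ?_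
    · rintro ⟨v, w⟩ h
      rw [Finset.mem_coe, Finset.mem_filter, Finset.mem_product] at h ⊢
      simp only at h ⊢
      rw [ip_neg_right]
      exact ⟨⟨h.1.1, neg_vec h.1.2⟩, by omega, by omega⟩
    · rintro ⟨v, w⟩ h
      rw [Finset.mem_coe, Finset.mem_filter, Finset.mem_product] at h ⊢
      simp only at h ⊢
      rw [ip_neg_right]
      exact ⟨⟨h.1.1, neg_vec h.1.2⟩, by omega, by omega⟩
    · rintro ⟨v, w⟩ _
      simp
    · rintro ⟨v, w⟩ _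
      simp
  have h2 : ((vec n1 ×ˢ vec n2).filter fun q => ¬ (7 : ℤ) ∣ ip q.1 q.2) =
      ((vec n1 ×ˢ vec n2).filter fun q => ip q.1 q.2 % 3 = (N : ℤ) % 3 ∧ ¬ (7 : ℤ) ∣ ip q.1 q.2) ∪
      ((vec n1 ×ˢ vec n2).filter fun q => ip q.1 q.2 % 3 = (-(N : ℤ)) % 3 ∧
        ¬ (7 : ℤ) ∣ ip q.1 q.2) := by
    ext ⟨v, w⟩
    rw [Finset.mem_union, Finset.mem_filter, Finset.mem_filter, Finset.mem_filter,
      Finset.mem_product]
    simp only
    constructor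
    · rintro ⟨⟨hv, hw⟩, h⟩
      have h3 := sq3N hN hv hw
      have e : ip v w ^ 2 - (N : ℤ) ^ 2 = (ip v w - N) * (ip v w + N) := by ring
      rw [e] at h3
      rcases Int.Prime.dvd_mul' (p := 3) (by norm_num) h3 with h4 | h4
      · left
        exact ⟨⟨hv, hw⟩, by push_cast at h4; omega, h⟩
      · right
        exact ⟨⟨hv, hw⟩, by push_cast at h4; omega, h⟩
    · rintro (⟨h1, h2, h3⟩ | ⟨h1, h2, h3⟩)
      · exact ⟨h1, h3⟩
      · exact ⟨h1, h3⟩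
  rw [h2, Finset.card_union_of_disjoint, h1]
  · push_cast
    ring
  · rw [Finset.disjoint_filter]
    rintro ⟨v, w⟩ _ h3 h4
    simp only at h3 h4
    omega

/-- the sum over the inner products and the sum over `T` -/
theorem sum_T {N : ℕ} (h7 : 7 ∣ N) (g : ℤ → ℤ)
    (hg : ∀ b : ℤ, ¬ (7 : ℤ) ∣ b → -(N : ℤ) < b → b < N → ¬ (2 : ℤ) ∣ N - b → g b = 0) :
    ∑ b ∈ (Ioo (-((N : ℤ) + 1)) ((N : ℤ) + 1)).filter
      (fun b : ℤ => b % 3 = (N : ℤ) % 3 ∧ ¬ (7 : ℤ) ∣ b), g b =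
    ∑ T ∈ (range N).filter (fun T => 3 ∣ T ∧ ¬ 7 ∣ T), g ((N : ℤ) - 2 * T) := by
  rw [← Finset.sum_filter_add_sum_filter_not _ (fun b : ℤ => (2 : ℤ) ∣ N - b)]
  have h2 : ∑ b ∈ ((Ioo (-((N : ℤ) + 1)) ((N : ℤ) + 1)).filter
      (fun b : ℤ => b % 3 = (N : ℤ) % 3 ∧ ¬ (7 : ℤ) ∣ b)).filter
      (fun b : ℤ => ¬ (2 : ℤ) ∣ N - b), g b = 0 := by
    refine Finset.sum_eq_zero fun b hb => ?_
    obtain ⟨h6, h7'⟩ := Finset.mem_filter.1 hb
    obtain ⟨h8, h11, h12⟩ := Finset.mem_filter.1 h6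
    obtain ⟨h9, h10⟩ := Finset.mem_Ioo.1 h8
    exact hg b h12 (by omega) (by omega) h7'
  rw [h2, add_zero]
  refine Finset.sum_bij' (fun b _ => (((N : ℤ) - b) / 2).toNat) (fun T _ => (N : ℤ) - 2 * T) ?_ ?_ ?_ ?_ ?_
  · intro b hb
    obtain ⟨h6, h7'⟩ := Finset.mem_filter.1 hb
    obtain ⟨h8, h11, h12⟩ := Finset.mem_filter.1 h6
    obtain ⟨h9, h10⟩ := Finset.mem_Ioo.1 h8
    rw [Finset.mem_filter, Finset.mem_range]
    have hbN : b ≠ -N := by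
      rintro rfl
      omega
    obtain ⟨c, hc⟩ := h7'
    have h14 : ((N : ℤ) - b) / 2 = c := by omega
    rw [h14]
    refine ⟨by omega, ?_, ?_⟩
    · omega
    · omega
  · intro T hT
    rw [Finset.mem_filter, Finset.mem_range] at hT
    obtain ⟨h6, h7', h8⟩ := hT
    rw [Finset.mem_filter, Finset.mem_filter, Finset.mem_Ioo]
    refine ⟨⟨⟨by omega, by omega⟩, by omega, by omega⟩, by omega⟩
  · intro b hb
    obtain ⟨h6, h7'⟩ := Finset.mem_filter.1 hb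
    obtain ⟨h9, h10⟩ := Finset.mem_Ioo.1 (Finset.mem_filter.1 h6).1
    omega
  · intro T hT
    omega
  · intro b hb
    obtain ⟨h6, h7'⟩ := Finset.mem_filter.1 hb
    obtain ⟨h8, h11, h12⟩ := Finset.mem_filter.1 h6
    obtain ⟨h9, h10⟩ := Finset.mem_Ioo.1 h8
    congr 1
    omega

/-- the bilinear identities, `7 ∣ n` -/
theorem BIL_pre {n n2 N : ℕ} (κ : ℤ) (L : ℤ → ℕ → ℤ)
    (hC : ∀ (b : ℤ) (D : ℕ), 0 < D → (D : ℤ) = n * n2 - b ^ 2 → (cp n b n2 : ℤ) = κ * L b D)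
    (hz : ∀ (b : ℤ) (D : ℕ), ¬ (2 : ℤ) ∣ N - b → 0 < D → (D : ℤ) = n * n2 - b ^ 2 → L b D = 0)
    (hN : n * n2 = N ^ 2) (hN7 : 7 ∣ N) :
    κ * ∑ T ∈ (range N).filter (fun T => 3 ∣ T ∧ ¬ 7 ∣ T),
      L ((N : ℤ) - 2 * T) (4 * (N - T) * T) =
      (((vec n ×ˢ vec n2).filter fun q => ip q.1 q.2 % 3 = (N : ℤ) % 3 ∧
        ¬ (7 : ℤ) ∣ ip q.1 q.2).card : ℤ) := by
  have hNN : (n : ℤ) * n2 = (N : ℤ) ^ 2 := by exact_mod_cast hN
  have h1 := fibs (n := (n : ℤ)) (n2 := (n2 : ℤ)) (B := (N : ℤ) + 1) (by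
      rw [hNN]
      have : (0 : ℤ) ≤ N := Int.natCast_nonneg N
      nlinarith) (by omega) (fun b => b % 3 = (N : ℤ) % 3 ∧ ¬ (7 : ℤ) ∣ b)
  rw [← h1, sum_T hN7, Finset.mul_sum]
  · refine Finset.sum_congr rfl fun T hT => ?_
    rw [Finset.mem_filter, Finset.mem_range] at hT
    obtain ⟨h6, h7, h8⟩ := hT
    have hT0 : 0 < T := by
      rcases Nat.eq_zero_or_pos T with rfl | h
      · omega
      · exact h
    have hD : 0 < 4 * (N - T) * T := Nat.mul_pos (by omega) hT0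
    symm
    exact hC _ _ hD (D_T hN h6)
  · intro b h3 hb1 hb2 h2
    obtain ⟨D, hD0, hDD⟩ := D_pos hN hb1 hb2
    rw [hC b D hD0 hDD, hz b D h2 hD0 hDD, mul_zero]

/-- **the bilinear identities**, `7 ∣ n`, `3` not dividing `n` -/
theorem BIL_73 {n n2 N : ℕ} (κ : ℤ) (L : ℤ → ℕ → ℤ)
    (hC : ∀ (b : ℤ) (D : ℕ), 0 < D → (D : ℤ) = n * n2 - b ^ 2 → (cp n b n2 : ℤ) = κ * L b D)
    (hz : ∀ (b : ℤ) (D : ℕ), ¬ (2 : ℤ) ∣ N - b → 0 < D → (D : ℤ) = n * n2 - b ^ 2 → L b D = 0)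
    (hN : n * n2 = N ^ 2) (hN7 : 7 ∣ N) (h3 : ¬ 3 ∣ N) (h1 : 7 ∣ n) (h1' : ¬ 49 ∣ n) (h2 : 7 ∣ n2)
    (h2' : ¬ 49 ∣ n2) :
    48 * (κ * ∑ T ∈ (range N).filter (fun T => 3 ∣ T ∧ ¬ 7 ∣ T),
      L ((N : ℤ) - 2 * T) (4 * (N - T) * T)) = 21 * (rr n * rr n2) - cc n * cc n2 := by
  have e1 := card_half hN h3
  have e2 := card_n7 h1 h1' h2 h2'
  rw [BIL_pre κ L hC hz hN hN7]
  linarith

/-- **the bilinear identities**, `21 ∣ n` -/
theorem BIL_7 {n n2 N : ℕ} (κ : ℤ) (L : ℤ → ℕ → ℤ)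
    (hC : ∀ (b : ℤ) (D : ℕ), 0 < D → (D : ℤ) = n * n2 - b ^ 2 → (cp n b n2 : ℤ) = κ * L b D)
    (hz : ∀ (b : ℤ) (D : ℕ), ¬ (2 : ℤ) ∣ N - b → 0 < D → (D : ℤ) = n * n2 - b ^ 2 → L b D = 0)
    (hN : n * n2 = N ^ 2) (hN7 : 7 ∣ N) (h3 : 3 ∣ N) (h1 : 7 ∣ n) (h1' : ¬ 49 ∣ n) (h2 : 7 ∣ n2)
    (h2' : ¬ 49 ∣ n2) :
    24 * (κ * ∑ T ∈ (range N).filter (fun T => 3 ∣ T ∧ ¬ 7 ∣ T),
      L ((N : ℤ) - 2 * T) (4 * (N - T) * T)) = 21 * (rr n * rr n2) - cc n * cc n2 := by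
  have e2 := card_n7 h1 h1' h2 h2'
  have e3 : ((vec n ×ˢ vec n2).filter fun q => ip q.1 q.2 % 3 = (N : ℤ) % 3 ∧
        ¬ (7 : ℤ) ∣ ip q.1 q.2) = ((vec n ×ˢ vec n2).filter fun q => ¬ (7 : ℤ) ∣ ip q.1 q.2) := by
    ext ⟨v, w⟩
    rw [Finset.mem_filter, Finset.mem_filter, Finset.mem_product]
    simp only
    constructor
    · exact fun h => ⟨h.1, h.2.2⟩
    · rintro ⟨⟨hv, hw⟩, h⟩
      have h3' := sq3N hN hv hw
      have h4 : (3 : ℤ) ∣ (N : ℤ) := by exact_mod_cast h3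
      have h6 : (3 : ℤ) ∣ ip v w ^ 2 := by
        have := dvd_add h3' (Dvd.dvd.mul_left h4 (N : ℤ))
        have e : ip v w ^ 2 - (N : ℤ) ^ 2 + (N : ℤ) * N = ip v w ^ 2 := by ring
        rwa [e] at this
      have h7 : (3 : ℤ) ∣ ip v w := Int.Prime.dvd_pow' (by norm_num) h6
      exact ⟨⟨hv, hw⟩, by omega, h⟩
  rw [BIL_pre κ L hC hz hN hN7, e3]
  linarith

theorem dvdX {T a' : ℕ} (h : a' ∣ T) (h3 : 7 ∣ T) (ha' : ¬ 7 ∣ a') : 7 ∣ T / a' := by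
  obtain ⟨k, rfl⟩ := h
  rcases Nat.eq_zero_or_pos a' with rfl | hp
  · simp at ha'
  · rw [Nat.mul_div_cancel_left _ hp]
    exact ((Nat.Prime.dvd_mul (by norm_num)).1 h3).resolve_left ha'

theorem psp7_zero {a a' Y X : ℕ} (ha : ¬ 7 ∣ a) (hX : 7 ∣ X) : psp 7 a a' Y X = 0 := by
  unfold psp
  rw [if_neg (fun h => ha h.1)]
  obtain ⟨k, rfl⟩ := hX
  have : (-((a * (7 * k) : ℕ) : ℤ)) % ((7 : ℕ) : ℤ) = 0 := by
    push_cast
    have e : -((a : ℤ) * (7 * k)) = 7 * (-(a * k)) := by ring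
    rw [e, Int.mul_emod_right]
  rw [jacobiSym.mod_left, this]
  norm_num

theorem WWA_zero {n S T : ℕ} (hn : n ≠ 0) (h3 : 7 ∣ n) (hT : 7 ∣ T) : WWA n S T = 0 := by
  unfold WWA
  refine Finset.sum_eq_zero fun a ha => Finset.sum_eq_zero fun a' ha' => ?_
  rw [Finset.mem_filter] at ha ha'
  refine Finset.prod_eq_zero (i := 7) (Nat.mem_primeFactors.2 ⟨by norm_num, h3, hn⟩) ?_
  exact psp7_zero ha.2 (dvdX (Nat.dvd_of_mem_divisors ha'.1) hT ha'.2.2)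

theorem WWAe_zero {n S T : ℕ} (hn : n ≠ 0) (h3 : 7 ∣ n) (hT : 7 ∣ T) : WWAe n S T = 0 := by
  unfold WWAe
  refine Finset.sum_eq_zero fun a ha => Finset.sum_eq_zero fun a' ha' => ?_
  rw [Finset.mem_filter] at ha ha'
  have h := Finset.prod_eq_zero (s := n.primeFactors.erase 2)
    (f := fun p => psp p a a' (S / a) (T / a')) (i := 7) (Finset.mem_erase.2 ⟨by norm_num,
    Nat.mem_primeFactors.2 ⟨by norm_num, h3, hn⟩⟩) (psp7_zero ha.2
      (dvdX (Nat.dvd_of_mem_divisors ha'.1) hT ha'.2.2))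
  rw [h, mul_zero]

/-- the sums over `T`, `7 ∣ n` -/
theorem sum_n7 {N : ℕ} (W : ℕ → ℤ) (hW : ∀ T, 7 ∣ T → W T = 0) :
    ∑ T ∈ (range N).filter (fun T => 3 ∣ T), W T =
      ∑ T ∈ (range N).filter (fun T => 3 ∣ T ∧ ¬ 7 ∣ T), W T := by
  symm
  refine Finset.sum_subset ?_ ?_
  · intro T hT
    rw [Finset.mem_filter] at hT ⊢
    exact ⟨hT.1, hT.2.1⟩
  · intro T hT hT'
    rw [Finset.mem_filter] at hT hT'
    apply hW
    by_contra h
    exact hT' ⟨hT.1, hT.2, h⟩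

theorem n49 {n : ℕ} (hs : Squarefree n) : ¬ 49 ∣ n := by
  intro h
  have := hs 7 (by exact h)
  rw [Nat.isUnit_iff] at this
  omega

theorem n49' {m : ℕ} (hs : Squarefree m) (k : ℕ) (hk : k = 4 ∨ k = 16) : ¬ 49 ∣ k * m := by
  have := n49 hs
  rcases hk with rfl | rfl <;> omega

/-- **DIAG7** -/
theorem t_DIAG7 (h1b : S_C1B) (h2a : S_C27A) (h2b : S_C27B) (hPC : S_PC) (hHE : S_HE7) :
    S_DIAG7 := by
  intro n hn
  obtain ⟨hs, h4, h7, h3⟩ := id hn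
  have hn0 : n ≠ 0 := hs.ne_zero
  have h49 := n49 hs
  have h3n : ¬ 3 ∣ n := by omega
  have k1 := BIL_73 (n2 := n) (N := n) 12 (fun _ D => loc n D)
    (fun b D hD hDD => hPC n n b D hs h4 h3n hD hDD)
    (fun b D hb _ hDD => loc_odd n D (odd_D (sq n).symm b D hb hDD)) (sq n).symm h7 h3n h7 h49
    h7 h49
  have k2 := BIL_73 (n2 := 4 * n) (N := 2 * n) 12 (fun _ D => loc n D)
    (fun b D hD hDD => hPC n (4 * n) b D hs h4 h3n hD hDD)
    (fun b D hb _ hDD => loc_odd n D (odd_D (N := 2 * n) (by ring) b D hb hDD)) (by ring)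
    (by omega) (by omega) h7 h49 (by omega) (by omega)
  have h0 := hHE n h4 h7 h49
  have k5 := cc47 h7 h0
  rw [cast4, h0.1, k5] at k2
  have w1 : WXA (fun u => jacobiSym u n) n n =
      -∑ T ∈ (range n).filter (fun T => 3 ∣ T ∧ ¬ 7 ∣ T), loc n (4 * (n - T) * T) := by
    rw [WXA_odd h1b hs h4 (Or.inl rfl), sum_n7 _ (fun T hT => WWA_zero hn0 h7 hT),
      ← Finset.sum_neg_distrib]
    refine Finset.sum_congr rfl fun T hT => ?_
    rw [mem_filter, mem_range] at hT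
    exact h2a n hn T (Nat.pos_of_ne_zero (by rintro rfl; omega)) hT.1 hT.2.1 hT.2.2
  have w2 : WXA (fun u => jacobiSym u n) n (2 * n) =
      -(∑ T ∈ (range (2 * n)).filter (fun T => 3 ∣ T ∧ ¬ 7 ∣ T), loc n (4 * (2 * n - T) * T) +
        ep2 n * ∑ T ∈ (range n).filter (fun T => 3 ∣ T ∧ ¬ 7 ∣ T), loc n (4 * (n - T) * T)) := by
    rw [WXA_odd h1b hs h4 (Or.inr rfl), sum_n7 _ (fun T hT => WWA_zero hn0 h7 hT),
      ← sum_dbl (n := n) (fun _ T => 3 ∣ T ∧ ¬ 7 ∣ T) (by intro T; constructor <;> omega),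
      ← Finset.sum_add_distrib, ← Finset.sum_neg_distrib]
    refine Finset.sum_congr rfl fun T hT => ?_
    rw [mem_filter, mem_range] at hT
    exact h2b n hn T (Nat.pos_of_ne_zero (by rintro rfl; omega)) hT.1 hT.2.1 hT.2.2
  rw [CA.t_C1AA n (by omega) (fun u => jacobiSym u n) (fun u => jac_odd h4 u), w1, w2]
  generalize (∑ T ∈ (range n).filter (fun T => 3 ∣ T ∧ ¬ 7 ∣ T), loc n (4 * (n - T) * T)) = S1
    at k1 ⊢
  generalize (∑ T ∈ (range (2 * n)).filter (fun T => 3 ∣ T ∧ ¬ 7 ∣ T),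
    loc n (4 * (2 * n - T) * T)) = S2 at k2 ⊢
  have k7 : 4 * (72 * (2 * (-(S2 + ep2 n * S1) - 3 * -S1))) = 4 * -cc n ^ 2 := by
    linear_combination (3 - ep2 n) * k1 - k2
  linarith

/-- the sum over the cusps for even `n`, `7 ∣ n` -/
theorem WXA_e7 (h1b : S_C1BE) {m : ℕ} (hev : Ev (4 * m)) (h7 : 7 ∣ 4 * m) (L : ℤ → ℕ → ℤ) (κ : ℤ)
    (hL : ∀ N : ℕ, (N = 4 * m ∨ N = 2 * (4 * m)) → ∀ T : ℕ, 0 < T → T < N → 3 ∣ T → ¬ 7 ∣ T →
      κ * WWAe (4 * m) (N - T) T = - L ((T : ℤ) - ((N - T : ℕ) : ℤ)) (4 * (N - T) * T))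
    (hs : ∀ (N T D : ℕ), T < N → L ((T : ℤ) - ((N - T : ℕ) : ℤ)) D = L ((N : ℤ) - 2 * T) D)
    (hm : 4 * m ≠ 0) (N : ℕ) (hN : N = 4 * m ∨ N = 2 * (4 * m)) :
    κ * WXA (chE (4 * m)) (4 * m) N = -∑ T ∈ (range N).filter (fun T => 3 ∣ T ∧ ¬ 7 ∣ T),
        L ((N : ℤ) - 2 * T) (4 * (N - T) * T) := by
  rw [WXA_even h1b hev hN, sum_n7 _ (fun T hT => WWAe_zero hm h7 hT), ← Finset.sum_neg_distrib,
    Finset.mul_sum]
  refine Finset.sum_congr rfl fun T hT => ?_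
  rw [mem_filter, mem_range] at hT
  rw [hL N hN T (Nat.pos_of_ne_zero (by rintro rfl; omega)) hT.1 hT.2.1 hT.2.2, hs N T _ hT.1]

theorem locE_odd (n : ℕ) {b : ℤ} (D : ℕ) (h : ¬ (2 : ℤ) ∣ b) : locE n b D = 0 := by
  unfold locE
  rw [tb_odd h]
  simp

/-- **DIAG7E** -/
theorem t_DIAG7E (h1b : S_C1BE) (h2 : S_C27E) (hPC : S_PCE) (hHE : S_HE7E) : S_DIAG7E := by
  intro n hn
  obtain ⟨hev, h7, h3⟩ := id hn
  obtain ⟨m, rfl, hs, hm⟩ := id hev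
  have hm0 := hs.ne_zero
  have h7m : 7 ∣ m := by omega
  have h49m := n49 hs
  have h49 : ¬ 49 ∣ 4 * m := by omega
  have h3n : ¬ 3 ∣ 4 * m := by omega
  have k1 := BIL_73 (n2 := 4 * m) (N := 4 * m) 12 (locE (4 * m))
    (fun b D hD hDD => hPC (4 * m) (4 * m) b D hev h3 (dvd_mul_right 4 m) hD hDD)
    (fun b D hb _ hDD => locE_odd _ D (by push_cast at hb; omega)) (sq (4 * m)).symm h7 h3n h7 h49
    h7 h49
  have k2 := BIL_73 (n2 := 4 * (4 * m)) (N := 2 * (4 * m)) 12 (locE (4 * m))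
    (fun b D hD hDD => hPC (4 * m) (4 * (4 * m)) b D hev h3 (dvd_mul_right 4 _) hD hDD)
    (fun b D hb _ hDD => locE_odd _ D (by push_cast at hb; omega)) (by ring)
    (by omega) (by omega) h7 h49 (by omega) (by omega)
  obtain ⟨e1, e2⟩ := hHE m hm h7m h49m
  have k5 : cc (16 * m) = -cc (4 * m) := by
    have := cc47 (n := 4 * m) (e := 0) h7 (by
      rw [cast4, show 4 * (4 * (m : ℤ)) = 16 * m by ring, e1, e2]
      constructor <;> ring)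
    rw [cast4, show 4 * (4 * (m : ℤ)) = 16 * m by ring] at this
    rw [this]
    ring
  rw [cast4 (4 * m), cast4 m, show 4 * (4 * (m : ℤ)) = 16 * m by ring, e1, k5] at k2
  rw [cast4] at k1
  have w := WXA_e7 h1b hev h7 (locE (4 * m)) 1 (by
    intro N hN T hT0 hT h3 h7
    rw [one_mul]
    exact h2 (4 * m) hn N hN T hT0 hT h3 h7) (by
    intro N T D hT
    unfold locE
    rw [tb_T hT]) (by omega)
  have w1 := w _ (Or.inl rfl)
  have w2 := w _ (Or.inr rfl)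
  rw [one_mul] at w1 w2
  rw [CA.t_C1AA (4 * m) (by omega) (chE (4 * m)) (fun u => chE_odd hev u), w1, w2, cast4]
  have e8 : ((2 * (4 * m) : ℕ) : ℤ) = 2 * (4 * (m : ℤ)) := by push_cast; ring
  rw [e8] at k2 ⊢
  generalize (∑ T ∈ (range (4 * m)).filter (fun T => 3 ∣ T ∧ ¬ 7 ∣ T),
    locE (4 * m) (4 * (m : ℤ) - 2 * T) (4 * (4 * m - T) * T)) = S1 at k1 ⊢
  generalize (∑ T ∈ (range (2 * (4 * m))).filter (fun T => 3 ∣ T ∧ ¬ 7 ∣ T),
    locE (4 * m) (2 * (4 * (m : ℤ)) - 2 * T) (4 * (2 * (4 * m) - T) * T)) = S2 at k2 ⊢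
  have k7 : 4 * (72 * (2 * (-S2 - 3 * -S1))) = 4 * -cc (4 * m) ^ 2 := by
    linear_combination 3 * k1 - k2
  linarith

end Pool.Agent.N973.P21
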