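import Pool.Agent.N973.P21.DIAG

/-!
# P21: the assembly of the diagonal identities for `3 ∣ n`
-/

set_option autoImplicit false

namespace Pool.Agent.N973.P21

open Finset
open Pool.Agent.N969.P15 (V3 Ev tw tb ep2 psp psp2 un chE S_C1B S_C1BE)
open Pool.Agent.N973.P15.C (jac_odd chE_odd)
open Pool.Agent.N877.P21
open Pool.Agent.N218.P21
open Pool.Agent.Z700 (hh fac)

theorem erase7 {D : ℕ} (h : ¬ 7 ∣ D) : ((D.primeFactors.erase 2).erase 3).erase 7 =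
    (D.primeFactors.erase 2).erase 3 := by
  refine Finset.erase_eq_of_notMem fun h3 => h ?_
  exact Nat.dvd_of_mem_primeFactors (Finset.mem_of_mem_erase (Finset.mem_of_mem_erase h3))

theorem lc3_eq (n : ℕ) {D : ℕ} (h : ¬ 7 ∣ D) : lc3 n D = loc3 n D := by
  unfold lc3 loc3
  rw [erase7 h]

theorem lc3E_eq (n : ℕ) (b : ℤ) {D : ℕ} (h : ¬ 7 ∣ D) : lc3E n b D = loc3E n b D := by
  unfold lc3E loc3E
  rw [erase7 h]

theorem loc3_odd (n D : ℕ) (h : ¬ 2 ∣ D) : loc3 n D = 0 := by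
  unfold loc3 tw
  rw [Nat.factorization_eq_zero_of_not_dvd h]
  simp

theorem loc3E_odd (n : ℕ) {b : ℤ} (D : ℕ) (h : ¬ (2 : ℤ) ∣ b) : loc3E n b D = 0 := by
  unfold loc3E
  rw [tb_odd h]
  simp

theorem lc3_odd (n D : ℕ) (h : ¬ 2 ∣ D) : lc3 n D = 0 := by
  unfold lc3 tw
  rw [Nat.factorization_eq_zero_of_not_dvd h]
  simp

theorem lc3E_odd (n : ℕ) {b : ℤ} (D : ℕ) (h : ¬ (2 : ℤ) ∣ b) : lc3E n b D = 0 := by
  unfold lc3E
  rw [tb_odd h]
  simp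

theorem n7_D {N T : ℕ} (h3 : 7 ∣ N) (hT : T < N) (h : ¬ 7 ∣ T) (k : ℕ) (hk : ¬ 7 ∣ k) :
    ¬ 7 ∣ k * (N - T) * T := by
  intro h1
  rcases (Nat.Prime.dvd_mul (by norm_num)).1 h1 with h1 | h1
  · rcases (Nat.Prime.dvd_mul (by norm_num)).1 h1 with h1 | h1
    · exact hk h1
    · omega
  · exact h h1

/-- **DIAG21** -/
theorem t_DIAG21 (h1b : S_C1B) (h2a : S_C23A) (h2b : S_C23B) (hPC : S_PC3) (hHE : S_HE7) :
    S_DIAG21 := by
  intro n hn
  obtain ⟨hs, h4, h7, h3⟩ := id hn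
  have hn0 : n ≠ 0 := hs.ne_zero
  have h49 := n49 hs
  have k1 := BIL_7 (n2 := n) (N := n) 6 (fun _ D => loc3 n D)
    (fun b D hD hDD => hPC n n b D hs h4 h3 hD hDD)
    (fun b D hb _ hDD => loc3_odd n D (odd_D (sq n).symm b D hb hDD)) (sq n).symm h7 h3 h7 h49
    h7 h49
  have k2 := BIL_7 (n2 := 4 * n) (N := 2 * n) 6 (fun _ D => loc3 n D)
    (fun b D hD hDD => hPC n (4 * n) b D hs h4 h3 hD hDD)
    (fun b D hb _ hDD => loc3_odd n D (odd_D (N := 2 * n) (by ring) b D hb hDD)) (by ring)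
    (by omega) (by omega) h7 h49 (by omega) (by omega)
  have h0 := hHE n h4 h7 h49
  have k5 := cc47 h7 h0
  rw [cast4, h0.1, k5] at k2
  have w1 : 2 * WXA (fun u => jacobiSym u n) n n =
      -∑ T ∈ (range n).filter (fun T => 3 ∣ T ∧ ¬ 7 ∣ T), loc3 n (4 * (n - T) * T) := by
    rw [WXA_odd h1b hs h4 (Or.inl rfl), sum_n7 _ (fun T hT => WWA_zero hn0 h7 hT),
      ← Finset.sum_neg_distrib, Finset.mul_sum]
    refine Finset.sum_congr rfl fun T hT => ?_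
    rw [mem_filter, mem_range] at hT
    rw [h2a n (Or.inl hn) T (Nat.pos_of_ne_zero (by rintro rfl; omega)) hT.1 hT.2.1
      (fun _ => hT.2.2), lc3_eq n (n7_D h7 hT.1 hT.2.2 4 (by norm_num))]
  have w2 : 2 * WXA (fun u => jacobiSym u n) n (2 * n) =
      -(∑ T ∈ (range (2 * n)).filter (fun T => 3 ∣ T ∧ ¬ 7 ∣ T), loc3 n (4 * (2 * n - T) * T) +
        ep2 n * ∑ T ∈ (range n).filter (fun T => 3 ∣ T ∧ ¬ 7 ∣ T), loc3 n (4 * (n - T) * T)) := by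
    rw [WXA_odd h1b hs h4 (Or.inr rfl), sum_n7 _ (fun T hT => WWA_zero hn0 h7 hT),
      ← sum_dbl (n := n) (fun _ T => 3 ∣ T ∧ ¬ 7 ∣ T) (by intro T; constructor <;> omega),
      ← Finset.sum_add_distrib, ← Finset.sum_neg_distrib, Finset.mul_sum]
    refine Finset.sum_congr rfl fun T hT => ?_
    rw [mem_filter, mem_range] at hT
    have hD := n7_D (show 7 ∣ 2 * n by omega) hT.1 hT.2.2 1 (by norm_num)
    rw [one_mul] at hD
    rw [h2b n (Or.inl hn) T (Nat.pos_of_ne_zero (by rintro rfl; omega)) hT.1 hT.2.1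
      (fun _ => hT.2.2), lc3_eq n (n7_D (by omega) hT.1 hT.2.2 4 (by norm_num)), lc3_eq n hD]
  rw [CA.t_C1AA n (by omega) (fun u => jacobiSym u n) (fun u => jac_odd h4 u)]
  generalize (∑ T ∈ (range n).filter (fun T => 3 ∣ T ∧ ¬ 7 ∣ T), loc3 n (4 * (n - T) * T)) = S1
    at k1 w1 w2
  generalize (∑ T ∈ (range (2 * n)).filter (fun T => 3 ∣ T ∧ ¬ 7 ∣ T),
    loc3 n (4 * (2 * n - T) * T)) = S2 at k2 w2
  generalize WXA (fun u => jacobiSym u n) n n = W1 at w1 ⊢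
  generalize WXA (fun u => jacobiSym u n) n (2 * n) = W2 at w2 ⊢
  have k7 : 4 * (36 * (2 * (W2 - 3 * W1))) = 4 * -cc n ^ 2 := by
    linear_combination (3 - ep2 n) * k1 - k2 + 144 * w2 - 432 * w1
  linarith

/-- **DIAG21E** -/
theorem t_DIAG21E (h1b : S_C1BE) (h2 : S_C23E) (hPC : S_PC3E) (hHE : S_HE7E) : S_DIAG21E := by
  intro n hn
  obtain ⟨hev, h7, h3⟩ := id hn
  obtain ⟨m, rfl, hs, hm⟩ := id hev
  have hm0 := hs.ne_zero
  have h7m : 7 ∣ m := by omega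
  have h49m := n49 hs
  have h49 : ¬ 49 ∣ 4 * m := by omega
  have k1 := BIL_7 (n2 := 4 * m) (N := 4 * m) 6 (loc3E (4 * m))
    (fun b D hD hDD => hPC (4 * m) (4 * m) b D hev h3 (dvd_mul_right 4 m) hD hDD)
    (fun b D hb _ hDD => loc3E_odd _ D (by push_cast at hb; omega)) (sq (4 * m)).symm h7 h3 h7 h49
    h7 h49
  have k2 := BIL_7 (n2 := 4 * (4 * m)) (N := 2 * (4 * m)) 6 (loc3E (4 * m))
    (fun b D hD hDD => hPC (4 * m) (4 * (4 * m)) b D hev h3 (dvd_mul_right 4 _) hD hDD)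
    (fun b D hb _ hDD => loc3E_odd _ D (by push_cast at hb; omega)) (by ring)
    (by omega) (by omega) h7 h49 (by omega) (by omega)
  obtain ⟨e1, e2⟩ := hHE m hm h7m h49m
  have k5 : cc (16 * m) = -cc (4 * m) := by
    have := cc47 (n := 4 * m) (e := 0) h7 (by
      rw [cast4, show 4 * (4 * (m : ℤ)) = 16 * m by ring, e1, e2]
      constructor <;> ring)
    rw [cast4, show 4 * (4 * (m : ℤ)) = 16 * m by ring] at this
    rw [this]
    ring
  rw [cast4 (4 * m), cast4 m, show 4 * (4 * (m : ℤ)) = 16 * m by ring, e1, k5] at k2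
  rw [cast4] at k1
  have w := WXA_e7 h1b hev h7 (loc3E (4 * m)) 2 (by
    intro N hN T hT0 hT h3 h7'
    rw [h2 (4 * m) (Or.inl hn) N hN T hT0 hT h3 (fun _ => h7'),
      lc3E_eq _ _ (n7_D (by omega) hT h7' 4 (by norm_num))]) (by
    intro N T D hT
    unfold loc3E
    rw [tb_T hT]) (by omega)
  have w1 := w _ (Or.inl rfl)
  have w2 := w _ (Or.inr rfl)
  rw [CA.t_C1AA (4 * m) (by omega) (chE (4 * m)) (fun u => chE_odd hev u)]
  have e8 : ((2 * (4 * m) : ℕ) : ℤ) = 2 * (4 * (m : ℤ)) := by push_cast; ring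
  rw [cast4] at w1
  rw [e8] at k2 w2
  rw [cast4]
  generalize (∑ T ∈ (range (4 * m)).filter (fun T => 3 ∣ T ∧ ¬ 7 ∣ T),
    loc3E (4 * m) (4 * (m : ℤ) - 2 * T) (4 * (4 * m - T) * T)) = S1 at k1 w1
  generalize (∑ T ∈ (range (2 * (4 * m))).filter (fun T => 3 ∣ T ∧ ¬ 7 ∣ T),
    loc3E (4 * m) (2 * (4 * (m : ℤ)) - 2 * T) (4 * (2 * (4 * m) - T) * T)) = S2 at k2 w2
  generalize WXA (chE (4 * m)) (4 * m) (4 * m) = W1 at w1 ⊢
  generalize WXA (chE (4 * m)) (4 * m) (2 * (4 * m)) = W2 at w2 ⊢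
  have k7 : 4 * (36 * (2 * (W2 - 3 * W1))) = 4 * -cc (4 * m) ^ 2 := by
    linear_combination 3 * k1 - k2 + 144 * w2 - 432 * w1
  linarith

/-! ### `3 ∣ n`, `7` split -/

theorem ip_zero {x : V3} (h : ip x x = 0) (i : Fin 3) : x i = 0 := by
  have h0 := sq_le_ip x i
  rw [h] at h0
  exact pow_eq_zero_iff (two_ne_zero) |>.1 (le_antisymm h0 (sq_nonneg _))

theorem ip_comb (a b : ℤ) (v w : V3) : ip (fun i => a * v i - b * w i) (fun i => a * v i - b * w i) =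
    a ^ 2 * ip v v - 2 * (a * b) * ip v w + b ^ 2 * ip w w := by
  unfold ip
  ring

/-- the terms of discriminant zero cancel -/
theorem cp_D0 {n1 n2 : ℕ} {b : ℤ} (hb : b ^ 2 = n1 * n2) :
    (cp n1 b n2 : ℤ) - cp7 n1 b n2 = 0 := by
  have e : cp7 n1 b n2 = cp n1 b n2 := by
    unfold cp7 cp
    congr 1
    refine Finset.filter_congr ?_
    rintro ⟨v, w⟩ hq
    rw [Finset.mem_product, mem_vec, mem_vec] at hq
    obtain ⟨hv, hw⟩ := hq
    simp only at hv hw ⊢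
    constructor
    · exact fun h => h.1
    · intro h
      refine ⟨h, fun i => ?_⟩
      have h0 : ip (fun i => (n2 : ℤ) * v i - b * w i) (fun i => (n2 : ℤ) * v i - b * w i) = 0 := by
        rw [ip_comb, hv, hw, h]
        linear_combination (-(n2 : ℤ)) * hb
      have h3 : (n2 : ℤ) * v i - b * w i = 0 := ip_zero h0 i
      rw [h3]
      exact dvd_zero 7
  rw [e, sub_self]

/-- the sum over the inner products and the sum over `T` -/
theorem sum_T3 {N : ℕ} (h3 : 3 ∣ N) (g : ℤ → ℤ)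
    (hg : ∀ b : ℤ, -(N : ℤ) < b → b < N → (¬ (2 : ℤ) ∣ N - b ∨ ¬ (3 : ℤ) ∣ b) → g b = 0) :
    ∑ b ∈ Ioo (-(N : ℤ)) (N : ℤ), g b =
    ∑ T ∈ (range N).filter (fun T => 0 < T ∧ 3 ∣ T), g ((N : ℤ) - 2 * T) := by
  rw [← Finset.sum_filter_add_sum_filter_not _ (fun b : ℤ => (2 : ℤ) ∣ N - b ∧ (3 : ℤ) ∣ b)]
  have h2 : ∑ b ∈ (Ioo (-(N : ℤ)) (N : ℤ)).filter
      (fun b : ℤ => ¬ ((2 : ℤ) ∣ N - b ∧ (3 : ℤ) ∣ b)), g b = 0 := by
    refine Finset.sum_eq_zero fun b hb => ?_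
    obtain ⟨h6, h7⟩ := Finset.mem_filter.1 hb
    obtain ⟨h9, h10⟩ := Finset.mem_Ioo.1 h6
    refine hg b h9 h10 ?_
    by_cases h : (2 : ℤ) ∣ N - b
    · exact Or.inr fun h' => h7 ⟨h, h'⟩
    · exact Or.inl h
  rw [h2, add_zero]
  refine Finset.sum_bij' (fun b _ => (((N : ℤ) - b) / 2).toNat) (fun T _ => (N : ℤ) - 2 * T) ?_ ?_ ?_ ?_ ?_
  · intro b hb
    obtain ⟨h6, h7, h8⟩ := Finset.mem_filter.1 hb
    obtain ⟨h9, h10⟩ := Finset.mem_Ioo.1 h6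
    rw [Finset.mem_filter, Finset.mem_range]
    obtain ⟨c, hc⟩ := h7
    have h14 : ((N : ℤ) - b) / 2 = c := by omega
    rw [h14]
    refine ⟨by omega, by omega, ?_⟩
    omega
  · intro T hT
    rw [Finset.mem_filter, Finset.mem_range] at hT
    obtain ⟨h6, h7, h8⟩ := hT
    rw [Finset.mem_filter, Finset.mem_Ioo]
    exact ⟨⟨by omega, by omega⟩, by omega, by omega⟩
  · intro b hb
    obtain ⟨h6, h7, h8⟩ := Finset.mem_filter.1 hb
    obtain ⟨h9, h10⟩ := Finset.mem_Ioo.1 h6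
    omega
  · intro T hT
    omega
  · intro b hb
    obtain ⟨h6, h7, h8⟩ := Finset.mem_filter.1 hb
    obtain ⟨h9, h10⟩ := Finset.mem_Ioo.1 h6
    congr 1
    omega

/-- the sum over all inner products -/
theorem sum_all {n1 n2 N : ℕ} (h1 : Sp7 n1) (h2 : Sp7 n2) (h3 : 3 ∣ n1) (h3' : 3 ∣ n2)
    (hN : n1 * n2 = N ^ 2) (hN7 : ¬ 7 ∣ N) {B : ℤ} (hB : (n1 : ℤ) * n2 < B ^ 2) (hB0 : 0 < B) :
    6 * ∑ b ∈ Ioo (-B) B, (if (7 : ℤ) ∣ (N : ℤ) ^ 2 - b ^ 2 then (cp n1 b n2 : ℤ) - cp7 n1 b n2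
      else 2 * (cp n1 b n2 : ℤ)) = 9 * (rr n1 * rr n2) - cc n1 * cc n2 := by
  have hNN : (n1 : ℤ) * n2 = (N : ℤ) ^ 2 := by exact_mod_cast hN
  have e0 : ∑ b ∈ Ioo (-B) B, (cp n1 b n2 : ℤ) = rr n1 * rr n2 := by
    have h := fibs hB hB0 (fun _ => True)
    rw [Finset.filter_true, Finset.filter_true] at h
    rw [h, Finset.card_product]
    unfold rr
    push_cast
    ring
  have e1 := t_REL3 n1 n2 h1 h2 h3 h3' ((N : ℤ) % 7) (by omega) (by omega) (by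
      rw [hNN]
      have e : ((N : ℤ) % 7) ^ 2 - (N : ℤ) ^ 2 = ((N : ℤ) % 7 - N) * ((N : ℤ) % 7 + N) := by ring
      rw [e]
      exact Dvd.dvd.mul_right (by omega) _) B hB hB0
  have e2 := t_REL3 n1 n2 h1 h2 h3 h3' ((-(N : ℤ)) % 7) (by omega) (by omega) (by
      rw [hNN]
      have e : ((-(N : ℤ)) % 7) ^ 2 - (N : ℤ) ^ 2 =
        ((-(N : ℤ)) % 7 - (-N)) * ((-(N : ℤ)) % 7 + (-N)) := by ring
      rw [e]
      exact Dvd.dvd.mul_right (by omega) _) B hB hB0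
  rw [Finset.sum_filter] at e1 e2
  have e3 : ∑ b ∈ Ioo (-B) B, (if (7 : ℤ) ∣ (N : ℤ) ^ 2 - b ^ 2 then (cp n1 b n2 : ℤ) - cp7 n1 b n2
      else 2 * (cp n1 b n2 : ℤ)) = 2 * ∑ b ∈ Ioo (-B) B, (cp n1 b n2 : ℤ) -
      ∑ b ∈ Ioo (-B) B, (if b % 7 = (N : ℤ) % 7 then ((cp n1 b n2 : ℤ) + cp7 n1 b n2) else 0) -
      ∑ b ∈ Ioo (-B) B, (if b % 7 = (-(N : ℤ)) % 7 then ((cp n1 b n2 : ℤ) + cp7 n1 b n2) else 0) := by
    rw [Finset.mul_sum, ← Finset.sum_sub_distrib, ← Finset.sum_sub_distrib]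
    refine Finset.sum_congr rfl fun b _ => ?_
    have e : (N : ℤ) ^ 2 - b ^ 2 = (N - b) * (N + b) := by ring
    rw [e]
    by_cases ha : b % 7 = (N : ℤ) % 7
    · rw [if_pos (Dvd.dvd.mul_right (by omega) _), if_pos ha, if_neg (by omega)]
      ring
    · by_cases hb : b % 7 = (-(N : ℤ)) % 7
      · rw [if_pos (Dvd.dvd.mul_left (by omega) _), if_neg ha, if_pos hb]
        ring
      · rw [if_neg, if_neg ha, if_neg hb]
        · ring
        · intro h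
          rcases Int.Prime.dvd_mul' (p := 7) (by norm_num) h with h | h
          · push_cast at h; omega
          · push_cast at h; omega
  rw [e3, e0]
  linarith

theorem sum_Ioo {N : ℕ} (h : ℤ → ℤ) (h1 : h N = 0) (h2 : h (-N) = 0) :
    ∑ b ∈ Ioo (-((N : ℤ) + 1)) ((N : ℤ) + 1), h b = ∑ b ∈ Ioo (-(N : ℤ)) (N : ℤ), h b := by
  symm
  refine Finset.sum_subset ?_ ?_
  · intro b hb
    rw [Finset.mem_Ioo] at hb ⊢
    omega
  · intro b hb hb'
    rw [Finset.mem_Ioo] at hb hb'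
    have : b = N ∨ b = -N := by omega
    rcases this with rfl | rfl
    · exact h1
    · exact h2

/-- **the bilinear identities**, `3 ∣ n`, `7` split -/
theorem BIL_3 {n n2 N : ℕ} (L : ℤ → ℕ → ℤ)
    (hC : ∀ (b : ℤ) (D : ℕ), 0 < D → 7 ∣ D → (D : ℤ) = n * n2 - b ^ 2 →
      (cp n b n2 : ℤ) - cp7 n b n2 = 12 * L b D)
    (hC' : ∀ (b : ℤ) (D : ℕ), 0 < D → ¬ 7 ∣ D → (D : ℤ) = n * n2 - b ^ 2 →
      (cp n b n2 : ℤ) = 6 * L b D)
    (hz : ∀ (b : ℤ) (D : ℕ), ¬ (2 : ℤ) ∣ N - b → 0 < D → (D : ℤ) = n * n2 - b ^ 2 → L b D = 0)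
    (hz3 : ∀ (b : ℤ) (D : ℕ), ¬ 3 ∣ D → L b D = 0)
    (hN : n * n2 = N ^ 2) (hN3 : 3 ∣ N) (h1 : Sp7 n) (h2 : Sp7 n2)
    (h3 : 3 ∣ n) (h3' : 3 ∣ n2) :
    72 * ∑ T ∈ (range N).filter (fun T => 0 < T ∧ 3 ∣ T), L ((N : ℤ) - 2 * T) (4 * (N - T) * T) =
      9 * (rr n * rr n2) - cc n * cc n2 := by
  have hNN : (n : ℤ) * n2 = (N : ℤ) ^ 2 := by exact_mod_cast hN
  have hN7 : ¬ 7 ∣ N := by
    intro h
    have h3 : 7 ∣ n * n2 := by
      rw [hN, sq]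
      exact Dvd.dvd.mul_right h N
    unfold Sp7 at h1 h2
    rcases (Nat.Prime.dvd_mul (by norm_num)).1 h3 with h | h <;> omega
  have key := sum_all h1 h2 h3 h3' hN hN7 (B := (N : ℤ) + 1) (by
      rw [hNN]
      have : (0 : ℤ) ≤ N := Int.natCast_nonneg N
      nlinarith) (by omega)
  rw [sum_Ioo] at key
  · have hval : ∀ b ∈ Ioo (-(N : ℤ)) (N : ℤ), (if (7 : ℤ) ∣ (N : ℤ) ^ 2 - b ^ 2 then
        (cp n b n2 : ℤ) - cp7 n b n2 else 2 * (cp n b n2 : ℤ)) =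
        12 * L b ((N : ℤ) ^ 2 - b ^ 2).toNat := by
      intro b hb
      obtain ⟨hb1, hb2⟩ := Finset.mem_Ioo.1 hb
      have e : (N : ℤ) ^ 2 - b ^ 2 = (N - b) * (N + b) := by ring
      have hpos : 0 < (N : ℤ) ^ 2 - b ^ 2 := by
        rw [e]
        exact mul_pos (by omega) (by omega)
      have hD' : (((N : ℤ) ^ 2 - b ^ 2).toNat : ℤ) = (N : ℤ) ^ 2 - b ^ 2 :=
        Int.toNat_of_nonneg hpos.le
      have hD : (((N : ℤ) ^ 2 - b ^ 2).toNat : ℤ) = n * n2 - b ^ 2 := by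
        rw [hD', hNN]
      split_ifs with h7
      · refine hC b _ (by omega) ?_ hD
        rw [← hD'] at h7
        exact_mod_cast h7
      · rw [hC' b _ (by omega) ?_ hD]
        · ring
        · intro h
          apply h7
          rw [← hD']
          exact_mod_cast h
    rw [Finset.sum_congr rfl hval, ← Finset.mul_sum, sum_T3 hN3] at key
    · have hT : ∀ T ∈ (range N).filter (fun T => 0 < T ∧ 3 ∣ T),
          L ((N : ℤ) - 2 * T) ((N : ℤ) ^ 2 - ((N : ℤ) - 2 * T) ^ 2).toNat =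
            L ((N : ℤ) - 2 * T) (4 * (N - T) * T) := by
        intro T hT
        rw [Finset.mem_filter, Finset.mem_range] at hT
        congr 1
        have e : (N : ℤ) ^ 2 - ((N : ℤ) - 2 * T) ^ 2 = ((4 * (N - T) * T : ℕ) : ℤ) := by
          push_cast [Nat.cast_sub hT.1.le]
          ring
        rw [e, Int.toNat_natCast]
      rw [Finset.sum_congr rfl hT] at key
      linarith
    · intro b hb1 hb2 hb
      have e : (N : ℤ) ^ 2 - b ^ 2 = (N - b) * (N + b) := by ring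
      have hpos : 0 < (N : ℤ) ^ 2 - b ^ 2 := by
        rw [e]
        exact mul_pos (by omega) (by omega)
      have hD : (((N : ℤ) ^ 2 - b ^ 2).toNat : ℤ) = n * n2 - b ^ 2 := by
        rw [Int.toNat_of_nonneg hpos.le, hNN]
      rcases hb with hb | hb
      · exact hz b _ hb (by omega) hD
      · refine hz3 b _ fun h => hb ?_
        have h6 : (3 : ℤ) ∣ (N : ℤ) ^ 2 - b ^ 2 := by
          rw [← Int.toNat_of_nonneg hpos.le]
          exact_mod_cast h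
        have h7 : (3 : ℤ) ∣ (N : ℤ) ^ 2 := Dvd.dvd.pow (by exact_mod_cast hN3) two_ne_zero
        have h8 : (3 : ℤ) ∣ b ^ 2 := by
          have := dvd_sub h7 h6
          have e' : (N : ℤ) ^ 2 - ((N : ℤ) ^ 2 - b ^ 2) = b ^ 2 := by ring
          rwa [e'] at this
        exact Int.Prime.dvd_pow' (by norm_num) h8
  · rw [if_pos (by rw [sub_self]; exact dvd_zero 7)]
    exact cp_D0 (by rw [hNN])
  · rw [if_pos (by rw [neg_sq, sub_self]; exact dvd_zero 7)]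
    exact cp_D0 (by rw [hNN]; ring)

theorem lc3_n3 (n D : ℕ) (h : ¬ 3 ∣ D) : lc3 n D = 0 := by
  unfold lc3
  rw [if_neg h]

theorem lc3E_n3 (n : ℕ) (b : ℤ) (D : ℕ) (h : ¬ 3 ∣ D) : lc3E n b D = 0 := by
  unfold lc3E
  rw [if_neg h]

theorem WWA_T0 (n S : ℕ) : WWA n S 0 = 0 := by
  unfold WWA
  simp

theorem WWAe_T0 (n S : ℕ) : WWAe n S 0 = 0 := by
  unfold WWAe
  simp

theorem sum_T0 {N : ℕ} (W : ℕ → ℤ) (hW : W 0 = 0) :
    ∑ T ∈ (range N).filter (fun T => 3 ∣ T), W T =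
      ∑ T ∈ (range N).filter (fun T => 0 < T ∧ 3 ∣ T), W T := by
  symm
  refine Finset.sum_subset ?_ ?_
  · intro T hT
    rw [Finset.mem_filter] at hT ⊢
    exact ⟨hT.1, hT.2.2⟩
  · intro T hT hT'
    rw [Finset.mem_filter] at hT hT'
    have : T = 0 := by
      by_contra h
      exact hT' ⟨hT.1, Nat.pos_of_ne_zero h, hT.2⟩
    rw [this, hW]

/-- **DIAG3** -/
theorem t_DIAG3 (h1b : S_C1B) (h2a : S_C23A) (h2b : S_C23B) (hPC : S_PC3) (hHE : S_HE) :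
    S_DIAG3 := by
  intro n hn
  obtain ⟨hs, h4, h7, h3⟩ := id hn
  have hCP := t_CP73 hPC
  have hn0 : 0 < n := Nat.pos_of_ne_zero hs.ne_zero
  have h7n : ¬ 7 ∣ n := by unfold Sp7 at h7; omega
  have h74 := Sp7_4 h7
  have k1 := BIL_3 (n2 := n) (N := n) (fun _ D => lc3 n D)
    (fun b D hD hd hDD => hCP n n b D hs h4 h7 h7 h3 hD hd hDD)
    (fun b D hD hd hDD => by
      rw [lc3_eq n hd]
      exact hPC n n b D hs h4 h3 hD hDD)
    (fun b D hb _ hDD => lc3_odd n D (odd_D (sq n).symm b D hb hDD))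
    (fun _ D h => lc3_n3 n D h) (sq n).symm h3 h7 h7 h3 h3
  have k2 := BIL_3 (n2 := 4 * n) (N := 2 * n) (fun _ D => lc3 n D)
    (fun b D hD hd hDD => hCP n (4 * n) b D hs h4 h7 h74 h3 hD hd hDD)
    (fun b D hD hd hDD => by
      rw [lc3_eq n hd]
      exact hPC n (4 * n) b D hs h4 h3 hD hDD)
    (fun b D hb _ hDD => lc3_odd n D (odd_D (N := 2 * n) (by ring) b D hb hDD))
    (fun _ D h => lc3_n3 n D h) (by ring) (by omega) h7 h74 h3 (by omega)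
  have h0 := hHE n h4 h7
  have k5 := cc4 h7 h0
  rw [cast4, h0.1, k5] at k2
  have w1 : 2 * WXA (fun u => jacobiSym u n) n n =
      -∑ T ∈ (range n).filter (fun T => 0 < T ∧ 3 ∣ T), lc3 n (4 * (n - T) * T) := by
    rw [WXA_odd h1b hs h4 (Or.inl rfl), sum_T0 (fun T => WWA n (n - T) T) (WWA_T0 n _),
      ← Finset.sum_neg_distrib, Finset.mul_sum]
    refine Finset.sum_congr rfl fun T hT => ?_
    rw [mem_filter, mem_range] at hT
    exact h2a n (Or.inr hn) T hT.2.1 hT.1 hT.2.2 (fun h => absurd h h7n)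
  have w2 : 2 * WXA (fun u => jacobiSym u n) n (2 * n) =
      -(∑ T ∈ (range (2 * n)).filter (fun T => 0 < T ∧ 3 ∣ T), lc3 n (4 * (2 * n - T) * T) +
        ep2 n * ∑ T ∈ (range n).filter (fun T => 0 < T ∧ 3 ∣ T), lc3 n (4 * (n - T) * T)) := by
    rw [WXA_odd h1b hs h4 (Or.inr rfl), sum_T0 (fun T => WWA n (2 * n - T) T) (WWA_T0 n _),
      ← sum_dbl (n := n) (fun _ T => 0 < T ∧ 3 ∣ T) (by intro T; constructor <;> omega),
      ← Finset.sum_add_distrib, ← Finset.sum_neg_distrib, Finset.mul_sum]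
    refine Finset.sum_congr rfl fun T hT => ?_
    rw [mem_filter, mem_range] at hT
    exact h2b n (Or.inr hn) T hT.2.1 hT.1 hT.2.2 (fun h => absurd h h7n)
  rw [CA.t_C1AA n (by omega) (fun u => jacobiSym u n) (fun u => jac_odd h4 u)]
  generalize (∑ T ∈ (range n).filter (fun T => 0 < T ∧ 3 ∣ T), lc3 n (4 * (n - T) * T)) = S1
    at k1 w1 w2
  generalize (∑ T ∈ (range (2 * n)).filter (fun T => 0 < T ∧ 3 ∣ T),
    lc3 n (4 * (2 * n - T) * T)) = S2 at k2 w2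
  generalize WXA (fun u => jacobiSym u n) n n = W1 at w1 ⊢
  generalize WXA (fun u => jacobiSym u n) n (2 * n) = W2 at w2 ⊢
  have k7 : 2 * (36 * (2 * (W2 - 3 * W1))) = 2 * -(2 * cc n ^ 2) := by
    linear_combination (3 - ep2 n) * k1 - k2 + 72 * w2 - 216 * w1
  linarith

/-- **DIAG3E** -/
theorem t_DIAG3E (h1b : S_C1BE) (h2 : S_C23E) (hPC : S_PC3E) (hHE : S_HEE) : S_DIAG3E := by
  intro n hn
  obtain ⟨hev, h7, h3⟩ := id hn
  obtain ⟨m, rfl, hs, hm⟩ := id hev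
  have hm0 := hs.ne_zero
  have hCP := t_CP73E hPC
  have h7n : ¬ 7 ∣ 4 * m := by unfold Sp7 at h7; omega
  have h74 := Sp7_4 h7
  have k1 := BIL_3 (n2 := 4 * m) (N := 4 * m) (lc3E (4 * m))
    (fun b D hD hd hDD => hCP (4 * m) (4 * m) b D hev h3 h7 (dvd_mul_right 4 m) h7 hD hd hDD)
    (fun b D hD hd hDD => by
      rw [lc3E_eq (4 * m) b hd]
      exact hPC (4 * m) (4 * m) b D hev h3 (dvd_mul_right 4 m) hD hDD)
    (fun b D hb _ _ => lc3E_odd _ D (by push_cast at hb; omega))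
    (lc3E_n3 (4 * m)) (sq (4 * m)).symm h3 h7 h7 h3 h3
  have k2 := BIL_3 (n2 := 4 * (4 * m)) (N := 2 * (4 * m)) (lc3E (4 * m))
    (fun b D hD hd hDD => hCP (4 * m) (4 * (4 * m)) b D hev h3 h7 (dvd_mul_right 4 _) h74 hD hd hDD)
    (fun b D hD hd hDD => by
      rw [lc3E_eq (4 * m) b hd]
      exact hPC (4 * m) (4 * (4 * m)) b D hev h3 (dvd_mul_right 4 _) hD hDD)
    (fun b D hb _ _ => lc3E_odd _ D (by push_cast at hb; omega))
    (lc3E_n3 (4 * m)) (by ring) (by omega) h7 h74 h3 (by omega)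
  obtain ⟨e1, e2⟩ := hHE m hm h7
  have k5 : cc (16 * m) = -cc (4 * m) := by
    have := cc4 (n := 4 * m) (e := 0) h7 (by
      rw [cast4, show 4 * (4 * (m : ℤ)) = 16 * m by ring, e1, e2]
      constructor <;> ring)
    rw [cast4, show 4 * (4 * (m : ℤ)) = 16 * m by ring] at this
    rw [this]
    ring
  rw [cast4 (4 * m), cast4 m, show 4 * (4 * (m : ℤ)) = 16 * m by ring, e1, k5] at k2
  rw [cast4] at k1
  have w : ∀ N : ℕ, (N = 4 * m ∨ N = 2 * (4 * m)) → 2 * WXA (chE (4 * m)) (4 * m) N =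
      -∑ T ∈ (range N).filter (fun T => 0 < T ∧ 3 ∣ T),
        lc3E (4 * m) ((N : ℤ) - 2 * T) (4 * (N - T) * T) := by
    intro N hN
    rw [WXA_even h1b hev hN, sum_T0 (fun T => WWAe (4 * m) (N - T) T)
      (WWAe_T0 (4 * m) _), ← Finset.sum_neg_distrib, Finset.mul_sum]
    refine Finset.sum_congr rfl fun T hT => ?_
    rw [mem_filter, mem_range] at hT
    rw [h2 (4 * m) (Or.inr hn) N hN T hT.2.1 hT.1 hT.2.2 (fun h => absurd h h7n)]
    unfold lc3E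
    rw [tb_T hT.1]
  have w1 := w _ (Or.inl rfl)
  have w2 := w _ (Or.inr rfl)
  rw [CA.t_C1AA (4 * m) (by omega) (chE (4 * m)) (fun u => chE_odd hev u)]
  have e8 : ((2 * (4 * m) : ℕ) : ℤ) = 2 * (4 * (m : ℤ)) := by push_cast; ring
  rw [cast4] at w1
  rw [e8] at k2 w2
  rw [cast4]
  generalize (∑ T ∈ (range (4 * m)).filter (fun T => 0 < T ∧ 3 ∣ T),
    lc3E (4 * m) (4 * (m : ℤ) - 2 * T) (4 * (4 * m - T) * T)) = S1 at k1 w1
  generalize (∑ T ∈ (range (2 * (4 * m))).filter (fun T => 0 < T ∧ 3 ∣ T),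
    lc3E (4 * m) (2 * (4 * (m : ℤ)) - 2 * T) (4 * (2 * (4 * m) - T) * T)) = S2 at k2 w2
  generalize WXA (chE (4 * m)) (4 * m) (4 * m) = W1 at w1 ⊢
  generalize WXA (chE (4 * m)) (4 * m) (2 * (4 * m)) = W2 at w2 ⊢
  have k7 : 2 * (36 * (2 * (W2 - 3 * W1))) = 2 * -(2 * cc (4 * m) ^ 2) := by
    linear_combination 3 * k1 - k2 + 72 * w2 - 216 * w1
  linarith

end Pool.Agent.N973.P21
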