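import Pool.Agent.N218.P21.Rel

/-!
# P21: the pairs with a common isotropic line modulo `7`
-/

set_option autoImplicit false

namespace Pool.Agent.N973.P21

open Finset
open Pool.Agent.N969.P15 (V3)
open Pool.Agent.N877.P21
open Pool.Agent.N218.P21

def ha (v : V3) : V3 := ![-v 0, -v 1 - v 2, v 2]

def hb (v : V3) : V3 := ![-v 0, v 1, -v 1 - v 2]

def hc (v : V3) : V3 := ![-v 0, v 2, v 1]

theorem ha_ha (v : V3) : ha (ha v) = v := by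
  ext i
  fin_cases i <;> simp [ha]

theorem hb_hb (v : V3) : hb (hb v) = v := by
  ext i
  fin_cases i <;> simp [hb]

theorem hc_hc (v : V3) : hc (hc v) = v := by
  ext i
  fin_cases i <;> simp [hc]

theorem ip_ha (v w : V3) : ip (ha v) (ha w) = ip v w := by
  simp only [ip, ha, Matrix.cons_val_zero, Matrix.cons_val_one, Matrix.cons_val]
  ring

theorem ip_hb (v w : V3) : ip (hb v) (hb w) = ip v w := by
  simp only [ip, hb, Matrix.cons_val_zero, Matrix.cons_val_one, Matrix.cons_val]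
  ring

theorem ip_hc (v w : V3) : ip (hc v) (hc w) = ip v w := by
  simp only [ip, hc, Matrix.cons_val_zero, Matrix.cons_val_one, Matrix.cons_val]
  ring

theorem i3_ha (v w : V3) : (3 : ℤ) ∣ ip v (ha w) + ip v w := by
  simp only [ip, ha, Matrix.cons_val_zero, Matrix.cons_val_one, Matrix.cons_val]
  exact ⟨2 * (v 2 * w 2), by ring⟩

theorem i3_hb (v w : V3) : (3 : ℤ) ∣ ip v (hb w) + ip v w := by
  simp only [ip, hb, Matrix.cons_val_zero, Matrix.cons_val_one, Matrix.cons_val]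
  exact ⟨2 * (v 1 * w 1), by ring⟩

theorem i3_hc (v w : V3) : (3 : ℤ) ∣ ip v (hc w) + ip v w := by
  simp only [ip, hc, Matrix.cons_val_zero, Matrix.cons_val_one, Matrix.cons_val]
  exact ⟨2 * (v 1 * w 1 + v 1 * w 2 + v 2 * w 1 + v 2 * w 2), by ring⟩

theorem i3_sg (v w : V3) : (3 : ℤ) ∣ ip v (sg w) + ip v w := by
  simp only [ip, sg, Matrix.cons_val_zero, Matrix.cons_val_one, Matrix.cons_val]
  exact ⟨2 * (v 0 * w 0) + 2 * (v 1 * w 1) + 2 * (v 2 * w 1) + 2 * (v 2 * w 2), by ring⟩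

/-- the data of a line: an isometry fixing the line and changing the orientation at `3`, and the
eigenvalue on the line -/
structure Ld (i : Fin 8) where
  t : V3 → V3
  t' : V3 → V3
  m : V3 → ℤ
  h1 : ∀ v, t (t' v) = v
  h2 : ∀ v, t' (t v) = v
  h3 : ∀ v w, ip (t v) (t w) = ip v w
  h4 : ∀ v, Ot i (t v) ↔ Ot i v
  h5 : ∀ v, m (t v) = m v
  h6 : ∀ v w, (3 : ℤ) ∣ ip v (t w) + ip v w
  h7 : ∀ v w, Ot i v → Ot i w → (7 : ℤ) ∣ ip v w - 3 * (m v * m w)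

theorem o0 (v : V3) : Ot 0 v ↔ (7 : ℤ) ∣ 4 * v 1 + 2 * v 2 + 3 * v 0 := Iff.rfl

theorem p0 {v w : V3} (hv : Ot 0 v) (hw : Ot 0 w) :
    (7 : ℤ) ∣ ip v w - 3 * ((v 2) * (w 2)) := by
  rw [o0] at hv hw
  obtain ⟨k, hk⟩ := hv
  obtain ⟨l, hl⟩ := hw
  refine ⟨k * (-3 * w 0 - 3 * w 1 + 2 * w 2) + l * (-3 * v 0 - 3 * v 1 + 2 * v 2) + (3 * (v 0 * w 0) + 3 * (v 0 * w 1) + 3 * (v 1 * w 0) + 4 * (v 1 * w 1) + (-1 * (v 2 * w 2))), ?_⟩
  unfold ip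
  linear_combination (-3 * w 0 - 3 * w 1 + 2 * w 2) * hk + (-3 * v 0 - 3 * v 1 + 2 * v 2) * hl

theorem q0 (v : V3) : Ot 0 (ha v) ↔ Ot 0 v := by
  rw [o0, o0]
  change (7 : ℤ) ∣ 4 * (-v 1 - v 2) + 2 * (v 2) + 3 * (-v 0) ↔ _
  omega

/-- the data of the line `0` -/
def d0 : Ld 0 where
  t := ha
  t' := ha
  m := fun v => v 2
  h1 := ha_ha
  h2 := ha_ha
  h3 := ip_ha
  h4 := q0
  h5 := by
    intro v
    change (v 2) = v 2
    ring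
  h6 := i3_ha
  h7 := fun _ _ h h' => p0 h h'

theorem o1 (v : V3) : Ot 1 v ↔ (7 : ℤ) ∣ 2 * v 1 + 4 * v 2 + 3 * v 0 := Iff.rfl

theorem p1 {v w : V3} (hv : Ot 1 v) (hw : Ot 1 w) :
    (7 : ℤ) ∣ ip v w - 3 * ((v 1) * (w 1)) := by
  rw [o1] at hv hw
  obtain ⟨k, hk⟩ := hv
  obtain ⟨l, hl⟩ := hw
  refine ⟨k * (-3 * w 0 + 2 * w 1 - 3 * w 2) + l * (-3 * v 0 + 2 * v 1 - 3 * v 2) + (3 * (v 0 * w 0) + 3 * (v 0 * w 2) + (-1 * (v 1 * w 1)) + 3 * (v 2 * w 0) + 4 * (v 2 * w 2)), ?_⟩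
  unfold ip
  linear_combination (-3 * w 0 + 2 * w 1 - 3 * w 2) * hk + (-3 * v 0 + 2 * v 1 - 3 * v 2) * hl

theorem q1 (v : V3) : Ot 1 (hb v) ↔ Ot 1 v := by
  rw [o1, o1]
  change (7 : ℤ) ∣ 2 * (v 1) + 4 * (-v 1 - v 2) + 3 * (-v 0) ↔ _
  omega

/-- the data of the line `1` -/
def d1 : Ld 1 where
  t := hb
  t' := hb
  m := fun v => v 1
  h1 := hb_hb
  h2 := hb_hb
  h3 := ip_hb
  h4 := q1
  h5 := by
    intro v
    change (v 1) = v 1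
    ring
  h6 := i3_hb
  h7 := fun _ _ h h' => p1 h h'

theorem o2 (v : V3) : Ot 2 v ↔ (7 : ℤ) ∣ -2 * v 1 + 2 * v 2 + 3 * v 0 := Iff.rfl

theorem p2 {v w : V3} (hv : Ot 2 v) (hw : Ot 2 w) :
    (7 : ℤ) ∣ ip v w - 3 * ((v 1 + v 2) * (w 1 + w 2)) := by
  rw [o2] at hv hw
  obtain ⟨k, hk⟩ := hv
  obtain ⟨l, hl⟩ := hw
  refine ⟨k * (-3 * w 0 - 2 * w 1 + 2 * w 2) + l * (-3 * v 0 - 2 * v 1 + 2 * v 2) + (3 * (v 0 * w 0) + (-1 * (v 1 * w 1)) + 1 * (v 1 * w 2) + 1 * (v 2 * w 1) + (-1 * (v 2 * w 2))), ?_⟩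
  unfold ip
  linear_combination (-3 * w 0 - 2 * w 1 + 2 * w 2) * hk + (-3 * v 0 - 2 * v 1 + 2 * v 2) * hl

theorem q2 (v : V3) : Ot 2 (hc v) ↔ Ot 2 v := by
  rw [o2, o2]
  change (7 : ℤ) ∣ -2 * (v 2) + 2 * (v 1) + 3 * (-v 0) ↔ _
  omega

/-- the data of the line `2` -/
def d2 : Ld 2 where
  t := hc
  t' := hc
  m := fun v => v 1 + v 2
  h1 := hc_hc
  h2 := hc_hc
  h3 := ip_hc
  h4 := q2
  h5 := by
    intro v
    change (v 2) + (v 1) = v 1 + v 2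
    ring
  h6 := i3_hc
  h7 := fun _ _ h h' => p2 h h'

theorem o3 (v : V3) : Ot 3 v ↔ (7 : ℤ) ∣ -4 * v 1 - 2 * v 2 + 3 * v 0 := Iff.rfl

theorem p3 {v w : V3} (hv : Ot 3 v) (hw : Ot 3 w) :
    (7 : ℤ) ∣ ip v w - 3 * ((v 2) * (w 2)) := by
  rw [o3] at hv hw
  obtain ⟨k, hk⟩ := hv
  obtain ⟨l, hl⟩ := hw
  refine ⟨k * (-3 * w 0 + 3 * w 1 - 2 * w 2) + l * (-3 * v 0 + 3 * v 1 - 2 * v 2) + (3 * (v 0 * w 0) + (-3 * (v 0 * w 1)) + (-3 * (v 1 * w 0)) + 4 * (v 1 * w 1) + (-1 * (v 2 * w 2))), ?_⟩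
  unfold ip
  linear_combination (-3 * w 0 + 3 * w 1 - 2 * w 2) * hk + (-3 * v 0 + 3 * v 1 - 2 * v 2) * hl

theorem q3 (v : V3) : Ot 3 (ha v) ↔ Ot 3 v := by
  rw [o3, o3]
  change (7 : ℤ) ∣ -4 * (-v 1 - v 2) - 2 * (v 2) + 3 * (-v 0) ↔ _
  omega

/-- the data of the line `3` -/
def d3 : Ld 3 where
  t := ha
  t' := ha
  m := fun v => v 2
  h1 := ha_ha
  h2 := ha_ha
  h3 := ip_ha
  h4 := q3
  h5 := by
    intro v
    change (v 2) = v 2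
    ring
  h6 := i3_ha
  h7 := fun _ _ h h' => p3 h h'

theorem o4 (v : V3) : Ot 4 v ↔ (7 : ℤ) ∣ -2 * v 1 - 4 * v 2 + 3 * v 0 := Iff.rfl

theorem p4 {v w : V3} (hv : Ot 4 v) (hw : Ot 4 w) :
    (7 : ℤ) ∣ ip v w - 3 * ((v 1) * (w 1)) := by
  rw [o4] at hv hw
  obtain ⟨k, hk⟩ := hv
  obtain ⟨l, hl⟩ := hw
  refine ⟨k * (-3 * w 0 - 2 * w 1 + 3 * w 2) + l * (-3 * v 0 - 2 * v 1 + 3 * v 2) + (3 * (v 0 * w 0) + (-3 * (v 0 * w 2)) + (-1 * (v 1 * w 1)) + (-3 * (v 2 * w 0)) + 4 * (v 2 * w 2)), ?_⟩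
  unfold ip
  linear_combination (-3 * w 0 - 2 * w 1 + 3 * w 2) * hk + (-3 * v 0 - 2 * v 1 + 3 * v 2) * hl

theorem q4 (v : V3) : Ot 4 (hb v) ↔ Ot 4 v := by
  rw [o4, o4]
  change (7 : ℤ) ∣ -2 * (v 1) - 4 * (-v 1 - v 2) + 3 * (-v 0) ↔ _
  omega

/-- the data of the line `4` -/
def d4 : Ld 4 where
  t := hb
  t' := hb
  m := fun v => v 1
  h1 := hb_hb
  h2 := hb_hb
  h3 := ip_hb
  h4 := q4
  h5 := by
    intro v
    change (v 1) = v 1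
    ring
  h6 := i3_hb
  h7 := fun _ _ h h' => p4 h h'

theorem o5 (v : V3) : Ot 5 v ↔ (7 : ℤ) ∣ 2 * v 1 - 2 * v 2 + 3 * v 0 := Iff.rfl

theorem p5 {v w : V3} (hv : Ot 5 v) (hw : Ot 5 w) :
    (7 : ℤ) ∣ ip v w - 3 * ((v 1 + v 2) * (w 1 + w 2)) := by
  rw [o5] at hv hw
  obtain ⟨k, hk⟩ := hv
  obtain ⟨l, hl⟩ := hw
  refine ⟨k * (-3 * w 0 + 2 * w 1 - 2 * w 2) + l * (-3 * v 0 + 2 * v 1 - 2 * v 2) + (3 * (v 0 * w 0) + (-1 * (v 1 * w 1)) + 1 * (v 1 * w 2) + 1 * (v 2 * w 1) + (-1 * (v 2 * w 2))), ?_⟩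
  unfold ip
  linear_combination (-3 * w 0 + 2 * w 1 - 2 * w 2) * hk + (-3 * v 0 + 2 * v 1 - 2 * v 2) * hl

theorem q5 (v : V3) : Ot 5 (hc v) ↔ Ot 5 v := by
  rw [o5, o5]
  change (7 : ℤ) ∣ 2 * (v 2) - 2 * (v 1) + 3 * (-v 0) ↔ _
  omega

/-- the data of the line `5` -/
def d5 : Ld 5 where
  t := hc
  t' := hc
  m := fun v => v 1 + v 2
  h1 := hc_hc
  h2 := hc_hc
  h3 := ip_hc
  h4 := q5
  h5 := by
    intro v
    change (v 2) + (v 1) = v 1 + v 2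
    ring
  h6 := i3_hc
  h7 := fun _ _ h h' => p5 h h'

theorem o6 (v : V3) : Ot 6 v ↔ (7 : ℤ) ∣ 3 * v 1 + v 2 := Iff.rfl

theorem p6 {v w : V3} (hv : Ot 6 v) (hw : Ot 6 w) :
    (7 : ℤ) ∣ ip v w - 3 * ((v 0) * (w 0)) := by
  rw [o6] at hv hw
  obtain ⟨k, hk⟩ := hv
  obtain ⟨l, hl⟩ := hw
  refine ⟨k * (3 * w 1 + 2 * w 2) + l * (3 * v 1 + 2 * v 2) + ((-2 * (v 1 * w 1)) + (-1 * (v 1 * w 2)) + (-1 * (v 2 * w 1))), ?_⟩
  unfold ip
  linear_combination (3 * w 1 + 2 * w 2) * hk + (3 * v 1 + 2 * v 2) * hl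

theorem q6 (v : V3) : Ot 6 (sg v) ↔ Ot 6 v := by
  rw [o6, o6]
  change (7 : ℤ) ∣ 3 * (-v 2) + (v 1 + v 2) ↔ _
  omega

/-- the data of the line `6` -/
def d6 : Ld 6 where
  t := sg
  t' := sg'
  m := fun v => v 0
  h1 := sg_sg'
  h2 := sg'_sg
  h3 := ip_sg2
  h4 := q6
  h5 := by
    intro v
    change (v 0) = v 0
    ring
  h6 := i3_sg
  h7 := fun _ _ h h' => p6 h h'

theorem o7 (v : V3) : Ot 7 v ↔ (7 : ℤ) ∣ 3 * v 1 + 2 * v 2 := Iff.rfl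

theorem p7 {v w : V3} (hv : Ot 7 v) (hw : Ot 7 w) :
    (7 : ℤ) ∣ ip v w - 3 * ((v 0) * (w 0)) := by
  rw [o7] at hv hw
  obtain ⟨k, hk⟩ := hv
  obtain ⟨l, hl⟩ := hw
  refine ⟨k * (3 * w 1 + w 2) + l * (3 * v 1 + v 2) + ((-2 * (v 1 * w 1)) + (-1 * (v 1 * w 2)) + (-1 * (v 2 * w 1))), ?_⟩
  unfold ip
  linear_combination (3 * w 1 + w 2) * hk + (3 * v 1 + v 2) * hl

theorem q7 (v : V3) : Ot 7 (sg v) ↔ Ot 7 v := by
  rw [o7, o7]
  change (7 : ℤ) ∣ 3 * (-v 2) + 2 * (v 1 + v 2) ↔ _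
  omega

/-- the data of the line `7` -/
def d7 : Ld 7 where
  t := sg
  t' := sg'
  m := fun v => v 0
  h1 := sg_sg'
  h2 := sg'_sg
  h3 := ip_sg2
  h4 := q7
  h5 := by
    intro v
    change (v 0) = v 0
    ring
  h6 := i3_sg
  h7 := fun _ _ h h' => p7 h h'

theorem ld (i : Fin 8) : Nonempty (Ld i) := by
  match i with
  | 0 => exact ⟨d0⟩
  | 1 => exact ⟨d1⟩
  | 2 => exact ⟨d2⟩
  | 3 => exact ⟨d3⟩
  | 4 => exact ⟨d4⟩
  | 5 => exact ⟨d5⟩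
  | 6 => exact ⟨d6⟩
  | 7 => exact ⟨d7⟩

theorem Ot_neg (i : Fin 8) (v : V3) : Ot i (-v) ↔ Ot i v := by
  match i with
  | 0 => rw [o0, o0]; simp only [Pi.neg_apply]; omega
  | 1 => rw [o1, o1]; simp only [Pi.neg_apply]; omega
  | 2 => rw [o2, o2]; simp only [Pi.neg_apply]; omega
  | 3 => rw [o3, o3]; simp only [Pi.neg_apply]; omega
  | 4 => rw [o4, o4]; simp only [Pi.neg_apply]; omega
  | 5 => rw [o5, o5]; simp only [Pi.neg_apply]; omega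
  | 6 => rw [o6, o6]; simp only [Pi.neg_apply]; omega
  | 7 => rw [o7, o7]; simp only [Pi.neg_apply]; omega

theorem LL_lin (i : Fin 8) (t s a b c x y z : ZMod 7) :
    LL i (t * a - s * x) (t * b - s * y) (t * c - s * z) = t * LL i a b c - s * LL i x y z := by
  match i with
  | 0 => simp [LL]; ring
  | 1 => simp [LL]; ring
  | 2 => simp [LL]; ring
  | 3 => simp [LL]; ring
  | 4 => simp [LL]; ring
  | 5 => simp [LL]; ring
  | 6 => simp [LL]; ring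
  | 7 => simp [LL]; ring

theorem ip_neg_right (v w : V3) : ip v (-w) = -ip v w := by
  simp only [ip, Pi.neg_apply]
  ring

theorem ip_neg_neg (v : V3) : ip (-v) (-v) = ip v v := by
  simp only [ip, Pi.neg_apply]
  ring

theorem sp7_cast {n : ℕ} (h : Sp7 n) : (n : ZMod 7) = 3 ∨ (n : ZMod 7) = 5 ∨ (n : ZMod 7) = 6 := by
  have key : (n : ZMod 7) = ((n % 7 : ℕ) : ZMod 7) := (ZMod.natCast_mod n 7).symm
  rcases h with h | h | h
  · left; rw [key, h]; rfl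
  · right; left; rw [key, h]; rfl
  · right; right; rw [key, h]; rfl

theorem sp7_ne {n : ℕ} (h : Sp7 n) : (n : ZMod 7) ≠ 0 := by
  rcases sp7_cast h with h | h | h <;> rw [h] <;> decide

/-- the number of common lines -/
theorem ind_pair {n1 n2 : ℕ} (h2 : Sp7 n2) {v w : V3} (hv : ip v v = n1) (hw : ip w w = n2)
    (h7 : (7 : ℤ) ∣ ip v w ^ 2 - n1 * n2) :
    ∑ i : Fin 8, (if Ot i v then (1 : ℤ) else 0) * (if Ot i w then 1 else 0) =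
      1 + (if ∀ i, (7 : ℤ) ∣ n2 * v i - ip v w * w i then 1 else 0) := by
  have hn2 := sp7_ne h2
  have eB := ip_cast v w
  have e1 := ip_cast v v
  have e2 := ip_cast w w
  rw [hv] at e1
  rw [hw] at e2
  rw [dvd7_iff] at h7
  push_cast at h7 e1 e2
  have hall : (∀ i, (7 : ℤ) ∣ n2 * v i - ip v w * w i) ↔
      ((n2 : ZMod 7) * (v 1) - (ip v w : ℤ) * (w 1) = 0 ∧
        (n2 : ZMod 7) * (v 0) - (ip v w : ℤ) * (w 0) = 0 ∧
        (n2 : ZMod 7) * (v 2) - (ip v w : ℤ) * (w 2) = 0) := by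
    simp only [dvd7_iff, Fin.forall_fin_succ, IsEmpty.forall_iff, and_true]
    push_cast
    constructor
    · rintro ⟨a, b, c⟩
      exact ⟨b, a, c⟩
    · rintro ⟨a, b, c⟩
      exact ⟨b, a, c⟩
  have hsum : ∑ i : Fin 8, (if Ot i v then (1 : ℤ) else 0) * (if Ot i w then 1 else 0) =
      ∑ i : Fin 8, (if LL i ((n2 : ZMod 7) * (v 1) - (ip v w : ℤ) * (w 1))
        ((n2 : ZMod 7) * (v 0) - (ip v w : ℤ) * (w 0))
        ((n2 : ZMod 7) * (v 2) - (ip v w : ℤ) * (w 2)) = 0 then (1 : ℤ) else 0) *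
        (if LL i (w 1 : ZMod 7) (w 0) (w 2) = 0 then 1 else 0) := by
    refine Finset.sum_congr rfl fun i _ => ?_
    have o1 : Ot i v ↔ LL i (v 1 : ZMod 7) (v 0) (v 2) = 0 := by
      unfold Ot
      rw [dvd7_iff, LL_cast]
    have o2 : Ot i w ↔ LL i (w 1 : ZMod 7) (w 0) (w 2) = 0 := by
      unfold Ot
      rw [dvd7_iff, LL_cast]
    simp only [o1, o2, LL_lin]
    by_cases hz : LL i (w 1 : ZMod 7) (w 0) (w 2) = 0
    · rw [hz, mul_zero, sub_zero]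
      have : Fact (Nat.Prime 7) := ⟨by norm_num⟩
      have e : ((n2 : ZMod 7) * LL i (v 1 : ZMod 7) (v 0) (v 2) = 0) ↔
          LL i (v 1 : ZMod 7) (v 0) (v 2) = 0 := by
        rw [mul_eq_zero]
        tauto
      simp only [e]
    · rw [if_neg hz, mul_zero, mul_zero]
  rw [hsum]
  by_cases h0 : ((n2 : ZMod 7) * (v 1) - (ip v w : ℤ) * (w 1) = 0 ∧
        (n2 : ZMod 7) * (v 0) - (ip v w : ℤ) * (w 0) = 0 ∧
        (n2 : ZMod 7) * (v 2) - (ip v w : ℤ) * (w 2) = 0)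
  · rw [if_pos (hall.2 h0), h0.1, h0.2.1, h0.2.2]
    have hL0 : ∀ i : Fin 8, LL i (0 : ZMod 7) 0 0 = 0 := by
      intro i
      have := LL_smul i 0 0 0 0
      rwa [zero_mul, zero_mul] at this
    have h3 := sum_fin2 (w 1 : ZMod 7) (w 0) (w 2) (by
      rw [← e2]
      exact sp7_cast h2)
    have : ∑ i : Fin 8, (if LL i (0 : ZMod 7) 0 0 = 0 then (1 : ℤ) else 0) *
        (if LL i (w 1 : ZMod 7) (w 0) (w 2) = 0 then 1 else 0) =
        ∑ i : Fin 8, (if LL i (w 1 : ZMod 7) (w 0) (w 2) = 0 then (1 : ℤ) else 0) := by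
      refine Finset.sum_congr rfl fun i _ => ?_
      rw [if_pos (hL0 i), one_mul]
    rw [this, h3]
    norm_num
  · rw [if_neg (fun h => h0 (hall.1 h)), add_zero]
    have h3 := ind_fin ((n2 : ZMod 7) * (v 1) - (ip v w : ℤ) * (w 1))
      ((n2 : ZMod 7) * (v 0) - (ip v w : ℤ) * (w 0))
      ((n2 : ZMod 7) * (v 2) - (ip v w : ℤ) * (w 2)) (w 1) (w 0) (w 2) (by tauto) (by
        have e : ipR ((n2 : ZMod 7) * (v 1) - (ip v w : ℤ) * (w 1))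
          ((n2 : ZMod 7) * (v 0) - (ip v w : ℤ) * (w 0))
          ((n2 : ZMod 7) * (v 2) - (ip v w : ℤ) * (w 2))
          ((n2 : ZMod 7) * (v 1) - (ip v w : ℤ) * (w 1))
          ((n2 : ZMod 7) * (v 0) - (ip v w : ℤ) * (w 0))
          ((n2 : ZMod 7) * (v 2) - (ip v w : ℤ) * (w 2)) =
          (n2 : ZMod 7) ^ 2 * ipR (v 1 : ZMod 7) (v 0) (v 2) (v 1) (v 0) (v 2) -
          2 * (n2 * ((ip v w : ℤ) : ZMod 7)) * ipR (v 1 : ZMod 7) (v 0) (v 2) (w 1) (w 0) (w 2) +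
          ((ip v w : ℤ) : ZMod 7) ^ 2 * ipR (w 1 : ZMod 7) (w 0) (w 2) (w 1) (w 0) (w 2) := by
            unfold ipR; ring
        rw [e, ← e1, ← e2, ← eB]
        linear_combination (-(n2 : ZMod 7)) * h7)
    rw [← h3, if_pos]
    have e : ipR ((n2 : ZMod 7) * (v 1) - (ip v w : ℤ) * (w 1))
          ((n2 : ZMod 7) * (v 0) - (ip v w : ℤ) * (w 0))
          ((n2 : ZMod 7) * (v 2) - (ip v w : ℤ) * (w 2)) (w 1) (w 0) (w 2) =
          (n2 : ZMod 7) * ipR (v 1 : ZMod 7) (v 0) (v 2) (w 1) (w 0) (w 2) -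
          ((ip v w : ℤ) : ZMod 7) * ipR (w 1 : ZMod 7) (w 0) (w 2) (w 1) (w 0) (w 2) := by
            unfold ipR; ring
    rw [e, ← e2, ← eB]
    ring

/-- the vectors orthogonal to a line -/
noncomputable def Vi (i : Fin 8) (n : ℤ) : Finset V3 := (vec n).filter fun v => Ot i v

theorem mem_Vi {i : Fin 8} {n : ℤ} {v : V3} : v ∈ Vi i n ↔ ip v v = n ∧ Ot i v := by
  unfold Vi
  rw [Finset.mem_filter, mem_vec]

theorem card_Vi (i : Fin 8) (n : ℤ) : ((Vi i n).card : ℤ) = NN i n := rfl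

theorem sum_t {i : Fin 8} (d : Ld i) (n : ℤ) (f : V3 → ℤ) :
    ∑ w ∈ Vi i n, f (d.t w) = ∑ w ∈ Vi i n, f w := by
  refine Finset.sum_nbij' d.t d.t' ?_ ?_ ?_ ?_ ?_
  · intro v hv
    rw [mem_Vi] at hv ⊢
    exact ⟨by rw [d.h3, hv.1], (d.h4 v).2 hv.2⟩
  · intro v hv
    rw [mem_Vi] at hv ⊢
    refine ⟨by rw [← d.h3, d.h1, hv.1], (d.h4 _).1 ?_⟩
    rw [d.h1]
    exact hv.2
  · intro v _
    exact d.h2 v
  · intro v _
    exact d.h1 v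
  · intro v _
    rfl

theorem sum_n (i : Fin 8) (n : ℤ) (f : V3 → ℤ) :
    ∑ w ∈ Vi i n, f (-w) = ∑ w ∈ Vi i n, f w := by
  refine Finset.sum_nbij' (fun w => -w) (fun w => -w) ?_ ?_ ?_ ?_ ?_
  · intro v hv
    rw [mem_Vi] at hv ⊢
    exact ⟨by rw [ip_neg_neg, hv.1], (Ot_neg i v).2 hv.2⟩
  · intro v hv
    rw [mem_Vi] at hv ⊢
    exact ⟨by rw [ip_neg_neg, hv.1], (Ot_neg i v).2 hv.2⟩
  · intro v _
    exact neg_neg v
  · intro v _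
    exact neg_neg v
  · intro v _
    rfl

theorem sq3 (v w : V3) : (3 : ℤ) ∣ ip v w ^ 2 - ip v v * ip w w := by
  have h : ∀ v w : V3, ∃ k, ip v w = (v 1 - v 2) * (w 1 - w 2) + 3 * k := by
    intro v w
    refine ⟨v 0 * w 0 + v 1 * w 1 + v 2 * w 2 + v 1 * w 2 + v 2 * w 1, ?_⟩
    unfold ip
    ring
  obtain ⟨a, ha⟩ := h v w
  obtain ⟨b, hb⟩ := h v v
  obtain ⟨c, hc⟩ := h w w
  rw [ha, hb, hc]
  exact ⟨2 * ((v 1 - v 2) * (w 1 - w 2)) * a + 3 * a ^ 2 - (v 1 - v 2) ^ 2 * c -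
    (w 1 - w 2) ^ 2 * b - 3 * b * c, by ring⟩

theorem sq7 {i : Fin 8} (d : Ld i) {v w : V3} (hv : Ot i v) (hw : Ot i w) :
    (7 : ℤ) ∣ ip v w ^ 2 - ip v v * ip w w := by
  obtain ⟨a, ha⟩ := d.h7 v w hv hw
  obtain ⟨b, hb⟩ := d.h7 v v hv hv
  obtain ⟨c, hc⟩ := d.h7 w w hw hw
  have ha' : ip v w = 3 * (d.m v * d.m w) + 7 * a := by linarith
  have hb' : ip v v = 3 * (d.m v * d.m v) + 7 * b := by linarith
  have hc' : ip w w = 3 * (d.m w * d.m w) + 7 * c := by linarith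
  rw [ha', hb', hc']
  exact ⟨6 * (d.m v * d.m w) * a + 7 * a ^ 2 - 3 * (d.m v * d.m v) * c -
    3 * (d.m w * d.m w) * b - 7 * b * c, by ring⟩

theorem t7 {i : Fin 8} (d : Ld i) {v w : V3} (hv : Ot i v) (hw : Ot i w) :
    (7 : ℤ) ∣ ip v (d.t w) - ip v w := by
  have h1 := d.h7 v w hv hw
  have h2 := d.h7 v (d.t w) hv ((d.h4 w).2 hw)
  rw [d.h5] at h2
  have := dvd_sub h2 h1
  have e : ip v (d.t w) - 3 * (d.m v * d.m w) - (ip v w - 3 * (d.m v * d.m w)) =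
    ip v (d.t w) - ip v w := by ring
  rwa [e] at this

/-- the sum over the inner products -/
theorem sum_b {n1 n2 : ℕ} (h2 : Sp7 n2) (C : ℤ → Prop) [DecidablePred C]
    (hC : ∀ b, C b → (7 : ℤ) ∣ b ^ 2 - n1 * n2) {B : ℤ} (hB : (n1 : ℤ) * n2 < B ^ 2) (hB0 : 0 < B) :
    ∑ b ∈ (Ioo (-B) B).filter C, ((cp n1 b n2 : ℤ) + cp7 n1 b n2) =
      ∑ i : Fin 8, ∑ v ∈ Vi i n1, ∑ w ∈ Vi i n2, if C (ip v w) then (1 : ℤ) else 0 := by
  have s1 : ∀ b, ((cp n1 b n2 : ℤ) + cp7 n1 b n2) = ∑ v ∈ vec n1, ∑ w ∈ vec n2,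
      (if ip v w = b then (1 + if ∀ i, (7 : ℤ) ∣ n2 * v i - ip v w * w i then (1 : ℤ) else 0)
        else 0) := by
    intro b
    unfold cp cp7
    rw [card_eq_sum, card_eq_sum, ← Finset.sum_add_distrib, Finset.sum_product]
    refine Finset.sum_congr rfl fun v _ => Finset.sum_congr rfl fun w _ => ?_
    by_cases hb : ip v w = b
    · subst hb
      simp only [if_true, true_and]
    · simp only [if_neg hb, hb, false_and, if_false, add_zero]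
  have s2 : ∑ b ∈ (Ioo (-B) B).filter C, ((cp n1 b n2 : ℤ) + cp7 n1 b n2) =
      ∑ v ∈ vec n1, ∑ w ∈ vec n2, (if C (ip v w) then
        (1 + if ∀ i, (7 : ℤ) ∣ n2 * v i - ip v w * w i then (1 : ℤ) else 0) else 0) := by
    rw [Finset.sum_congr rfl fun b _ => s1 b, Finset.sum_comm]
    refine Finset.sum_congr rfl fun v hv => ?_
    rw [Finset.sum_comm]
    refine Finset.sum_congr rfl fun w hw => ?_
    rw [Finset.sum_ite_eq]
    have hin : ip v w ∈ Ioo (-B) B := by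
      have h4 := Pool.Agent.N218.P21.cs v w
      rw [mem_vec.1 hv, mem_vec.1 hw] at h4
      have h5 : ip v w ^ 2 < B ^ 2 := lt_of_le_of_lt h4 hB
      have h6 := abs_lt_of_sq_lt_sq h5 hB0.le
      rw [abs_lt] at h6
      rw [Finset.mem_Ioo]
      exact h6
    simp only [Finset.mem_filter, hin, true_and]
  have s3 : ∀ v ∈ vec (n1 : ℤ), ∀ w ∈ vec (n2 : ℤ), (if C (ip v w) then
        (1 + if ∀ i, (7 : ℤ) ∣ n2 * v i - ip v w * w i then (1 : ℤ) else 0) else 0) =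
      ∑ i : Fin 8, (if Ot i v then (if Ot i w then (if C (ip v w) then (1 : ℤ) else 0) else 0)
        else 0) := by
    intro v hv w hw
    by_cases h : C (ip v w)
    · rw [if_pos h, ← ind_pair h2 (mem_vec.1 hv) (mem_vec.1 hw) (hC _ h)]
      refine Finset.sum_congr rfl fun i _ => ?_
      rw [if_pos h]
      split_ifs <;> norm_num
    · rw [if_neg h]
      symm
      refine Finset.sum_eq_zero fun i _ => ?_
      rw [if_neg h]
      split_ifs <;> rfl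
  rw [s2, Finset.sum_congr rfl fun v hv => Finset.sum_congr rfl fun w hw => s3 v hv w hw]
  have s4 : ∀ v ∈ vec (n1 : ℤ), ∑ w ∈ vec (n2 : ℤ), ∑ i : Fin 8,
      (if Ot i v then (if Ot i w then (if C (ip v w) then (1 : ℤ) else 0) else 0) else 0) =
      ∑ i : Fin 8, (if Ot i v then (∑ w ∈ Vi i n2, if C (ip v w) then (1 : ℤ) else 0) else 0) := by
    intro v _
    rw [Finset.sum_comm]
    refine Finset.sum_congr rfl fun i _ => ?_
    split_ifs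
    · unfold Vi
      rw [Finset.sum_filter]
    · exact Finset.sum_const_zero
  rw [Finset.sum_congr rfl s4, Finset.sum_comm]
  refine Finset.sum_congr rfl fun i _ => ?_
  unfold Vi
  rw [Finset.sum_filter]

theorem res7 {b r : ℤ} (hr : 0 < r) (hr' : r < 7) {x : ℤ} (h1 : (7 : ℤ) ∣ b ^ 2 - x)
    (h2 : (7 : ℤ) ∣ r ^ 2 - x) : (b % 7 = r ∧ (-b) % 7 ≠ r) ∨ (b % 7 ≠ r ∧ (-b) % 7 = r) := by
  have h3 : (7 : ℤ) ∣ (b - r) * (b + r) := by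
    have := dvd_sub h1 h2
    have e : b ^ 2 - x - (r ^ 2 - x) = (b - r) * (b + r) := by ring
    rwa [e] at this
  rcases Int.Prime.dvd_mul' (p := 7) (by norm_num) h3 with h | h
  · push_cast at h; left; omega
  · push_cast at h; right; omega

theorem res3 {b r : ℤ} (hr : 0 < r) (hr' : r < 3) {x : ℤ} (h1 : (3 : ℤ) ∣ b ^ 2 - x)
    (h2 : (3 : ℤ) ∣ r ^ 2 - x) : (b % 3 = r ∧ (-b) % 3 ≠ r) ∨ (b % 3 ≠ r ∧ (-b) % 3 = r) := by
  have h3 : (3 : ℤ) ∣ (b - r) * (b + r) := by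
    have := dvd_sub h1 h2
    have e : b ^ 2 - x - (r ^ 2 - x) = (b - r) * (b + r) := by ring
    rwa [e] at this
  rcases Int.Prime.dvd_mul' (p := 3) (by norm_num) h3 with h | h
  · push_cast at h; left; omega
  · push_cast at h; right; omega

/-- the pairs with given signs at `7` and `3` -/
theorem line4 {i : Fin 8} (d : Ld i) {n1 n2 : ℕ} {r7 r3 : ℤ} (h7 : 0 < r7) (h7' : r7 < 7)
    (hr7 : (7 : ℤ) ∣ r7 ^ 2 - n1 * n2) (h3 : 0 < r3) (h3' : r3 < 3)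
    (hr3 : (3 : ℤ) ∣ r3 ^ 2 - n1 * n2) :
    4 * ∑ v ∈ Vi i n1, ∑ w ∈ Vi i n2, (if ip v w % 7 = r7 ∧ ip v w % 3 = r3 then (1 : ℤ) else 0) =
      NN i n1 * NN i n2 := by
  rw [Finset.mul_sum, ← card_Vi i n1, ← nsmul_eq_mul, ← Finset.sum_const]
  refine Finset.sum_congr rfl fun v hv => ?_
  have k1 := sum_n i n2 (fun w => if ip v w % 7 = r7 ∧ ip v w % 3 = r3 then (1 : ℤ) else 0)
  have k2 := sum_t d n2 (fun w => if ip v w % 7 = r7 ∧ ip v w % 3 = r3 then (1 : ℤ) else 0)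
  have k3 := sum_t d n2 (fun w => if ip v (-w) % 7 = r7 ∧ ip v (-w) % 3 = r3 then (1 : ℤ) else 0)
  rw [k1] at k3
  have e : 4 * ∑ w ∈ Vi i n2, (if ip v w % 7 = r7 ∧ ip v w % 3 = r3 then (1 : ℤ) else 0) =
      ∑ w ∈ Vi i n2, ((if ip v w % 7 = r7 ∧ ip v w % 3 = r3 then (1 : ℤ) else 0) +
        (if ip v (-w) % 7 = r7 ∧ ip v (-w) % 3 = r3 then (1 : ℤ) else 0) +
        (if ip v (d.t w) % 7 = r7 ∧ ip v (d.t w) % 3 = r3 then (1 : ℤ) else 0) +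
        (if ip v (-d.t w) % 7 = r7 ∧ ip v (-d.t w) % 3 = r3 then (1 : ℤ) else 0)) := by
    rw [Finset.sum_add_distrib, Finset.sum_add_distrib, Finset.sum_add_distrib, k1, k2, k3]
    ring
  rw [e, ← card_Vi i n2, Finset.card_eq_sum_ones]
  push_cast
  refine Finset.sum_congr rfl fun w hw => ?_
  rw [mem_Vi] at hv hw
  have q1 := sq7 d hv.2 hw.2
  have q2 := sq3 v w
  rw [hv.1, hw.1] at q1 q2
  have q3 := t7 d hv.2 hw.2
  have q4 := d.h6 v w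
  rw [ip_neg_right, ip_neg_right]
  generalize ip v (d.t w) = b' at q3 q4 ⊢
  generalize ip v w = b at q1 q2 q3 q4 ⊢
  rcases res7 h7 h7' q1 hr7 with ⟨a1, a2⟩ | ⟨a1, a2⟩
  · rcases res3 h3 h3' q2 hr3 with ⟨a3, a4⟩ | ⟨a3, a4⟩
    · rw [if_pos ⟨a1, a3⟩, if_neg (by tauto), if_neg (by rintro ⟨-, h⟩; omega),
        if_neg (by rintro ⟨h, -⟩; omega)]
      norm_num
    · rw [if_neg (by tauto), if_neg (by tauto), if_pos (by omega),
        if_neg (by rintro ⟨h, -⟩; omega)]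
      norm_num
  · rcases res3 h3 h3' q2 hr3 with ⟨a3, a4⟩ | ⟨a3, a4⟩
    · rw [if_neg (by tauto), if_neg (by tauto), if_neg (by rintro ⟨h, -⟩; omega),
        if_pos (by omega)]
      norm_num
    · rw [if_neg (by tauto), if_pos ⟨a2, a4⟩, if_neg (by rintro ⟨h, -⟩; omega),
        if_neg (by rintro ⟨-, h⟩; omega)]
      norm_num

/-- the pairs with given sign at `7` -/
theorem line2 {i : Fin 8} (d : Ld i) {n1 n2 : ℕ} {r7 : ℤ} (h7 : 0 < r7) (h7' : r7 < 7)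
    (hr7 : (7 : ℤ) ∣ r7 ^ 2 - n1 * n2) :
    2 * ∑ v ∈ Vi i n1, ∑ w ∈ Vi i n2, (if ip v w % 7 = r7 then (1 : ℤ) else 0) =
      NN i n1 * NN i n2 := by
  rw [Finset.mul_sum, ← card_Vi i n1, ← nsmul_eq_mul, ← Finset.sum_const]
  refine Finset.sum_congr rfl fun v hv => ?_
  have k1 := sum_n i n2 (fun w => if ip v w % 7 = r7 then (1 : ℤ) else 0)
  have e : 2 * ∑ w ∈ Vi i n2, (if ip v w % 7 = r7 then (1 : ℤ) else 0) =
      ∑ w ∈ Vi i n2, ((if ip v w % 7 = r7 then (1 : ℤ) else 0) +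
        (if ip v (-w) % 7 = r7 then (1 : ℤ) else 0)) := by
    rw [Finset.sum_add_distrib, k1]
    ring
  rw [e, ← card_Vi i n2, Finset.card_eq_sum_ones]
  push_cast
  refine Finset.sum_congr rfl fun w hw => ?_
  rw [mem_Vi] at hv hw
  have q1 := sq7 d hv.2 hw.2
  rw [hv.1, hw.1] at q1
  rw [ip_neg_right]
  generalize ip v w = b at q1 ⊢
  rcases res7 h7 h7' q1 hr7 with ⟨a1, a2⟩ | ⟨a1, a2⟩
  · rw [if_pos a1, if_neg a2]
    norm_num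
  · rw [if_neg a1, if_pos a2]
    norm_num

theorem fin_rel {n1 n2 : ℕ} (h1 : Sp7 n1) (h2 : Sp7 n2) :
    6 * ∑ i : Fin 8, NN i n1 * NN i n2 = 3 * rr n1 * rr n2 + cc n1 * cc n2 := by
  have e1 := NN_Sp7 h1
  have e2 := NN_Sp7 h2
  rw [sum_NN2]
  unfold cc
  have m1 : ¬ (n1 : ℤ) % 7 = 0 := by unfold Sp7 at h1; omega
  have m2 : ¬ (n2 : ℤ) % 7 = 0 := by unfold Sp7 at h2; omega
  rw [if_neg m1, if_neg m2]
  have e3 : rr n1 = rr0 n1 + 3 * NN 0 n1 := by linarith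
  have e4 : rr n2 = rr0 n2 + 3 * NN 0 n2 := by linarith
  rw [e3, e4]
  ring

/-- **REL55** -/
theorem t_REL55 : S_REL55 := by
  intro n1 n2 h1 h2 _ _ r7 r3 h7 h7' hr7 h3 h3' hr3 B hB hB0
  rw [sum_b h2 (fun b : ℤ => b % 7 = r7 ∧ b % 3 = r3) ?_ hB hB0, ← fin_rel h1 h2]
  · have : ∀ i : Fin 8, 4 * ∑ v ∈ Vi i n1, ∑ w ∈ Vi i n2,
        (if ip v w % 7 = r7 ∧ ip v w % 3 = r3 then (1 : ℤ) else 0) = NN i n1 * NN i n2 := by
      intro i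
      obtain ⟨d⟩ := ld i
      exact line4 d h7 h7' hr7 h3 h3' hr3
    rw [← Finset.sum_congr rfl fun i _ => this i, ← Finset.mul_sum]
    ring
  · rintro b ⟨hb, -⟩
    have e : b ^ 2 - (n1 : ℤ) * n2 = (b - r7) * (b + r7) + (r7 ^ 2 - n1 * n2) := by ring
    rw [e]
    exact dvd_add (Dvd.dvd.mul_right (by omega) _) hr7

/-- **REL3** -/
theorem t_REL3 : S_REL3 := by
  intro n1 n2 h1 h2 _ _ r7 h7 h7' hr7 B hB hB0
  rw [sum_b h2 (fun b : ℤ => b % 7 = r7) ?_ hB hB0, ← fin_rel h1 h2]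
  · have : ∀ i : Fin 8, 2 * ∑ v ∈ Vi i n1, ∑ w ∈ Vi i n2,
        (if ip v w % 7 = r7 then (1 : ℤ) else 0) = NN i n1 * NN i n2 := by
      intro i
      obtain ⟨d⟩ := ld i
      exact line2 d h7 h7' hr7
    rw [← Finset.sum_congr rfl fun i _ => this i, ← Finset.mul_sum]
    ring
  · intro b hb
    have e : b ^ 2 - (n1 : ℤ) * n2 = (b - r7) * (b + r7) + (r7 ^ 2 - n1 * n2) := by ring
    rw [e]
    exact dvd_add (Dvd.dvd.mul_right (by omega) _) hr7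

end Pool.Agent.N973.P21
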