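import Pool.Agent.N973.P15.C1A
import Pool.Agent.N877.P21.Defs

/-!
# P21: the forms of discriminant `4` and the cusps as factorizations
-/

set_option autoImplicit false

namespace Pool.Agent.N973.P21.CA

open Finset
open Pool.Agent.N969.P15 (un)
open Pool.Agent.N877.P21
open Pool.Agent.N973.P15.C (B_even cop_of inj_gen exists_fac sign_of fo fo2 fb fg fb_inj fg_inj)

theorem seven : Prime (7 : ℤ) := by
  have := Nat.prime_iff_prime_int.1 (by norm_num : Nat.Prime 7)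
  exact_mod_cast this

/-- the forms entering `FA` -/
def SS (x M : ℤ) : Set (ℤ × ℤ × ℤ) :=
  {q | FmA q ∧ 0 < q.1 ∧ q.1 * x ^ 2 + q.2.1 * x * M + q.2.2 * M ^ 2 < 0}

theorem SS_fin (x M : ℤ) (hM : 0 < M) : (SS x M).Finite := by
  have h1 : ((Set.Icc (0:ℤ) (4*M^2)) ×ˢ (Set.Icc (-(4*M^2)) (4 * M^2))).Finite :=
    (Set.finite_Icc _ _).prod (Set.finite_Icc _ _)
  refine Set.Finite.of_injOn (f := fun q : ℤ×ℤ×ℤ => (q.1, 2 * q.1 * x + q.2.1 * M)) ?_ ?_ h1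
  · rintro ⟨A, B, C⟩ ⟨⟨hd, _, _⟩, hA, hN⟩
    simp only at hd hA hN
    have key : (2*A*x+B*M)^2 = 4*A*(A*x^2+B*x*M+C*M^2) + 4*M^2 := by
      linear_combination M^2 * hd
    have h2 : A * (A*x^2+B*x*M+C*M^2) ≤ -A := by nlinarith
    have h3 : 0 ≤ (2*A*x+B*M)^2 := sq_nonneg _
    have h4 : (2*A*x+B*M)^2 ≤ 4*M^2 := by nlinarith
    have h5 : |2*A*x+B*M| ≤ (2*A*x+B*M)^2 := by
      rw [← sq_abs]
      have := abs_nonneg (2*A*x+B*M)
      nlinarith [Int.le_self_sq (|2*A*x+B*M|)]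
    have h6 := abs_le.1 (h5.trans h4)
    simp only [Set.mem_prod, Set.mem_Icc]
    refine ⟨⟨hA.le, by nlinarith⟩, h6.1, h6.2⟩
  · rintro ⟨A, B, C⟩ ⟨⟨hd, _, _⟩, hA, hN⟩ ⟨A', B', C'⟩ ⟨⟨hd', _, _⟩, hA', hN'⟩ h
    simp only [Prod.mk.injEq] at h hd hd' hA hA'
    obtain ⟨rfl, h2⟩ := h
    have h3 : B * M = B' * M := by linarith
    have h4 : B = B' := mul_right_cancel₀ hM.ne' h3
    subst h4
    have h5 : A * C = A * C' := by linarith
    have h6 : C = C' := mul_left_cancel₀ hA.ne' h5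
    rw [h6]

open Classical in
/-- the sum over the forms with a given residue of `B` -/
noncomputable def G (r x M : ℤ) : ℤ :=
  if h : 0 < M then ∑ q ∈ (SS_fin x M h).toFinset.filter (fun q => q.2.1 % 6 = r), cA q else 0

theorem FA_eq (x M : ℤ) (hM : 0 < M) : FA x M = G 2 x M + G 4 x M := by
  unfold FA G
  rw [dif_pos hM, dif_pos hM]
  rw [finsum_eq_sum_of_support_subset (s := (SS_fin x M hM).toFinset)]
  · rw [← Finset.sum_union]
    · rw [← Finset.filter_or]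
      symm
      rw [Finset.sum_filter]
      refine Finset.sum_congr rfl fun q hq => ?_
      have hq' : q ∈ SS x M := by simpa using hq
      rw [if_pos hq'.1.2.2.2]
      exact (if_pos hq').symm
    · rw [Finset.disjoint_left]
      intro q h1 h2
      have e1 := (Finset.mem_filter.1 h1).2
      have e2 := (Finset.mem_filter.1 h2).2
      omega
  · intro q hq
    rw [Function.mem_support] at hq
    have : q ∈ SS x M := by
      by_contra hn
      exact hq (if_neg hn)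
    simpa using this

theorem G_flip (x M : ℤ) (hM : 0 < M) : G 4 x M = -G 2 (M - x) M := by
  unfold G
  rw [dif_pos hM, dif_pos hM, ← Finset.sum_neg_distrib]
  refine Finset.sum_nbij' (fun q => (q.1, -(2 * q.1 + q.2.1), q.1 + q.2.1 + q.2.2))
    (fun q => (q.1, -(2 * q.1 + q.2.1), q.1 + q.2.1 + q.2.2)) ?_ ?_ ?_ ?_ ?_
  · rintro ⟨A, B, C⟩ h
    simp only [Finset.mem_filter, Set.Finite.mem_toFinset, SS, Set.mem_ofPred_eq, FmA] at h ⊢
    obtain ⟨⟨⟨h1, h2a, h2b, h3⟩, h4, h5⟩, h6⟩ := h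
    have h2 := And.intro h2a h2b
    refine ⟨⟨⟨by linear_combination h1, h2.1, h2.2, by omega⟩, h4, ?_⟩, by omega⟩
    calc _ = A * x ^ 2 + B * x * M + C * M ^ 2 := by ring
      _ < 0 := h5
  · rintro ⟨A, B, C⟩ h
    simp only [Finset.mem_filter, Set.Finite.mem_toFinset, SS, Set.mem_ofPred_eq, FmA] at h ⊢
    obtain ⟨⟨⟨h1, h2a, h2b, h3⟩, h4, h5⟩, h6⟩ := h
    have h2 := And.intro h2a h2b
    refine ⟨⟨⟨by linear_combination h1, h2.1, h2.2, by omega⟩, h4, ?_⟩, by omega⟩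
    calc _ = A * (M - x) ^ 2 + B * (M - x) * M + C * M ^ 2 := by ring
      _ < 0 := h5
  · rintro ⟨A, B, C⟩ h
    simp only [Prod.mk.injEq]
    refine ⟨trivial, by ring, by ring⟩
  · rintro ⟨A, B, C⟩ h
    simp only [Prod.mk.injEq]
    refine ⟨trivial, by ring, by ring⟩
  · rintro ⟨A, B, C⟩ h
    simp only [Finset.mem_filter, Set.Finite.mem_toFinset, SS, Set.mem_ofPred_eq, FmA] at h
    obtain ⟨⟨⟨h1, h2, h3⟩, h4, h5⟩, h6⟩ := h
    have hB := B_even h1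
    unfold cA
    simp only
    rw [if_neg (by omega : ¬ B % 6 = 2), if_pos (by omega : -(2 * A + B) % 6 = 2)]
    by_cases hA : (2 : ℤ) ∣ A ∧ (2 : ℤ) ∣ C
    · rw [if_pos hA, if_pos ⟨hA.1, by omega⟩]
      norm_num
    · rw [if_neg hA, if_neg]
      · norm_num
      · rintro ⟨k1, k2⟩
        exact hA ⟨k1, by omega⟩

/-! ### the factorizations -/

/-- the factorizations `(a x + c y) (a' x + c' y)` of determinant `d` -/
def FF (d x n : ℤ) : Set (ℤ × ℤ × ℤ × ℤ) :=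
  {t | 0 < t.1 ∧ 0 < t.2.1 ∧ ¬ (7 : ℤ) ∣ t.1 ∧ ((3 : ℤ) ∣ t.2.1 ∧ ¬ (7 : ℤ) ∣ t.2.1) ∧
    t.1 * t.2.2.2 - t.2.1 * t.2.2.1 = d ∧ 0 < -(t.1 * x + t.2.2.1 * n) ∧
    0 < t.2.1 * x + t.2.2.2 * n}

/-- the set of factorization data -/
def Om (N : ℕ) : Finset (Σ _ : ℕ, ℕ × ℕ) :=
  ((range N).filter (fun T => 3 ∣ T)).sigma fun T =>
    ((N - T).divisors.filter (fun a => ¬ 7 ∣ a)) ×ˢ (T.divisors.filter (fun a' => 3 ∣ a' ∧ ¬ 7 ∣ a'))

/-- the condition on the cusp -/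
def Cd (n N : ℕ) (x : ℤ) (w : Σ _ : ℕ, ℕ × ℕ) : Prop :=
  (n : ℤ) ∣ (w.2.1 : ℤ) * x + ((w.1 / w.2.2 : ℕ) : ℤ) ∧
  (n : ℤ) ∣ (w.2.2 : ℤ) * x - (((N - w.1) / w.2.1 : ℕ) : ℤ)

instance (n N : ℕ) (x : ℤ) (w : Σ _ : ℕ, ℕ × ℕ) : Decidable (Cd n N x w) := by
  unfold Cd; infer_instance

/-- the factorization attached to the data -/
def fw (n N : ℕ) (x : ℤ) (w : Σ _ : ℕ, ℕ × ℕ) : ℤ × ℤ × ℤ × ℤ :=
  (w.2.1, w.2.2, (-((w.1 / w.2.2 : ℕ) : ℤ) - (w.2.1 : ℤ) * x) / n,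
    ((((N - w.1) / w.2.1 : ℕ) : ℤ) - (w.2.2 : ℤ) * x) / n)

/-- the facts about the data -/
structure Fc (n N : ℕ) (x : ℤ) (T a a' : ℕ) (X Y : ℕ) (c c' : ℤ) : Prop where
  hX : T / a' = X
  hY : (N - T) / a = Y
  hT : T = a' * X
  hS : N - T = a * Y
  h3 : (a : ℤ) * Y + a' * X = N
  pa : 0 < a
  pa' : 0 < a'
  pX : 0 < X
  pY : 0 < Y
  ha : ¬ 7 ∣ a
  ha' : 3 ∣ a' ∧ ¬ 7 ∣ a'
  hc : -(X : ℤ) - a * x = n * c
  hc' : (Y : ℤ) - a' * x = n * c'

theorem facts (n N : ℕ) (hn : 0 < n) (x : ℤ) (T a a' : ℕ) (h : (⟨T, (a, a')⟩ : Σ _ : ℕ, ℕ × ℕ) ∈ Om N)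
    (hC : Cd n N x ⟨T, (a, a')⟩) : ∃ X Y : ℕ, ∃ c c' : ℤ, Fc n N x T a a' X Y c c' ∧
      fw n N x ⟨T, (a, a')⟩ = ((a : ℤ), (a' : ℤ), c, c') := by
  unfold Om at h
  simp only [Finset.mem_sigma, Finset.mem_filter, Finset.mem_range, Finset.mem_product,
    Nat.mem_divisors] at h
  obtain ⟨⟨hT, hT5⟩, ⟨⟨h1, h2⟩, h3⟩, ⟨h4, h5⟩, h6⟩ := h
  obtain ⟨Y, hY⟩ := h1
  obtain ⟨X, hX⟩ := h4
  have pa : 0 < a := by
    rcases Nat.eq_zero_or_pos a with h | h
    · subst h; simp at hY; omega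
    · exact h
  have pa' : 0 < a' := by
    rcases Nat.eq_zero_or_pos a' with h | h
    · subst h; simp at hX; exact absurd hX h5
    · exact h
  have eX : T / a' = X := by rw [hX]; exact Nat.mul_div_cancel_left _ pa'
  have eY : (N - T) / a = Y := by rw [hY]; exact Nat.mul_div_cancel_left _ pa
  have pX : 0 < X := by
    rcases Nat.eq_zero_or_pos X with h | h
    · subst h; simp at hX; exact absurd hX h5
    · exact h
  have pY : 0 < Y := by
    rcases Nat.eq_zero_or_pos Y with h | h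
    · subst h; simp at hY; omega
    · exact h
  have e3 : (a : ℤ) * Y + a' * X = N := by
    have : a * Y + a' * X = N := by omega
    exact_mod_cast this
  unfold Cd at hC
  simp only at hC
  rw [eX, eY] at hC
  obtain ⟨⟨k, hk⟩, ⟨k', hk'⟩⟩ := hC
  have hc : -(X : ℤ) - a * x = n * (-k) := by linear_combination -hk
  have hc' : (Y : ℤ) - a' * x = n * (-k') := by linear_combination -hk'
  have hm' : (n : ℤ) ≠ 0 := by exact_mod_cast hn.ne'
  refine ⟨X, Y, -k, -k', ⟨eX, eY, hX, hY, e3, pa, pa', pX, pY, h3, h6, hc, hc'⟩, ?_⟩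
  unfold fw
  simp only
  rw [eX, eY, hc, hc', Int.mul_ediv_cancel_left _ hm', Int.mul_ediv_cancel_left _ hm']

/-- the data and the factorizations -/
theorem bijOn (n d : ℕ) (hn : 0 < n) (hd : 0 < d) (x : ℤ) :
    Set.BijOn (fw n (d * n) x) ((Om (d * n)).filter (Cd n (d * n) x)) (FF d x n) := by
  have hm' : (n : ℤ) ≠ 0 := by exact_mod_cast hn.ne'
  refine ⟨?_, ?_, ?_⟩
  · rintro ⟨T, a, a'⟩ hw
    rw [Finset.mem_coe, Finset.mem_filter] at hw
    obtain ⟨X, Y, c, c', f, hf⟩ := facts n (d * n) hn x T a a' hw.1 hw.2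
    rw [hf]
    have e1 : (n : ℤ) * (a * c' - a' * c) = n * d := by
      have := f.h3
      push_cast at this
      linear_combination this - a * f.hc' + a' * f.hc
    have k1 : (0 : ℤ) < a := by exact_mod_cast f.pa
    have k2 : (0 : ℤ) < a' := by exact_mod_cast f.pa'
    have k3 : ¬ (7 : ℤ) ∣ a := by exact_mod_cast f.ha
    have k4 : (3 : ℤ) ∣ a' ∧ ¬ (7 : ℤ) ∣ a' := by exact_mod_cast f.ha'
    refine ⟨k1, k2, k3, k4, mul_left_cancel₀ hm' e1, ?_, ?_⟩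
    · have : -((a : ℤ) * x + c * n) = X := by linear_combination f.hc
      show 0 < -((a : ℤ) * x + c * n)
      rw [this]
      exact_mod_cast f.pX
    · have : (a' : ℤ) * x + c' * n = Y := by linear_combination -f.hc'
      show 0 < (a' : ℤ) * x + c' * n
      rw [this]
      exact_mod_cast f.pY
  · rintro ⟨T, a, a'⟩ hw ⟨T1, a1, a1'⟩ hw1 e
    rw [Finset.mem_coe, Finset.mem_filter] at hw hw1
    obtain ⟨X, Y, c, c', f, hf⟩ := facts n (d * n) hn x T a a' hw.1 hw.2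
    obtain ⟨X1, Y1, c1, c1', f1, hf1⟩ := facts n (d * n) hn x T1 a1 a1' hw1.1 hw1.2
    rw [hf, hf1] at e
    simp only [Prod.mk.injEq] at e
    obtain ⟨e1, e2, e3, e4⟩ := e
    have k1 : a = a1 := by exact_mod_cast e1
    have k2 : a' = a1' := by exact_mod_cast e2
    subst k1 k2 e3 e4
    have k7 : X = X1 := by
      have h1 := f.hc
      have h2 := f1.hc
      have : (X : ℤ) = X1 := by linarith
      exact_mod_cast this
    have k8 : T = T1 := by rw [f.hT, f1.hT, k7]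
    subst k8
    rfl
  · rintro ⟨a, a', c, c'⟩ ⟨pa, pa', h3, h5, hdt, pX, pY⟩
    simp only at pa pa' h3 h5 hdt pX pY
    lift a to ℕ using pa.le with a
    lift a' to ℕ using pa'.le with a'
    obtain ⟨X, hX⟩ : ∃ X : ℤ, X = -((a : ℤ) * x + c * n) := ⟨_, rfl⟩
    obtain ⟨Y, hY⟩ : ∃ Y : ℤ, Y = (a' : ℤ) * x + c' * n := ⟨_, rfl⟩
    rw [← hX] at pX
    rw [← hY] at pY
    lift X to ℕ using pX.le with X
    lift Y to ℕ using pY.le with Y
    have e0 : (a : ℤ) * Y + a' * X = d * n := by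
      rw [hX, hY]
      linear_combination (n : ℤ) * hdt
    have e0' : a * Y + a' * X = d * n := by exact_mod_cast e0
    have na : 0 < a := by exact_mod_cast pa
    have na' : 0 < a' := by exact_mod_cast pa'
    have nX : 0 < X := by exact_mod_cast pX
    have nY : 0 < Y := by exact_mod_cast pY
    have n3 : ¬ 7 ∣ a := by exact_mod_cast h3
    have n5 : 3 ∣ a' ∧ ¬ 7 ∣ a' := by exact_mod_cast h5
    have eS : d * n - a' * X = a * Y := by omega
    have pXa : 0 < a' * X := Nat.mul_pos na' nX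
    have pYa : 0 < a * Y := Nat.mul_pos na nY
    have e1 : (d * n - a' * X) / a = Y := by rw [eS]; exact Nat.mul_div_cancel_left _ na
    have e2 : a' * X / a' = X := Nat.mul_div_cancel_left _ na'
    have e3 : -(X : ℤ) - a * x = n * c := by rw [hX]; ring
    have e4 : (Y : ℤ) - a' * x = n * c' := by rw [hY]; ring
    refine ⟨⟨a' * X, (a, a')⟩, ?_, ?_⟩
    · rw [Finset.mem_coe, Finset.mem_filter]
      refine ⟨?_, ?_⟩
      · unfold Om
        simp only [Finset.mem_sigma, Finset.mem_filter, Finset.mem_range, Finset.mem_product,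
          Nat.mem_divisors]
        rw [eS]
        refine ⟨⟨by omega, Dvd.dvd.mul_right n5.1 _⟩,
          ⟨⟨Dvd.intro _ rfl, by omega⟩, n3⟩, ⟨Dvd.intro _ rfl, by omega⟩, n5⟩
      · unfold Cd
        simp only
        rw [e1, e2]
        exact ⟨⟨-c, by linear_combination -e3⟩, ⟨-c', by linear_combination -e4⟩⟩
    · unfold fw
      simp only
      rw [e1, e2, e3, e4, Int.mul_ediv_cancel_left _ hm', Int.mul_ediv_cancel_left _ hm']

theorem FF_fin (n d : ℕ) (hn : 0 < n) (hd : 0 < d) (x : ℤ) : (FF d x n).Finite := by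
  rw [← (bijOn n d hn hd x).image_eq]
  exact (Finset.finite_toSet _).image _

theorem FF_card (n d : ℕ) (hn : 0 < n) (hd : 0 < d) (x : ℤ) :
    (FF d x n).ncard = ((Om (d * n)).filter (Cd n (d * n) x)).card := by
  rw [← (bijOn n d hn hd x).image_eq, (bijOn n d hn hd x).injOn.ncard_image,
    Set.ncard_coe_finset]

/-- the forms with `B = 2 mod 6` -/
def S2 (x n : ℤ) : Set (ℤ × ℤ × ℤ) := {q | q ∈ SS x n ∧ q.2.1 % 6 = 2}

theorem S2_fin (x n : ℤ) (hn : 0 < n) : (S2 x n).Finite :=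
  (SS_fin x n hn).subset fun _ h => h.1

/-- the primitive factorizations -/
def FP (x n : ℤ) : Set (ℤ × ℤ × ℤ × ℤ) :=
  {t | t ∈ FF 2 x n ∧ ¬ ((2 : ℤ) ∣ t.1 ∧ (2 : ℤ) ∣ t.2.2.1) ∧ ¬ ((2 : ℤ) ∣ t.2.1 ∧ (2 : ℤ) ∣ t.2.2.2)}

/-- the primitive forms -/
theorem bijP (x n : ℤ) (hn : 0 < n) : Set.BijOn fo (FP x n)
    {q | q ∈ S2 x n ∧ ¬ ((2 : ℤ) ∣ q.1 ∧ (2 : ℤ) ∣ q.2.2)} := by
  refine ⟨?_, ?_, ?_⟩
  · rintro ⟨a, a', c, c'⟩ ⟨⟨pa, pa', h3, h5, hdt, pX, pY⟩, hp1, hp2⟩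
    simp only at pa pa' h3 h5 hdt pX pY hp1 hp2
    have hform : a * a' * x ^ 2 + (a * c' + a' * c) * x * n + c * c' * n ^ 2 < 0 := by
      have e : a * a' * x ^ 2 + (a * c' + a' * c) * x * n + c * c' * n ^ 2 =
        -(-(a * x + c * n) * (a' * x + c' * n)) := by ring
      rw [e]
      have := mul_pos pX pY
      linarith
    have hB : (a * c' + a' * c) % 6 = 2 := by
      obtain ⟨l, hl⟩ := h5.1
      have e2 : a' * c = 3 * (l * c) := by rw [hl]; ring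
      generalize l * c = z at e2
      omega
    refine ⟨⟨⟨⟨?_, ?_, ?_, Or.inl hB⟩, mul_pos pa pa', hform⟩, hB⟩, ?_⟩
    · show (a * c' + a' * c) ^ 2 - 4 * (a * a') * (c * c') = 4
      linear_combination (a * c' - a' * c + 2) * hdt
    · exact Dvd.dvd.mul_left h5.1 a
    · intro h
      rcases seven.dvd_or_dvd h with h | h
      · exact h3 h
      · exact h5.2 h
    · rintro ⟨k1, k2⟩
      simp only [fo] at k1 k2
      have m1 := Int.prime_two.dvd_or_dvd k1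
      have m2 := Int.prime_two.dvd_or_dvd k2
      have m3 : (2 : ℤ) ∣ a * c' - a' * c := ⟨1, by rw [hdt]; rfl⟩
      rcases m1 with m1 | m1
      · rcases m2 with m2 | m2
        · exact hp1 ⟨m1, m2⟩
        · have m4 : (2 : ℤ) ∣ a' * c := by
            have := dvd_sub (Dvd.dvd.mul_right m1 c') m3
            rwa [sub_sub_cancel] at this
          rcases Int.prime_two.dvd_or_dvd m4 with m5 | m5
          · exact hp2 ⟨m5, m2⟩
          · exact hp1 ⟨m1, m5⟩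
      · rcases m2 with m2 | m2
        · have m4 : (2 : ℤ) ∣ a * c' := by
            have := dvd_add m3 (Dvd.dvd.mul_right m1 c)
            rwa [sub_add_cancel] at this
          rcases Int.prime_two.dvd_or_dvd m4 with m5 | m5
          · exact hp1 ⟨m5, m2⟩
          · exact hp2 ⟨m1, m5⟩
        · exact hp2 ⟨m1, m2⟩
  · rintro ⟨a, a', c, c'⟩ ⟨⟨pa, pa', h3, h5, hdt, pX, pY⟩, hp1, hp2⟩ ⟨a1, a1', c1, c1'⟩
      ⟨⟨pa1, pa1', h31, h51, hdt1, pX1, pY1⟩, hp11, hp21⟩ e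
    simp only [fo, Prod.mk.injEq] at pa pa' h3 h5 hdt pX pY hp1 hp2 pa1 pa1' h31 h51 hdt1 pX1 pY1 hp11 hp21 e
    obtain ⟨e1, e2, e3⟩ := e
    have hc : IsCoprime a c := cop_of ⟨c', -a', by linarith⟩ hp1
    have hc1 : IsCoprime a1 c1 := cop_of ⟨c1', -a1', by linarith⟩ hp11
    obtain ⟨k1, k2, k3, k4⟩ := inj_gen pa' pa1' hc hc1 hdt hdt1 pa e1 e2
    rw [k1, k2, k3, k4]
  · rintro ⟨A, B, C⟩ ⟨⟨⟨⟨hd, h15, h13, _⟩, hA, hN⟩, h22⟩, hp⟩
    simp only at hd h15 h13 hA hN h22 hp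
    obtain ⟨γ, hγ⟩ : ∃ γ, B = 2 * γ + 2 := ⟨(B - 2) / 2, by omega⟩
    subst hγ
    have hAC : A * C = γ * (γ + 2) := by linarith
    obtain ⟨a, a', c, c', pa, pa', ha, hc, hc', hC, hcop⟩ := exists_fac hA hAC
    have hdt : a * c' - a' * c = 2 := by rw [← hc', ← hc]; ring
    have hγ15 : γ % 3 = 0 := by omega
    have n3 : ¬ (7 : ℤ) ∣ a' := by
      intro h
      exact h13 (by rw [ha]; exact Dvd.dvd.mul_left h _)
    have n5 : ¬ (3 : ℤ) ∣ a := by
      intro h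
      have : (3 : ℤ) ∣ γ + 2 := by rw [hc']; exact Dvd.dvd.mul_right h _
      omega
    have d3 : ¬ (7 : ℤ) ∣ a := by
      intro h
      exact h13 (by rw [ha]; exact Dvd.dvd.mul_right h _)
    have d5' : (3 : ℤ) ∣ a' := by
      have : (3 : ℤ) ∣ a * a' := by rw [← ha]; exact h15
      exact (Int.Prime.dvd_mul' (by norm_num) this).resolve_left n5
    have d5 := And.intro d5' n3
    have hs : 0 < -(a * x + c * n) ∧ 0 < a' * x + c' * n := by
      refine sign_of pa pa' (by norm_num : (0 : ℤ) < 2) hn hdt ?_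
      have e : a * a' * x ^ 2 + (a * c' + a' * c) * x * n + c * c' * n ^ 2 =
        A * x ^ 2 + (2 * γ + 2) * x * n + C * n ^ 2 := by
        rw [ha, hC, ← hc', ← hc]
        ring
      rw [e]
      exact hN
    refine ⟨(a, a', c, c'), ⟨⟨pa, pa', d3, d5, hdt, hs.1, hs.2⟩, ?_, ?_⟩, ?_⟩
    · rintro ⟨k1, k2⟩
      simp only at k1 k2
      have := hcop.isUnit_of_dvd' k1 k2
      rw [Int.isUnit_iff] at this
      omega
    · rintro ⟨k1, k2⟩
      simp only at k1 k2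
      exact hp ⟨by rw [ha]; exact Dvd.dvd.mul_left k1 _, by rw [hC]; exact Dvd.dvd.mul_left k2 _⟩
    · simp only [fo, Prod.mk.injEq]
      exact ⟨ha.symm, by rw [← hc', ← hc]; ring, hC.symm⟩

/-- the imprimitive forms -/
theorem bijI (x n : ℤ) (hn : 0 < n) : Set.BijOn fo2 (FF 1 x n)
    {q | q ∈ S2 x n ∧ ((2 : ℤ) ∣ q.1 ∧ (2 : ℤ) ∣ q.2.2)} := by
  refine ⟨?_, ?_, ?_⟩
  · rintro ⟨a, a', c, c'⟩ ⟨pa, pa', h3, h5, hdt, pX, pY⟩
    simp only at pa pa' h3 h5 hdt pX pY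
    have hform : 2 * (a * a') * x ^ 2 + 2 * (a * c' + a' * c) * x * n + 2 * (c * c') * n ^ 2 < 0 := by
      have e : 2 * (a * a') * x ^ 2 + 2 * (a * c' + a' * c) * x * n + 2 * (c * c') * n ^ 2 =
        -(2 * (-(a * x + c * n) * (a' * x + c' * n))) := by ring
      rw [e]
      have := mul_pos pX pY
      linarith
    have hB : (2 * (a * c' + a' * c)) % 6 = 2 := by
      obtain ⟨l, hl⟩ := h5.1
      have e2 : a' * c = 3 * (l * c) := by rw [hl]; ring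
      generalize l * c = z at e2
      omega
    refine ⟨⟨⟨⟨?_, ?_, ?_, Or.inl hB⟩, ?_, hform⟩, hB⟩, ⟨a * a', rfl⟩, ⟨c * c', rfl⟩⟩
    · show (2 * (a * c' + a' * c)) ^ 2 - 4 * (2 * (a * a')) * (2 * (c * c')) = 4
      linear_combination 4 * (a * c' - a' * c + 1) * hdt
    · exact Dvd.dvd.mul_left (Dvd.dvd.mul_left h5.1 a) 2
    · intro h
      rcases seven.dvd_or_dvd h with h | h
      · norm_num at h
      · rcases seven.dvd_or_dvd h with h | h
        · exact h3 h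
        · exact h5.2 h
    · show 0 < 2 * (a * a')
      have := mul_pos pa pa'
      linarith
  · rintro ⟨a, a', c, c'⟩ ⟨pa, pa', h3, h5, hdt, pX, pY⟩ ⟨a1, a1', c1, c1'⟩
      ⟨pa1, pa1', h31, h51, hdt1, pX1, pY1⟩ e
    simp only [fo2, Prod.mk.injEq] at pa pa' h3 h5 hdt pX pY pa1 pa1' h31 h51 hdt1 pX1 pY1 e
    obtain ⟨e1, e2, e3⟩ := e
    have hc : IsCoprime a c := ⟨c', -a', by linarith⟩
    have hc1 : IsCoprime a1 c1 := ⟨c1', -a1', by linarith⟩
    obtain ⟨k1, k2, k3, k4⟩ := inj_gen pa' pa1' hc hc1 hdt hdt1 pa (by linarith) (by linarith)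
    rw [k1, k2, k3, k4]
  · rintro ⟨A, B, C⟩ ⟨⟨⟨⟨hd, h15, h13, _⟩, hA, hN⟩, h22⟩, ⟨A0, rfl⟩, ⟨C0, rfl⟩⟩
    simp only at hd h15 h13 hA hN h22
    obtain ⟨B0, hB0⟩ : ∃ B0, B = 2 * B0 := ⟨B / 2, by omega⟩
    subst hB0
    have hd' : B0 ^ 2 = 4 * (A0 * C0) + 1 := by linarith
    have hodd : B0 % 2 = 1 := by
      rcases Int.even_or_odd B0 with h | h
      · exfalso
        obtain ⟨k, hk⟩ := h
        rw [hk] at hd'
        have : (4 : ℤ) ∣ 1 := ⟨k ^ 2 - A0 * C0, by linear_combination -hd'⟩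
        norm_num at this
      · exact Int.odd_iff.1 h
    obtain ⟨γ, hγ⟩ : ∃ γ, B0 = 2 * γ + 1 := ⟨(B0 - 1) / 2, by omega⟩
    subst hγ
    have hAC : A0 * C0 = γ * (γ + 1) := by linarith
    have hA0 : 0 < A0 := by linarith
    obtain ⟨a, a', c, c', pa, pa', ha, hc, hc', hC, hcop⟩ := exists_fac hA0 hAC
    have hdt : a * c' - a' * c = 1 := by rw [← hc', ← hc]; ring
    have hγ15 : γ % 3 = 0 := by omega
    have n3 : ¬ (7 : ℤ) ∣ a' := by
      intro h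
      exact h13 (by rw [ha]; exact Dvd.dvd.mul_left (Dvd.dvd.mul_left h _) _)
    have n5 : ¬ (3 : ℤ) ∣ a := by
      intro h
      have : (3 : ℤ) ∣ γ + 1 := by rw [hc']; exact Dvd.dvd.mul_right h _
      omega
    have d3 : ¬ (7 : ℤ) ∣ a := by
      intro h
      exact h13 (by rw [ha]; exact Dvd.dvd.mul_left (Dvd.dvd.mul_right h _) _)
    have d5' : (3 : ℤ) ∣ a' := by
      have : (3 : ℤ) ∣ a * a' := by rw [← ha]; omega
      exact (Int.Prime.dvd_mul' (by norm_num) this).resolve_left n5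
    have d5 := And.intro d5' n3
    have hs : 0 < -(a * x + c * n) ∧ 0 < a' * x + c' * n := by
      refine sign_of pa pa' (by norm_num : (0 : ℤ) < 1) hn hdt ?_
      have e : 2 * (a * a' * x ^ 2 + (a * c' + a' * c) * x * n + c * c' * n ^ 2) =
        2 * A0 * x ^ 2 + 2 * (2 * γ + 1) * x * n + 2 * C0 * n ^ 2 := by
        rw [ha, hC, ← hc', ← hc]
        ring
      linarith
    refine ⟨(a, a', c, c'), ⟨pa, pa', d3, d5, hdt, hs.1, hs.2⟩, ?_⟩
    simp only [fo2, Prod.mk.injEq]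
    exact ⟨by rw [ha], by rw [← hc', ← hc]; ring, by rw [hC]⟩

theorem FF_split (x n : ℤ) : FF 2 x n = FP x n ∪ (fb '' FF 1 x n ∪ fg '' FF 1 x n) := by
  ext ⟨a, a', c, c'⟩
  constructor
  · rintro ⟨pa, pa', h3, h5, hdt, pX, pY⟩
    simp only at pa pa' h3 h5 hdt pX pY
    by_cases h1 : (2 : ℤ) ∣ a ∧ (2 : ℤ) ∣ c
    · right; left
      obtain ⟨⟨k, rfl⟩, ⟨l, rfl⟩⟩ := h1
      refine ⟨(k, a', l, c'), ⟨by show 0 < k; omega, pa', by show ¬ (7 : ℤ) ∣ k; omega, h5, ?_, ?_, pY⟩, rfl⟩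
      · show k * c' - a' * l = 1
        have : 2 * (k * c' - a' * l) = 2 := by linarith
        linarith
      · show 0 < -(k * x + l * n)
        have : 0 < 2 * -(k * x + l * n) := by linarith
        linarith
    · by_cases h2 : (2 : ℤ) ∣ a' ∧ (2 : ℤ) ∣ c'
      · right; right
        obtain ⟨⟨k, rfl⟩, ⟨l, rfl⟩⟩ := h2
        have q1 : 0 < k := by linarith
        have q2 : (3 : ℤ) ∣ k ∧ ¬ (7 : ℤ) ∣ k := by omega
        refine ⟨(a, k, c, l), ⟨pa, q1, h3, q2, ?_, pX, ?_⟩, rfl⟩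
        · show a * l - k * c = 1
          have : 2 * (a * l - k * c) = 2 := by linarith
          linarith
        · show 0 < k * x + l * n
          have : 0 < 2 * (k * x + l * n) := by linarith
          linarith
      · left
        exact ⟨⟨pa, pa', h3, h5, hdt, pX, pY⟩, h1, h2⟩
  · rintro (h | ⟨⟨b, b', e, e'⟩, ⟨pa, pa', h3, h5, hdt, pX, pY⟩, h⟩ |
      ⟨⟨b, b', e, e'⟩, ⟨pa, pa', h3, h5, hdt, pX, pY⟩, h⟩)
    · exact h.1
    · simp only [fb, Prod.mk.injEq] at h pa pa' h3 h5 hdt pX pY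
      obtain ⟨rfl, rfl, rfl, rfl⟩ := h
      refine ⟨?_, pa', by show ¬ (7 : ℤ) ∣ 2 * b; omega, h5, ?_, ?_, pY⟩
      · show 0 < 2 * b
        linarith
      · show 2 * b * e' - b' * (2 * e) = 2
        linarith
      · show 0 < -(2 * b * x + 2 * e * n)
        linarith
    · simp only [fg, Prod.mk.injEq] at h pa pa' h3 h5 hdt pX pY
      obtain ⟨rfl, rfl, rfl, rfl⟩ := h
      refine ⟨pa, ?_, h3, by show (3 : ℤ) ∣ 2 * b' ∧ ¬ (7 : ℤ) ∣ 2 * b'; omega, ?_, pX, ?_⟩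
      · show 0 < 2 * b'
        linarith
      · show b * (2 * e') - 2 * b' * e = 2
        linarith
      · show 0 < 2 * b' * x + 2 * e' * n
        linarith

theorem disj1 (x n : ℤ) : Disjoint (FP x n) (fb '' FF 1 x n ∪ fg '' FF 1 x n) := by
  rw [Set.disjoint_left]
  rintro t ⟨-, h1, h2⟩ (⟨s, -, rfl⟩ | ⟨s, -, rfl⟩)
  · exact h1 ⟨⟨s.1, rfl⟩, ⟨s.2.2.1, rfl⟩⟩
  · exact h2 ⟨⟨s.2.1, rfl⟩, ⟨s.2.2.2, rfl⟩⟩

theorem disj2 (x n : ℤ) : Disjoint (fb '' FF 1 x n) (fg '' FF 1 x n) := by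
  rw [Set.disjoint_left]
  rintro _ ⟨⟨a, a', c, c'⟩, ⟨-, -, -, -, hdt, -, -⟩, rfl⟩ ⟨⟨b, b', e, e'⟩, -, h⟩
  simp only [fb, fg, Prod.mk.injEq] at h hdt
  obtain ⟨h1, h2, h3, h4⟩ := h
  have : (2 : ℤ) ∣ 1 := by
    rw [← hdt]
    refine ⟨a * e' - b' * c, ?_⟩
    rw [← h2, ← h4]
    ring
  norm_num at this

/-- **the count of the forms** -/
theorem G2_eq (n : ℕ) (hn : 0 < n) (x : ℤ) : G 2 x n =
    (((Om (2 * n)).filter (Cd n (2 * n) x)).card : ℤ) - 3 * ((Om n).filter (Cd n n x)).card := by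
  have hn' : (0 : ℤ) < n := by exact_mod_cast hn
  have f1 := FF_card n 1 hn one_pos x
  have f2 := FF_card n 2 hn two_pos x
  rw [one_mul, Nat.cast_one] at f1
  have F1 := FF_fin n 1 hn one_pos x
  have F2 := FF_fin n 2 hn two_pos x
  rw [Nat.cast_one] at F1
  rw [Nat.cast_ofNat] at f2 F2
  have FPf : (FP x n).Finite := F2.subset fun t h => h.1
  have c1 : (FF 2 x n).ncard = (FP x n).ncard + ((FF 1 x n).ncard + (FF 1 x n).ncard) := by
    rw [FF_split, Set.ncard_union_eq (disj1 x n) FPf ((F1.image _).union (F1.image _)),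
      Set.ncard_union_eq (disj2 x n) (F1.image _) (F1.image _),
      Set.ncard_image_of_injective _ fb_inj, Set.ncard_image_of_injective _ fg_inj]
  have c2 : {q | q ∈ S2 x n ∧ ¬ ((2 : ℤ) ∣ q.1 ∧ (2 : ℤ) ∣ q.2.2)}.ncard = (FP x n).ncard := by
    rw [← (bijP x n hn').image_eq, (bijP x n hn').injOn.ncard_image]
  have c3 : {q | q ∈ S2 x n ∧ ((2 : ℤ) ∣ q.1 ∧ (2 : ℤ) ∣ q.2.2)}.ncard = (FF 1 x n).ncard := by
    rw [← (bijI x n hn').image_eq, (bijI x n hn').injOn.ncard_image]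
  have c4 : G 2 x n = (({q | q ∈ S2 x n ∧ ¬ ((2 : ℤ) ∣ q.1 ∧ (2 : ℤ) ∣ q.2.2)}.ncard : ℕ) : ℤ) -
      (({q | q ∈ S2 x n ∧ ((2 : ℤ) ∣ q.1 ∧ (2 : ℤ) ∣ q.2.2)}.ncard : ℕ) : ℤ) := by
    classical
    unfold G
    rw [dif_pos hn']
    set s := (SS_fin x n hn').toFinset.filter (fun q => q.2.1 % 6 = 2) with hs
    have e1 : ∀ q ∈ s, cA q = if (2 : ℤ) ∣ q.1 ∧ (2 : ℤ) ∣ q.2.2 then -1 else 1 := by
      intro q hq
      rw [hs, Finset.mem_filter] at hq
      unfold cA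
      rw [if_pos hq.2, one_mul]
    rw [Finset.sum_congr rfl e1, Finset.sum_ite, Finset.sum_const, Finset.sum_const, nsmul_eq_mul,
      nsmul_eq_mul]
    have e2 : {q | q ∈ S2 x n ∧ ((2 : ℤ) ∣ q.1 ∧ (2 : ℤ) ∣ q.2.2)} =
        ((s.filter fun q => (2 : ℤ) ∣ q.1 ∧ (2 : ℤ) ∣ q.2.2 : Finset _) : Set (ℤ × ℤ × ℤ)) := by
      ext q
      simp only [Set.mem_ofPred_eq, Finset.mem_coe, Finset.mem_filter, hs, Set.Finite.mem_toFinset, S2]
    have e3 : {q | q ∈ S2 x n ∧ ¬ ((2 : ℤ) ∣ q.1 ∧ (2 : ℤ) ∣ q.2.2)} =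
        ((s.filter fun q => ¬ ((2 : ℤ) ∣ q.1 ∧ (2 : ℤ) ∣ q.2.2) : Finset _) : Set (ℤ × ℤ × ℤ)) := by
      ext q
      simp only [Set.mem_ofPred_eq, Finset.mem_coe, Finset.mem_filter, hs, Set.Finite.mem_toFinset, S2]
    rw [e2, e3, Set.ncard_coe_finset, Set.ncard_coe_finset]
    ring
  rw [c4, c2, c3, ← f2, ← f1, c1]
  push_cast
  ring

/-- the sum over the units of a function which is odd -/
theorem sum_un {n : ℕ} (hn : 1 < n) (χ : ℤ → ℤ) (hχ : ∀ u : ℤ, χ (n - u) = -χ u) :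
    ∑ u ∈ un n, χ u * FA u n = 2 * ∑ u ∈ un n, χ u * G 2 u n := by
  have hn0 : (0 : ℤ) < n := by exact_mod_cast (lt_trans one_pos hn)
  have flip : ∑ u ∈ un n, χ u * G 4 u n = ∑ u ∈ un n, χ u * G 2 u n := by
    have hun : ∀ u ∈ un n, n - u ∈ un n := by
      intro u hu
      unfold un at hu ⊢
      rw [Finset.mem_filter, Finset.mem_range] at hu ⊢
      have hu0 : u ≠ 0 := by
        rintro rfl
        have := hu.2
        rw [Nat.coprime_zero_left] at this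
        omega
      refine ⟨by omega, ?_⟩
      rw [Nat.coprime_comm, Nat.coprime_self_sub_right hu.1.le, Nat.coprime_comm]
      exact hu.2
    refine Finset.sum_nbij' (fun u => n - u) (fun u => n - u) hun hun ?_ ?_ ?_
    · intro u hu
      unfold un at hu
      rw [Finset.mem_filter, Finset.mem_range] at hu
      omega
    · intro u hu
      unfold un at hu
      rw [Finset.mem_filter, Finset.mem_range] at hu
      omega
    · intro u hu
      unfold un at hu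
      rw [Finset.mem_filter, Finset.mem_range] at hu
      rw [G_flip _ _ hn0]
      have e1 : ((n - u : ℕ) : ℤ) = (n : ℤ) - u := by
        rw [Nat.cast_sub hu.1.le]
      rw [e1, hχ]
      ring
  have : ∀ u ∈ un n, χ u * FA u n = χ u * G 2 u n + χ u * G 4 u n := by
    intro u _
    rw [FA_eq _ _ hn0]
    ring
  rw [Finset.sum_congr rfl this, Finset.sum_add_distrib, flip]
  ring

theorem WXA_eq (χ : ℤ → ℤ) (n N : ℕ) :
    ∑ u ∈ un n, χ u * (((Om N).filter (Cd n N u)).card : ℤ) = WXA χ n N := by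
  have rhs1 : ∀ u ∈ un n, χ u * (((Om N).filter (Cd n N u)).card : ℤ) =
      ∑ w ∈ Om N, (if Cd n N u w then χ u else 0) := by
    intro u _
    rw [Finset.card_filter]
    push_cast
    rw [Finset.mul_sum]
    refine Finset.sum_congr rfl fun w _ => ?_
    split_ifs
    · ring
    · ring
  rw [Finset.sum_congr rfl rhs1, Finset.sum_comm]
  unfold Om WXA
  rw [Finset.sum_sigma]
  refine Finset.sum_congr rfl fun T _ => ?_
  rw [Finset.sum_product]
  refine Finset.sum_congr rfl fun a _ => ?_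
  refine Finset.sum_congr rfl fun a' _ => ?_
  rw [Finset.sum_filter]
  refine Finset.sum_congr rfl fun u _ => ?_
  unfold Cd
  simp only

/-- the forms and the cusps -/
theorem main {n : ℕ} (hn : 1 < n) (χ : ℤ → ℤ) (hχ : ∀ u : ℤ, χ (n - u) = -χ u) :
    ∑ u ∈ un n, χ u * FA u n = 2 * (WXA χ n (2 * n) - 3 * WXA χ n n) := by
  rw [sum_un hn χ hχ, ← WXA_eq, ← WXA_eq]
  congr 1
  rw [Finset.mul_sum, ← Finset.sum_sub_distrib]
  refine Finset.sum_congr rfl fun u _ => ?_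
  rw [G2_eq n (by omega)]
  ring

/-- **C1AA** -/
theorem t_C1AA : S_C1AA := fun _ hn χ hχ => main hn χ hχ

end Pool.Agent.N973.P21.CA
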