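import Pool.Agent.N973.P21.CP7
import Pool.Agent.N973.P21.C1A
import Pool.Agent.N973.P21.C1AA

/-!
# P21: the bilinear identities
-/

set_option autoImplicit false

namespace Pool.Agent.N973.P21

open Finset
open Pool.Agent.N969.P15 (V3 Ev tw tb ep2 psp psp2 un chE)
open Pool.Agent.N877.P21
open Pool.Agent.N218.P21
open Pool.Agent.Z700 (hh fac)

/-! ### sums over the inner products and sums over `T` -/

theorem sum_T7 {N : ℕ} (h7 : ¬ 7 ∣ N) (h3 : ¬ 3 ∣ N) (g : ℤ → ℤ)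
    (hg : ∀ b : ℤ, -(N : ℤ) < b → b < N → ¬ (2 : ℤ) ∣ N - b → g b = 0) :
    ∑ b ∈ (Ioo (-((N : ℤ) + 1)) ((N : ℤ) + 1)).filter
      (fun b : ℤ => b % 7 = (-(N : ℤ)) % 7 ∧ b % 3 = (N : ℤ) % 3), g b =
    ∑ T ∈ (range N).filter (fun T => 3 ∣ T ∧ 7 ∣ N - T), g ((N : ℤ) - 2 * T) := by
  rw [← Finset.sum_filter_add_sum_filter_not _ (fun b : ℤ => (2 : ℤ) ∣ N - b)]
  have h2 : ∑ b ∈ ((Ioo (-((N : ℤ) + 1)) ((N : ℤ) + 1)).filter
      (fun b : ℤ => b % 7 = (-(N : ℤ)) % 7 ∧ b % 3 = (N : ℤ) % 3)).filter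
      (fun b : ℤ => ¬ (2 : ℤ) ∣ N - b), g b = 0 := by
    refine Finset.sum_eq_zero fun b hb => ?_
    obtain ⟨h6, h7'⟩ := Finset.mem_filter.1 hb
    obtain ⟨h8, h11, h12⟩ := Finset.mem_filter.1 h6
    obtain ⟨h9, h10⟩ := Finset.mem_Ioo.1 h8
    exact hg b (by omega) (by omega) h7'
  rw [h2, add_zero]
  refine Finset.sum_bij' (fun b _ => (((N : ℤ) - b) / 2).toNat) (fun T _ => (N : ℤ) - 2 * T) ?_ ?_ ?_ ?_ ?_
  · intro b hb
    obtain ⟨h6, h7'⟩ := Finset.mem_filter.1 hb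
    obtain ⟨h8, h11, h12⟩ := Finset.mem_filter.1 h6
    obtain ⟨h9, h10⟩ := Finset.mem_Ioo.1 h8
    rw [Finset.mem_filter, Finset.mem_range]
    obtain ⟨c, hc⟩ := h7'
    have h14 : ((N : ℤ) - b) / 2 = c := by omega
    rw [h14]
    have hb1 : b ≠ N := by rintro rfl; omega
    have hb2 : b ≠ -N := by rintro rfl; omega
    refine ⟨by omega, by omega, by omega⟩
  · intro T hT
    rw [Finset.mem_filter, Finset.mem_range] at hT
    obtain ⟨h6, h7', h8⟩ := hT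
    rw [Finset.mem_filter, Finset.mem_filter, Finset.mem_Ioo]
    refine ⟨⟨⟨by omega, by omega⟩, by omega, by omega⟩, by omega⟩
  · intro b hb
    obtain ⟨h6, h7'⟩ := Finset.mem_filter.1 hb
    obtain ⟨h9, h10⟩ := Finset.mem_Ioo.1 (Finset.mem_filter.1 h6).1
    omega
  · intro T hT
    omega
  · intro b hb
    obtain ⟨h6, h7'⟩ := Finset.mem_filter.1 hb
    obtain ⟨h8, h11, h12⟩ := Finset.mem_filter.1 h6
    obtain ⟨h9, h10⟩ := Finset.mem_Ioo.1 h8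
    congr 1
    omega

theorem D_pos {n n2 N : ℕ} (hN : n * n2 = N ^ 2) {b : ℤ} (h1 : -(N : ℤ) < b) (h2 : b < N) :
    ∃ D : ℕ, 0 < D ∧ (D : ℤ) = n * n2 - b ^ 2 := by
  have hNN : (n : ℤ) * n2 = (N : ℤ) ^ 2 := by exact_mod_cast hN
  have hpos : 0 < (N : ℤ) ^ 2 - b ^ 2 := by
    have e : (N : ℤ) ^ 2 - b ^ 2 = (N - b) * (N + b) := by ring
    rw [e]
    exact mul_pos (by omega) (by omega)
  refine ⟨((N : ℤ) ^ 2 - b ^ 2).toNat, by omega, ?_⟩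
  rw [Int.toNat_of_nonneg hpos.le, hNN]

theorem D_T {n n2 N : ℕ} (hN : n * n2 = N ^ 2) {T : ℕ} (h : T < N) :
    ((4 * (N - T) * T : ℕ) : ℤ) = n * n2 - ((N : ℤ) - 2 * T) ^ 2 := by
  have hNN : (n : ℤ) * n2 = (N : ℤ) ^ 2 := by exact_mod_cast hN
  rw [hNN]
  push_cast [Nat.cast_sub h.le]
  ring

/-- **the bilinear identities**, `n` prime to `21` -/
theorem BIL_g {n n2 N : ℕ} (L : ℤ → ℕ → ℤ)
    (hC : ∀ (b : ℤ) (D : ℕ), 0 < D → 7 ∣ D → (D : ℤ) = n * n2 - b ^ 2 →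
      (cp n b n2 : ℤ) + cp7 n b n2 = 24 * L b D)
    (hz : ∀ (b : ℤ) (D : ℕ), ¬ (2 : ℤ) ∣ N - b → 0 < D → (D : ℤ) = n * n2 - b ^ 2 → L b D = 0)
    (hN : n * n2 = N ^ 2) (h1 : Sp7 n) (h2 : Sp7 n2) (h31 : ¬ 3 ∣ n) (h32 : ¬ 3 ∣ n2) :
    576 * ∑ T ∈ (range N).filter (fun T => 3 ∣ T ∧ 7 ∣ N - T),
      L ((N : ℤ) - 2 * T) (4 * (N - T) * T) = 3 * rr n * rr n2 + cc n * cc n2 := by
  have hNN : (n : ℤ) * n2 = (N : ℤ) ^ 2 := by exact_mod_cast hN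
  have hN7 : ¬ 7 ∣ N := by
    intro h
    have h3 : 7 ∣ n * n2 := by
      rw [hN, sq]
      exact Dvd.dvd.mul_right h N
    unfold Sp7 at h1 h2
    rcases (Nat.Prime.dvd_mul (by norm_num)).1 h3 with h | h <;> omega
  have hN3 : ¬ 3 ∣ N := by
    intro h
    have h3 : 3 ∣ n * n2 := by
      rw [hN, sq]
      exact Dvd.dvd.mul_right h N
    rcases (Nat.Prime.dvd_mul (by norm_num)).1 h3 with h | h
    · exact h31 h
    · exact h32 h
  have key := t_REL55 n n2 h1 h2 h31 h32 ((-(N : ℤ)) % 7) ((N : ℤ) % 3) (by omega) (by omega) (by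
      rw [hNN]
      have e : ((-(N : ℤ)) % 7) ^ 2 - (N : ℤ) ^ 2 =
        ((-(N : ℤ)) % 7 - (-N)) * ((-(N : ℤ)) % 7 + (-N)) := by ring
      rw [e]
      exact Dvd.dvd.mul_right (by omega) _) (by omega) (by omega) (by
      rw [hNN]
      have e : ((N : ℤ) % 3) ^ 2 - (N : ℤ) ^ 2 = ((N : ℤ) % 3 - N) * ((N : ℤ) % 3 + N) := by ring
      rw [e]
      exact Dvd.dvd.mul_right (by omega) _) ((N : ℤ) + 1) (by
      rw [hNN]
      have : (0 : ℤ) ≤ N := Int.natCast_nonneg N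
      nlinarith) (by omega)
  rw [← key]
  have d7 : ∀ b : ℤ, ∀ D : ℕ, (D : ℤ) = n * n2 - b ^ 2 → b % 7 = (-(N : ℤ)) % 7 → 7 ∣ D := by
    intro b D hD hb
    have : (7 : ℤ) ∣ (D : ℤ) := by
      rw [hD, hNN]
      have e : (N : ℤ) ^ 2 - b ^ 2 = (N + b) * (N - b) := by ring
      rw [e]
      exact Dvd.dvd.mul_right (by omega) _
    exact_mod_cast this
  have e1 : ∑ b ∈ (Ioo (-((N : ℤ) + 1)) ((N : ℤ) + 1)).filter
      (fun b : ℤ => b % 7 = (-(N : ℤ)) % 7 ∧ b % 3 = (N : ℤ) % 3),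
        ((cp n b n2 : ℤ) + cp7 n b n2) =
      ∑ b ∈ (Ioo (-((N : ℤ) + 1)) ((N : ℤ) + 1)).filter
      (fun b : ℤ => b % 7 = (-(N : ℤ)) % 7 ∧ b % 3 = (N : ℤ) % 3),
        24 * L b ((N : ℤ) ^ 2 - b ^ 2).toNat := by
    refine Finset.sum_congr rfl fun b hb => ?_
    rw [Finset.mem_filter, Finset.mem_Ioo] at hb
    obtain ⟨⟨b1, b2⟩, b3, b4⟩ := hb
    have hb1 : b ≠ N := by rintro rfl; omega
    have hb2 : b ≠ -N := by rintro rfl; omega
    have hpos : 0 < (N : ℤ) ^ 2 - b ^ 2 := by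
      have e : (N : ℤ) ^ 2 - b ^ 2 = (N - b) * (N + b) := by ring
      rw [e]
      exact mul_pos (by omega) (by omega)
    have hD : (((N : ℤ) ^ 2 - b ^ 2).toNat : ℤ) = n * n2 - b ^ 2 := by
      rw [Int.toNat_of_nonneg hpos.le, hNN]
    exact hC b _ (by omega) (d7 b _ hD b3) hD
  rw [e1, sum_T7 hN7 hN3, Finset.mul_sum, Finset.mul_sum]
  · refine Finset.sum_congr rfl fun T hT => ?_
    rw [Finset.mem_filter, Finset.mem_range] at hT
    have e : (N : ℤ) ^ 2 - ((N : ℤ) - 2 * T) ^ 2 = ((4 * (N - T) * T : ℕ) : ℤ) := by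
      push_cast [Nat.cast_sub hT.1.le]
      ring
    rw [e, Int.toNat_natCast]
    ring
  · intro b b1 b2 h
    have hpos : 0 < (N : ℤ) ^ 2 - b ^ 2 := by
      have e : (N : ℤ) ^ 2 - b ^ 2 = (N - b) * (N + b) := by ring
      rw [e]
      exact mul_pos (by omega) (by omega)
    have hD : (((N : ℤ) ^ 2 - b ^ 2).toNat : ℤ) = n * n2 - b ^ 2 := by
      rw [Int.toNat_of_nonneg hpos.le, hNN]
    rw [hz b _ h (by omega) hD, mul_zero]

theorem loc7_odd (n D : ℕ) (h : ¬ 2 ∣ D) : loc7 n D = 0 := by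
  unfold loc7 lrest tw
  rw [Nat.factorization_eq_zero_of_not_dvd h]
  simp

theorem loc_odd (n D : ℕ) (h : ¬ 2 ∣ D) : loc n D = 0 := by
  unfold loc tw
  rw [Nat.factorization_eq_zero_of_not_dvd h]
  simp

theorem tb_odd {b : ℤ} (h : ¬ (2 : ℤ) ∣ b) : tb b = 0 := by
  unfold tb
  rw [if_neg (by omega), if_neg (by omega)]

theorem loc7E_odd (n : ℕ) {b : ℤ} (D : ℕ) (h : ¬ (2 : ℤ) ∣ b) : loc7E n b D = 0 := by
  unfold loc7E
  rw [tb_odd h]
  simp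

theorem tb_neg (b : ℤ) : tb (-b) = tb b := by
  unfold tb
  have q1 : (-b) % 4 = 0 ↔ b % 4 = 0 := by omega
  have q2 : (-b) % 4 = 2 ↔ b % 4 = 2 := by omega
  simp only [q1, q2]

theorem tb_T {N T : ℕ} (h : T < N) : tb ((T : ℤ) - ((N - T : ℕ) : ℤ)) = tb ((N : ℤ) - 2 * T) := by
  have e : (T : ℤ) - ((N - T : ℕ) : ℤ) = -((N : ℤ) - 2 * T) := by
    rw [Nat.cast_sub h.le]
    ring
  rw [e, tb_neg]

theorem odd_D {n n2 N : ℕ} (hN : n * n2 = N ^ 2) (b : ℤ) (D : ℕ) (hb : ¬ (2 : ℤ) ∣ N - b)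
    (hDD : (D : ℤ) = n * n2 - b ^ 2) : ¬ 2 ∣ D := by
  intro h
  have h1 : (2 : ℤ) ∣ (D : ℤ) := by exact_mod_cast h
  have hNN : (n : ℤ) * n2 = (N : ℤ) ^ 2 := by exact_mod_cast hN
  rw [hDD, hNN] at h1
  have e : (N : ℤ) ^ 2 - b ^ 2 = (N - b) * (N + b) := by ring
  rw [e] at h1
  rcases Int.Prime.dvd_mul' (p := 2) (by norm_num) h1 with h | h
  · push_cast at h; omega
  · push_cast at h; omega

theorem Sp7_4 {n : ℕ} (h : Sp7 n) : Sp7 (4 * n) := by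
  unfold Sp7 at h ⊢
  omega

theorem bil_odd (hC : S_CP7) {n : ℕ} (hn : Cls0 n) : 576 * AA n n = 3 * rr n * rr n + cc n * cc n ∧
    576 * AA n (2 * n) = 3 * rr n * rr (4 * n) + cc n * cc (4 * n) := by
  obtain ⟨hs, h4, h3, h7⟩ := hn
  have h3' : ¬ 3 ∣ n := by omega
  have h74 := Sp7_4 h7
  constructor
  · refine BIL_g (N := n) (fun _ D => loc7 n D) ?_ ?_ (sq n).symm h7 h7 h3' h3'
    · intro b D hD hd hDD
      exact hC n n b D hs h4 h7 h7 h3' hD hd hDD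
    · intro b D hb _ hDD
      exact loc7_odd n D (odd_D (sq n).symm b D hb hDD)
  · have := BIL_g (n2 := 4 * n) (N := 2 * n) (fun _ D => loc7 n D) ?_ ?_ (by ring) h7 h74 h3'
      (by omega)
    · push_cast at this
      exact this
    · intro b D hD hd hDD
      exact hC n (4 * n) b D hs h4 h7 h74 h3' hD hd hDD
    · intro b D hb _ hDD
      exact loc7_odd n D (odd_D (N := 2 * n) (by ring) b D hb hDD)

/-- **BIL1** -/
theorem t_BIL1 (hC : S_CP7) : S_BIL1 := by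
  intro n hn
  rw [(bil_odd hC hn).1]
  ring

/-- **BIL2** -/
theorem t_BIL2 (hC : S_CP7) : S_BIL2 := by
  intro n hn
  rw [(bil_odd hC hn).2]
  ring

theorem AAe_eq (n N : ℕ) : AAe n N = ∑ T ∈ (range N).filter (fun T => 3 ∣ T ∧ 7 ∣ N - T),
    loc7E n ((N : ℤ) - 2 * T) (4 * (N - T) * T) := by
  unfold AAe
  refine Finset.sum_congr rfl fun T hT => ?_
  rw [Finset.mem_filter, Finset.mem_range] at hT
  unfold loc7E
  rw [tb_T hT.1]

theorem bil_even (hC : S_CP7E) {n : ℕ} (hn : Cls0e n) :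
    576 * AAe n n = 3 * rr n * rr n + cc n * cc n ∧
    576 * AAe n (2 * n) = 3 * rr n * rr (4 * n) + cc n * cc (4 * n) := by
  obtain ⟨hev, h3, h7⟩ := hn
  have h3' : ¬ 3 ∣ n := by omega
  have h74 := Sp7_4 h7
  have h4 : 4 ∣ n := by
    obtain ⟨m, rfl, -⟩ := hev
    exact dvd_mul_right 4 m
  rw [AAe_eq, AAe_eq]
  constructor
  · refine BIL_g (N := n) (loc7E n) ?_ ?_ (sq n).symm h7 h7 h3' h3'
    · intro b D hD hd hDD
      exact hC n n b D hev h3 h7 h4 h7 hD hd hDD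
    · intro b D hb _ _
      exact loc7E_odd n D (by omega)
  · have := BIL_g (n2 := 4 * n) (N := 2 * n) (loc7E n) ?_ ?_ (by ring) h7 h74 h3'
      (by omega)
    · push_cast at this ⊢
      exact this
    · intro b D hD hd hDD
      exact hC n (4 * n) b D hev h3 h7 (dvd_mul_right 4 n) h74 hD hd hDD
    · intro b D hb _ _
      exact loc7E_odd n D (by push_cast at hb; omega)

/-- **BIL1E** -/
theorem t_BIL1E (hC : S_CP7E) : S_BIL1E := by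
  intro n hn
  rw [(bil_even hC hn).1]
  ring

/-- **BIL2E** -/
theorem t_BIL2E (hC : S_CP7E) : S_BIL2E := by
  intro n hn
  rw [(bil_even hC hn).2]
  ring

end Pool.Agent.N973.P21
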